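import Pool.Agent.V7H80.LV.Ls

set_option autoImplicit false

/-!
The large sieve inequality at the values of almost all polynomials.
-/

namespace Pool.Agent.V7H80.LV

open Finset Matrix MeasureTheory

/-- The size condition. -/
theorem big_ok {β A : ℝ} (hβ : 0 < β) (hA : 0 ≤ A) (q k N : ℕ) (hqk : q ≤ k)
    (hk : A * q + 3 ≤ β * ((k - q : ℕ) : ℝ)) (hN : 2 ^ (q + 1) < N) :
    2 * (N : ℝ) * (N * (1 + (N : ℝ) ^ A) ^ q) < ((N : ℝ) ^ β) ^ (k - q) := by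
  have hN1 : (1 : ℝ) ≤ N := by
    have h1 : 1 ≤ 2 ^ (q + 1) := Nat.one_le_two_pow
    have : 1 ≤ N := by omega
    exact_mod_cast this
  have hN0 : (0 : ℝ) < N := by linarith
  have hNA : (1 : ℝ) ≤ (N : ℝ) ^ A := Real.one_le_rpow hN1 hA
  have h1 : (1 + (N : ℝ) ^ A) ^ q ≤ (2 * (N : ℝ) ^ A) ^ q :=
    pow_le_pow_left₀ (by positivity) (by linarith) q
  have h2 : ((N : ℝ) ^ A) ^ q = (N : ℝ) ^ (A * q) := by
    rw [← Real.rpow_natCast ((N : ℝ) ^ A) q, ← Real.rpow_mul hN0.le]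
  have h3 : ((N : ℝ) ^ β) ^ (k - q) = (N : ℝ) ^ (β * ((k - q : ℕ) : ℝ)) := by
    rw [← Real.rpow_natCast ((N : ℝ) ^ β) (k - q), ← Real.rpow_mul hN0.le]
  have h4 : (N : ℝ) ^ (A * q + 3) ≤ (N : ℝ) ^ (β * ((k - q : ℕ) : ℝ)) :=
    Real.rpow_le_rpow_of_exponent_le hN1 hk
  have h5 : (N : ℝ) ^ (A * q + 3) = (N : ℝ) ^ (A * q) * (N : ℝ) ^ 3 := by
    rw [Real.rpow_add hN0]
    congr 1
    exact_mod_cast Real.rpow_natCast (N : ℝ) 3
  have h6 : (2 : ℝ) ^ (q + 1) < N := by exact_mod_cast hN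
  have h7 : 0 < (N : ℝ) ^ (A * q) := Real.rpow_pos_of_pos hN0 _
  rw [h3]
  refine lt_of_lt_of_le ?_ h4
  rw [h5]
  calc 2 * (N : ℝ) * (N * (1 + (N : ℝ) ^ A) ^ q) ≤ 2 * (N : ℝ) * (N * (2 * (N : ℝ) ^ A) ^ q) := by
        apply mul_le_mul_of_nonneg_left _ (by positivity)
        exact mul_le_mul_of_nonneg_left h1 (by positivity)
    _ = (N : ℝ) ^ (A * q) * ((2 : ℝ) ^ (q + 1) * (N * N)) := by
        rw [mul_pow, h2]
        ring
    _ < (N : ℝ) ^ (A * q) * (N : ℝ) ^ 3 := by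
        apply mul_lt_mul_of_pos_left _ h7
        calc (2 : ℝ) ^ (q + 1) * (N * N) < N * (N * N) := mul_lt_mul_of_pos_right h6 (by positivity)
          _ = (N : ℝ) ^ 3 := by ring

/-- For every `ε`, `β`, `A` and all large degrees: the large sieve inequality. -/
theorem poly_large_sieve (ε β A : ℝ) (hε : 0 < ε) (hβ : 0 < β) (hA : 0 < A) :
    ∃ k₀ : ℕ, ∀ k ≥ k₀, ∀ (S : ℕ → ℕ → Finset ℝ) (g : ℕ → ℕ → ℝ → ℝ),
      (∀ N l, (∀ x ∈ S N l, (N : ℝ) ^ β ≤ x ∧ x ≤ (N : ℝ) ^ A) ∧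
        ∀ x ∈ S N l, ∀ y ∈ S N l, x ≠ y → 1 ≤ |x - y|) →
      ∀ᵐ θ : Fin k → ℝ, ∃ C : ℝ, 0 ≤ C ∧ ∀ N l : ℕ, 1 ≤ N → (l : ℝ) ≤ (N : ℝ) ^ A → ∀ a : ℕ → ℂ,
        ∑ x ∈ S N l, ‖D a N (g N l x + ∑ i : Fin k, θ i * x ^ ((i : ℕ) + 1))‖ ^ 2 ≤
          C * (N : ℝ) ^ ε * (N + (S N l).card) * ∑ n ∈ Icc 1 N, ‖a n‖ ^ 2 := by
  obtain ⟨r, hr⟩ := exists_r (3 + 2 * A) ε hε
  set q : ℕ := 2 ^ (r + 1) with hq
  have hq1 : 1 ≤ q := Nat.one_le_two_pow
  obtain ⟨m, hm⟩ : ∃ m, q = m + 1 := ⟨q - 1, by omega⟩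
  refine ⟨q + ⌈(A * q + 3) / β⌉₊, ?_⟩
  intro k hk S g hS
  have hqk : q ≤ k := by omega
  have hk2 : A * q + 3 ≤ β * ((k - q : ℕ) : ℝ) := by
    have h1 : (A * q + 3) / β ≤ ((k - q : ℕ) : ℝ) := by
      refine (Nat.le_ceil _).trans ?_
      exact_mod_cast (by omega : ⌈(A * q + 3) / β⌉₊ ≤ k - q)
    rw [div_le_iff₀ hβ] at h1
    linarith
  -- the functions
  set F : ℕ × ℕ → (Fin k → ℝ) → ℝ := fun p θ =>
    if 2 ^ (q + 1) < p.1 then Tr k p.1 (S p.1 p.2) (g p.1 p.2) q θ *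
      (1 / ((p.1 : ℝ) ^ 3 * ((p.2 : ℝ) + 1) ^ 2 * (((S p.1 p.2).card : ℝ) + p.1) ^ q)) else 0 with hF
  have hTr : ∀ (N : ℕ) (S : Finset ℝ) (g : ℝ → ℝ) (θ : Fin k → ℝ), 0 ≤ Tr k N S g q θ := by
    intro N S g θ
    unfold Tr
    rw [hq]
    exact tr_nonneg N S _ r
  have hF0 : ∀ p θ, 0 ≤ F p θ := by
    intro p θ
    simp only [hF]
    split_ifs
    · exact mul_nonneg (hTr _ _ _ _) (by positivity)
    · exact le_rfl
  have hint : ∀ p, Integrable (fun θ => wt θ * F p θ) := by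
    intro p
    simp only [hF]
    by_cases hp : 2 ^ (q + 1) < p.1
    · simp only [if_pos hp, ← mul_assoc]
      rw [hm]
      exact (expect k p.1 (S p.1 p.2) (g p.1 p.2) m).1.mul_const _
    · simp only [if_neg hp, mul_zero]
      exact integrable_zero _ _ _
  have hFb : ∀ p, ∫ θ, wt θ * F p θ ≤ Kc m * (1 / (p.1 : ℝ) ^ 2 * (1 / ((p.2 : ℝ) + 1) ^ 2)) := by
    intro p
    simp only [hF]
    by_cases hp : 2 ^ (q + 1) < p.1
    · simp only [if_pos hp, ← mul_assoc]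
      rw [integral_mul_const]
      have hN : 1 ≤ p.1 := Nat.one_le_two_pow.trans hp.le
      have hN0 : (0 : ℝ) < p.1 := by exact_mod_cast hN
      have h1 : ∫ θ : Fin k → ℝ, wt θ * Tr k p.1 (S p.1 p.2) (g p.1 p.2) q θ ≤
          Kc m * (p.1 * (((S p.1 p.2).card : ℝ) + p.1) ^ q) := by
        rw [hm]
        refine (expect k p.1 (S p.1 p.2) (g p.1 p.2) m).2.trans ?_
        refine Bd_le (S p.1 p.2) (X := (p.1 : ℝ) ^ β) (H := (p.1 : ℝ) ^ A) hN (by omega) (by positivity)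
          (fun x hx => ((hS p.1 p.2).1 x hx).1) (fun x hx => ((hS p.1 p.2).1 x hx).2) (hS p.1 p.2).2 ?_
        rw [← hm]
        exact big_ok hβ hA.le q k p.1 hqk hk2 hp
      refine (mul_le_mul_of_nonneg_right h1 (by positivity)).trans (le_of_eq ?_)
      have h2 : (((S p.1 p.2).card : ℝ) + p.1) ≠ 0 := by positivity
      field_simp
    · simp only [if_neg hp, mul_zero, integral_zero]
      have := Kc_nonneg m
      positivity
  have hae := ae_bound volume wt wt_pos F hF0 hint _ (summ.mul_left (Kc m)) hFb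
  filter_upwards [hae] with θ hθ
  obtain ⟨C, hC, hCF⟩ := hθ
  refine ⟨max (max 1 (4 * C)) (2 ^ (q + 1)), le_trans zero_le_one ((le_max_left _ _).trans (le_max_left _ _)), ?_⟩
  intro N l hN hl a
  have hN1 : (1 : ℝ) ≤ N := by exact_mod_cast hN
  have hNε : (1 : ℝ) ≤ (N : ℝ) ^ ε := Real.one_le_rpow hN1 hε.le
  have hsa : 0 ≤ ∑ n ∈ Icc 1 N, ‖a n‖ ^ 2 := Finset.sum_nonneg fun _ _ => sq_nonneg _
  have hpt : ∀ x, g N l x + ∑ i : Fin k, θ i * x ^ ((i : ℕ) + 1) = pt (g N l) θ x := fun x => rfl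
  simp only [hpt]
  by_cases hp : 2 ^ (q + 1) < N
  · have h1 := hCF (N, l)
    simp only [hF, if_pos hp] at h1
    rw [mul_one_div, div_le_iff₀ (by positivity)] at h1
    have h2 := finish (ε := ε) (A := A) r hr hC hN hA.le hl a (S N l) (pt (g N l) θ) (by
      have h3 : Tr k N (S N l) (g N l) q θ =
        (((Amat N (S N l) (pt (g N l) θ) * (Amat N (S N l) (pt (g N l) θ))ᴴ) ^ 2 ^ (r + 1)).trace).re := rfl
      rw [← h3]
      exact h1)
    refine h2.trans ?_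
    apply mul_le_mul_of_nonneg_right _ hsa
    apply mul_le_mul_of_nonneg_right _ (by positivity)
    exact mul_le_mul_of_nonneg_right (le_max_left _ _) (by positivity)
  · have h1 := trivial_bound a N (S N l) (pt (g N l) θ)
    have h2 : (N : ℝ) ≤ 2 ^ (q + 1) := by
      have : N ≤ 2 ^ (q + 1) := by omega
      exact_mod_cast this
    refine h1.trans ?_
    rw [← mul_assoc]
    apply mul_le_mul_of_nonneg_right _ hsa
    calc ((S N l).card : ℝ) * N ≤ (N + (S N l).card) * (2 ^ (q + 1)) := by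
          apply mul_le_mul _ h2 (by positivity) (by positivity)
          linarith
      _ = 2 ^ (q + 1) * 1 * (N + (S N l).card) := by ring
      _ ≤ max (max 1 (4 * C)) (2 ^ (q + 1)) * (N : ℝ) ^ ε * (N + (S N l).card) := by
          apply mul_le_mul_of_nonneg_right _ (by positivity)
          exact mul_le_mul (le_max_right _ _) hNε (by positivity)
            (le_trans zero_le_one ((le_max_left _ _).trans (le_max_left _ _)))

end Pool.Agent.V7H80.LV
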