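import Pool.Agent.V7H80.LV.FracB
import Pool.Agent.V7H80.LV.Poly

set_option autoImplicit false

/-!
Random variables, and the final forms.
-/

namespace Pool.Agent.V7H80.LV

open Finset Matrix MeasureTheory

/-- The law of the first coefficients modulo one. -/
theorem law {Ω : Type} [MeasurableSpace Ω] (P : Measure Ω) [IsProbabilityMeasure P] (X : ℕ → Ω → ℝ)
    (hX : ∀ i, Measurable (X i)) (hind : ProbabilityTheory.iIndepFun X P)
    (hunif : ∀ i, P.map (X i) = volume.restrict (Set.Icc (0 : ℝ) 1)) (k : ℕ) :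
    MeasurePreserving (fun (ω : Ω) (i : Fin k) => ((X i ω : ℝ) : UnitAddCircle)) P volume := by
  have h1 : MeasurePreserving (fun (ω : Ω) (i : Fin k) => X i ω) P
      (Measure.pi fun _ : Fin k => volume.restrict (Set.Icc (0 : ℝ) 1)) := by
    refine ⟨measurable_pi_lambda _ fun i => hX i, ?_⟩
    have h2 : ProbabilityTheory.iIndepFun (fun i : Fin k => X i) P := hind.precomp Fin.val_injective
    rw [(ProbabilityTheory.iIndepFun_iff_map_fun_eq_pi_map (fun i : Fin k => (hX i).aemeasurable)).1 h2]
    congr 1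
    funext i
    exact hunif i
  have h3 : MeasurePreserving (fun (x : ℝ) => (x : UnitAddCircle)) (volume.restrict (Set.Icc (0 : ℝ) 1)) volume := by
    have h4 := AddCircle.measurePreserving_mk 1 0
    rw [zero_add, Measure.restrict_congr_set Ioc_ae_eq_Icc] at h4
    exact h4
  have h5 : MeasurePreserving (fun (x : Fin k → ℝ) (i : Fin k) => (x i : UnitAddCircle))
      (Measure.pi fun _ : Fin k => volume.restrict (Set.Icc (0 : ℝ) 1))
      (Measure.pi fun _ : Fin k => (volume : Measure UnitAddCircle)) :=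
    measurePreserving_pi _ _ fun i => h3
  exact h5.comp h1

theorem tau_real {k : ℕ} (g T : ℕ → ℝ) (θ : Fin k → ℝ) (x : ℕ) :
    tau g T (fun i => (θ i : UnitAddCircle)) x = g x + T x * Int.fract (∑ i : Fin k, θ i * (x : ℝ) ^ (i : ℕ)) := by
  unfold tau
  rw [ev_coe, frac_coe]

end Pool.Agent.V7H80.LV
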