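import Mathlib

set_option autoImplicit false

/-!
Summable expectations: almost surely all the functions are bounded by one constant.
-/

namespace Pool.Agent.V7H80.LV

open MeasureTheory

theorem ae_bound {Ω ι : Type} [Countable ι] [MeasurableSpace Ω] (μ : Measure Ω) (w : Ω → ℝ) (hw : ∀ θ, 0 < w θ)
    (F : ι → Ω → ℝ) (hF : ∀ p θ, 0 ≤ F p θ) (hint : ∀ p, Integrable (fun θ => w θ * F p θ) μ)
    (b : ι → ℝ) (hb : Summable b) (hFb : ∀ p, ∫ θ, w θ * F p θ ∂μ ≤ b p) :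
    ∀ᵐ θ ∂μ, ∃ C : ℝ, 0 ≤ C ∧ ∀ p, F p θ ≤ C := by
  have h1 : ∀ p, ∫⁻ θ, ENNReal.ofReal (w θ * F p θ) ∂μ ≤ ENNReal.ofReal (b p) := by
    intro p
    rw [← ofReal_integral_eq_lintegral_ofReal (hint p)
      (Filter.Eventually.of_forall fun θ => mul_nonneg (hw θ).le (hF p θ))]
    exact ENNReal.ofReal_le_ofReal (hFb p)
  have hm : ∀ p, AEMeasurable (fun θ => ENNReal.ofReal (w θ * F p θ)) μ :=
    fun p => (hint p).1.aemeasurable.ennreal_ofReal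
  have h2 : ∫⁻ θ, ∑' p, ENNReal.ofReal (w θ * F p θ) ∂μ ≠ ⊤ := by
    rw [lintegral_tsum hm]
    exact ne_top_of_le_ne_top hb.tsum_ofReal_ne_top (ENNReal.tsum_le_tsum h1)
  have h3 := ae_lt_top' (AEMeasurable.ennreal_tsum hm) h2
  filter_upwards [h3] with θ hθ
  refine ⟨(∑' p, ENNReal.ofReal (w θ * F p θ)).toReal / w θ, div_nonneg ENNReal.toReal_nonneg (hw θ).le, ?_⟩
  intro p
  rw [le_div_iff₀ (hw θ), mul_comm]
  have h4 : ENNReal.ofReal (w θ * F p θ) ≤ ∑' p, ENNReal.ofReal (w θ * F p θ) := ENNReal.le_tsum p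
  exact (ENNReal.ofReal_le_iff_le_toReal hθ.ne).1 h4

end Pool.Agent.V7H80.LV
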