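import Pool.Agent.V7H80.LV.Ex

set_option autoImplicit false

/-!
The bound for the sum over the closed walks.
-/

namespace Pool.Agent.V7H80.LV

open Finset Matrix MeasureTheory

theorem exp_small (N m : ℕ) (hN : 1 ≤ N) :
    (N : ℝ) ^ (m + 1) * Real.exp (-(N : ℝ) ^ 2 / (4 * Real.pi)) ≤ (4 * Real.pi) ^ (m + 1) * (m + 1).factorial := by
  have hpi := Real.pi_pos
  have hN1 : (1 : ℝ) ≤ N := by exact_mod_cast hN
  have hf : (0 : ℝ) < (m + 1).factorial := by exact_mod_cast Nat.factorial_pos _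
  have h1 := Real.pow_div_factorial_le_exp (x := (N : ℝ) ^ 2 / (4 * Real.pi)) (by positivity) (m + 1)
  rw [div_le_iff₀ hf, div_pow, div_le_iff₀ (by positivity)] at h1
  have h2 : (N : ℝ) ^ (m + 1) ≤ ((N : ℝ) ^ 2) ^ (m + 1) := by
    apply pow_le_pow_left₀ (by positivity)
    nlinarith
  have h3 : Real.exp ((N : ℝ) ^ 2 / (4 * Real.pi)) * Real.exp (-(N : ℝ) ^ 2 / (4 * Real.pi)) = 1 := by
    rw [← Real.exp_add, neg_div, add_neg_cancel, Real.exp_zero]
  calc (N : ℝ) ^ (m + 1) * Real.exp (-(N : ℝ) ^ 2 / (4 * Real.pi))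
      ≤ (Real.exp ((N : ℝ) ^ 2 / (4 * Real.pi)) * (m + 1).factorial * (4 * Real.pi) ^ (m + 1)) *
          Real.exp (-(N : ℝ) ^ 2 / (4 * Real.pi)) :=
        mul_le_mul_of_nonneg_right (h2.trans h1) (Real.exp_pos _).le
    _ = (Real.exp ((N : ℝ) ^ 2 / (4 * Real.pi)) * Real.exp (-(N : ℝ) ^ 2 / (4 * Real.pi))) *
          ((4 * Real.pi) ^ (m + 1) * (m + 1).factorial) := by ring
    _ = (4 * Real.pi) ^ (m + 1) * (m + 1).factorial := by rw [h3, one_mul]

theorem NP_coe {m : ℕ} {S : Finset ℝ} (s : Fin (m + 1) → S) : NP (fun j => (s j : ℝ)) = NP s := by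
  unfold NP
  ext j
  simp only [mem_filter, mem_univ, true_and, Subtype.coe_inj]

/-- The number of `n` for one closed walk, and the contribution of all the other `n`. -/
theorem one_walk {k N m : ℕ} (S : Finset ℝ) {X H : ℝ} (hN : 1 ≤ N) (hk : m + 1 ≤ k) (hX0 : 0 ≤ X)
    (hX : ∀ x ∈ S, X ≤ x) (hH : ∀ x ∈ S, x ≤ H) (hsep : ∀ x ∈ S, ∀ y ∈ S, x ≠ y → 1 ≤ |x - y|)
    (hbig : 2 * (N : ℝ) * (N * (1 + H) ^ (m + 1)) < X ^ (k - (m + 1))) (s : Fin (m + 1) → S) :
    ∑ n : Fin (m + 1) → Icc 1 N,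
      Real.exp (-(∑ i : Fin k, Lam (fun j => (s j : ℝ)) (fun j => Real.log (n j : ℕ))
        (fun x => x ^ ((i : ℕ) + 1)) ^ 2) / (4 * Real.pi)) ≤
      ((N ^ (NP s).card : ℕ) : ℝ) + (4 * Real.pi) ^ (m + 1) * (m + 1).factorial := by
  classical
  have hpi := Real.pi_pos
  set P : (Fin (m + 1) → Icc 1 N) → Prop := fun n => ∀ i : Fin k,
    |Lam (fun j => (s j : ℝ)) (fun j => Real.log (n j : ℕ)) (fun x => x ^ ((i : ℕ) + 1))| ≤ N with hP
  have h1 : ∀ n : Fin (m + 1) → Icc 1 N,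
      Real.exp (-(∑ i : Fin k, Lam (fun j => (s j : ℝ)) (fun j => Real.log (n j : ℕ))
        (fun x => x ^ ((i : ℕ) + 1)) ^ 2) / (4 * Real.pi)) ≤
      (if P n then 1 else 0) + Real.exp (-(N : ℝ) ^ 2 / (4 * Real.pi)) := by
    intro n
    split_ifs with hPn
    · have h2 : Real.exp (-(∑ i : Fin k, Lam (fun j => (s j : ℝ)) (fun j => Real.log (n j : ℕ))
        (fun x => x ^ ((i : ℕ) + 1)) ^ 2) / (4 * Real.pi)) ≤ 1 := by
        rw [Real.exp_le_one_iff, neg_div]
        have : 0 ≤ (∑ i : Fin k, Lam (fun j => (s j : ℝ)) (fun j => Real.log (n j : ℕ))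
          (fun x => x ^ ((i : ℕ) + 1)) ^ 2) / (4 * Real.pi) :=
          div_nonneg (Finset.sum_nonneg fun _ _ => sq_nonneg _) (by positivity)
        linarith
      linarith [Real.exp_pos (-(N : ℝ) ^ 2 / (4 * Real.pi))]
    · rw [zero_add, Real.exp_le_exp]
      simp only [hP, not_forall, not_le] at hPn
      obtain ⟨i, hi⟩ := hPn
      apply div_le_div_of_nonneg_right _ (by positivity)
      have h2 : (N : ℝ) ^ 2 ≤ Lam (fun j => (s j : ℝ)) (fun j => Real.log (n j : ℕ))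
          (fun x => x ^ ((i : ℕ) + 1)) ^ 2 := by
        rw [← sq_abs (Lam _ _ _)]
        exact pow_le_pow_left₀ (by positivity) hi.le 2
      have h3 : Lam (fun j => (s j : ℝ)) (fun j => Real.log (n j : ℕ)) (fun x => x ^ ((i : ℕ) + 1)) ^ 2 ≤
          ∑ i : Fin k, Lam (fun j => (s j : ℝ)) (fun j => Real.log (n j : ℕ)) (fun x => x ^ ((i : ℕ) + 1)) ^ 2 :=
        Finset.single_le_sum (f := fun i : Fin k => Lam (fun j => (s j : ℝ)) (fun j => Real.log (n j : ℕ))
          (fun x => x ^ ((i : ℕ) + 1)) ^ 2) (fun _ _ => sq_nonneg _) (Finset.mem_univ i)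
      linarith
  refine (Finset.sum_le_sum fun n _ => h1 n).trans ?_
  rw [Finset.sum_add_distrib]
  apply add_le_add
  · rw [← Finset.sum_filter, Finset.sum_const, nsmul_eq_mul, mul_one, Nat.cast_le]
    have hinj : Function.Injective (fun (n : Fin (m + 1) → Icc 1 N) (j : Fin (m + 1)) => ((n j : ℕ))) := by
      intro n n' h
      funext j
      exact Subtype.ext (congrFun h j)
    rw [← Finset.card_image_of_injective _ hinj]
    rw [← NP_coe s]
    refine card_sol (fun j => (s j : ℝ)) (ρ := N) (H := H) (X := X) (by positivity) hk hX0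
      (fun j => hX _ (s j).2) (fun j => hH _ (s j).2) ?_ hbig _ ?_ ?_
    · intro i j hij
      exact hsep _ (s i).2 _ (s j).2 hij
    · intro n hn j
      rw [Finset.mem_image] at hn
      obtain ⟨n', -, rfl⟩ := hn
      exact Finset.mem_Icc.1 (n' j).2
    · intro n hn a ha
      rw [Finset.mem_image] at hn
      obtain ⟨n', hn', rfl⟩ := hn
      rw [Finset.mem_filter] at hn'
      rcases Nat.eq_zero_or_pos a with h0 | h0
      · subst h0
        have h4 : Lam (fun j => (s j : ℝ)) (fun j => Real.log ((n' j : ℕ) : ℝ)) (fun x => x ^ 0) = 0 := by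
          unfold Lam
          simp
        rw [h4, abs_zero]
        positivity
      · have h5 := hn'.2 ⟨a - 1, by omega⟩
        simp only [show a - 1 + 1 = a by omega] at h5
        exact h5
  · rw [Finset.sum_const, nsmul_eq_mul]
    have h6 : (univ : Finset (Fin (m + 1) → Icc 1 N)).card = N ^ (m + 1) := by
      rw [Finset.card_univ, Fintype.card_fun]
      simp
    rw [h6]
    push_cast
    exact exp_small N m hN

/-- The constant. -/
noncomputable def Kc (m : ℕ) : ℝ := ((m : ℝ) + 1) ^ m + (4 * Real.pi) ^ (m + 1) * (m + 1).factorial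

theorem Kc_nonneg (m : ℕ) : 0 ≤ Kc m := by
  unfold Kc
  have := Real.pi_pos
  positivity

theorem sum_NP_le (N R m : ℕ) : ((R * N * (R + (m + 1) * N) ^ m : ℕ) : ℝ) ≤
    ((m : ℝ) + 1) ^ m * (N * ((R : ℝ) + N) ^ (m + 1)) := by
  push_cast
  have h1 : (R : ℝ) + (m + 1) * N ≤ (m + 1) * (R + N) := by
    have : (0 : ℝ) ≤ m * R := by positivity
    linarith
  have h2 : ((R : ℝ) + (m + 1) * N) ^ m ≤ ((m + 1) * (R + N)) ^ m :=
    pow_le_pow_left₀ (by positivity) h1 m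
  rw [mul_pow] at h2
  have h3 : (R : ℝ) * N ≤ (R + N) * N := by
    have : (0 : ℝ) ≤ N * N := by positivity
    linarith
  calc (R : ℝ) * N * (R + (m + 1) * N) ^ m ≤ ((R + N) * N) * ((m + 1) ^ m * (R + N) ^ m) :=
        mul_le_mul h3 h2 (by positivity) (by positivity)
    _ = (m + 1) ^ m * (N * (R + N) ^ (m + 1)) := by ring

theorem Bd_le {k N m : ℕ} (S : Finset ℝ) {X H : ℝ} (hN : 1 ≤ N) (hk : m + 1 ≤ k) (hX0 : 0 ≤ X)
    (hX : ∀ x ∈ S, X ≤ x) (hH : ∀ x ∈ S, x ≤ H) (hsep : ∀ x ∈ S, ∀ y ∈ S, x ≠ y → 1 ≤ |x - y|)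
    (hbig : 2 * (N : ℝ) * (N * (1 + H) ^ (m + 1)) < X ^ (k - (m + 1))) :
    Bd k N S m ≤ Kc m * (N * ((S.card : ℝ) + N) ^ (m + 1)) := by
  classical
  have hpi := Real.pi_pos
  have hN1 : (1 : ℝ) ≤ N := by exact_mod_cast hN
  unfold Bd
  refine (Finset.sum_le_sum fun s _ => one_walk S hN hk hX0 hX hH hsep hbig s).trans ?_
  rw [Finset.sum_add_distrib, Finset.sum_const, nsmul_eq_mul]
  have h1 : ((∑ s : Fin (m + 1) → S, (N ^ (NP s).card : ℕ) : ℕ) : ℝ) ≤
      ((m : ℝ) + 1) ^ m * (N * ((S.card : ℝ) + N) ^ (m + 1)) := by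
    refine le_trans ?_ (sum_NP_le N S.card m)
    rw [Nat.cast_le]
    have h2 := sum_NP (α := S) N hN m
    rw [Fintype.card_coe] at h2
    exact h2
  have h3 : ((univ : Finset (Fin (m + 1) → S)).card : ℝ) ≤ N * ((S.card : ℝ) + N) ^ (m + 1) := by
    rw [Finset.card_univ, Fintype.card_fun, Fintype.card_coe, Fintype.card_fin]
    push_cast
    have h4 : (S.card : ℝ) ^ (m + 1) ≤ ((S.card : ℝ) + N) ^ (m + 1) :=
      pow_le_pow_left₀ (by positivity) (by linarith) _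
    have h5 : (0 : ℝ) ≤ ((S.card : ℝ) + N) ^ (m + 1) := by positivity
    nlinarith
  rw [← Nat.cast_sum]
  unfold Kc
  rw [add_mul]
  apply add_le_add h1
  rw [mul_comm]
  exact mul_le_mul_of_nonneg_left h3 (by positivity)

end Pool.Agent.V7H80.LV
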