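import Mathlib

set_option autoImplicit false

/-!
Counting: closed walks `s` and integers `n` with `|∑_j (s_j ^ a - s_{j+1} ^ a) log n_j| ≤ ρ` for `a ≤ k`.
-/

namespace Pool.Agent.V7H80.LV

open Finset

/-- The linear functional `F ↦ ∑_j (F (s_j) - F (s_{j+1})) L_j` of a closed walk. -/
noncomputable def Lam {m : ℕ} (s : Fin (m + 1) → ℝ) (L : Fin (m + 1) → ℝ) (F : ℝ → ℝ) : ℝ :=
  ∑ j, (F (s j) - F (s (j + 1))) * L j

theorem Lam_prod {m : ℕ} (s : Fin (m + 1) → ℝ) (hs : ∀ j, 0 ≤ s j) (L : Fin (m + 1) → ℝ) {ρ : ℝ} {k : ℕ}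
    (h : ∀ a ≤ k, |Lam s L (fun x => x ^ a)| ≤ ρ) (J : Finset (Fin (m + 1))) :
    ∀ a, a + J.card ≤ k →
      |Lam s L (fun x => x ^ a * ∏ i ∈ J, (x - s i))| ≤ ρ * ∏ i ∈ J, (1 + s i) := by
  induction J using Finset.induction_on with
  | empty =>
    intro a ha
    simpa using h a (by simpa using ha)
  | insert i J hi ih =>
    intro a ha
    rw [Finset.card_insert_of_notMem hi] at ha
    have h1 := ih (a + 1) (by omega)
    have h2 := ih a (by omega)
    have h3 : Lam s L (fun x => x ^ a * ∏ i' ∈ insert i J, (x - s i')) =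
        Lam s L (fun x => x ^ (a + 1) * ∏ i ∈ J, (x - s i)) -
          s i * Lam s L (fun x => x ^ a * ∏ i ∈ J, (x - s i)) := by
      unfold Lam
      rw [Finset.mul_sum, ← Finset.sum_sub_distrib]
      refine Finset.sum_congr rfl fun j _ => ?_
      simp only [Finset.prod_insert hi]
      ring
    rw [h3, Finset.prod_insert hi]
    have h4 : (0 : ℝ) ≤ s i := hs i
    calc |Lam s L (fun x => x ^ (a + 1) * ∏ i ∈ J, (x - s i)) -
          s i * Lam s L (fun x => x ^ a * ∏ i ∈ J, (x - s i))|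
        ≤ |Lam s L (fun x => x ^ (a + 1) * ∏ i ∈ J, (x - s i))| +
          |s i * Lam s L (fun x => x ^ a * ∏ i ∈ J, (x - s i))| := abs_sub _ _
      _ ≤ ρ * ∏ i ∈ J, (1 + s i) + s i * (ρ * ∏ i ∈ J, (1 + s i)) := by
          rw [abs_mul, abs_of_nonneg h4]
          exact add_le_add h1 (mul_le_mul_of_nonneg_left h2 h4)
      _ = ρ * ((1 + s i) * ∏ i ∈ J, (1 + s i)) := by ring

/-- The indices which are not pivots: the last one, and those whose letter occurs again. -/
def NP {m : ℕ} {α : Type} [DecidableEq α] (s : Fin (m + 1) → α) : Finset (Fin (m + 1)) :=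
  univ.filter fun j => j = Fin.last m ∨ ∃ i, j < i ∧ s i = s j

theorem log_gap {N x y : ℕ} (hx : 1 ≤ x) (hy : 1 ≤ y) (hxN : x ≤ N) (hyN : y ≤ N) (hne : x ≠ y) :
    1 / (N : ℝ) ≤ |Real.log x - Real.log y| := by
  wlog hlt : x < y generalizing x y with H
  · have h := H hy hx hyN hxN hne.symm (by omega)
    rwa [abs_sub_comm] at h
  have hx0 : (0 : ℝ) < x := by exact_mod_cast hx
  have hy0 : (0 : ℝ) < y := by exact_mod_cast hy
  have h1 : Real.log x - Real.log y = Real.log ((x : ℝ) / y) := (Real.log_div hx0.ne' hy0.ne').symm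
  have h2 : Real.log ((x : ℝ) / y) ≤ (x : ℝ) / y - 1 := Real.log_le_sub_one_of_pos (by positivity)
  have h3 : (x : ℝ) + 1 ≤ y := by exact_mod_cast hlt
  have h4 : (x : ℝ) / y - 1 ≤ -(1 / y) := by
    rw [div_sub_one hy0.ne', ← neg_div, div_le_div_iff_of_pos_right hy0]
    linarith
  have h5 : (1 : ℝ) / N ≤ 1 / y := by
    apply one_div_le_one_div_of_le hy0
    exact_mod_cast hyN
  rw [h1, abs_of_nonpos (by linarith [one_div_pos.2 hy0])]
  linarith

/-- Two solutions which agree outside the pivots are equal. -/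
theorem unique {m : ℕ} (s : Fin (m + 1) → ℝ) {N k : ℕ} {ρ H X : ℝ} (hρ : 0 ≤ ρ) (hk : m + 1 ≤ k)
    (hX0 : 0 ≤ X) (hX : ∀ j, X ≤ s j) (hH : ∀ j, s j ≤ H)
    (hsep : ∀ i j, s i ≠ s j → 1 ≤ |s i - s j|)
    (hbig : 2 * N * (ρ * (1 + H) ^ (m + 1)) < X ^ (k - (m + 1)))
    (n n' : Fin (m + 1) → ℕ) (hn : ∀ j, 1 ≤ n j ∧ n j ≤ N) (hn' : ∀ j, 1 ≤ n' j ∧ n' j ≤ N)
    (h : ∀ a ≤ k, |Lam s (fun j => Real.log (n j)) (fun x => x ^ a)| ≤ ρ)
    (h' : ∀ a ≤ k, |Lam s (fun j => Real.log (n' j)) (fun x => x ^ a)| ≤ ρ)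
    (heq : ∀ j ∈ NP s, n j = n' j) : n = n' := by
  classical
  have hs : ∀ j, 0 ≤ s j := fun j => hX0.trans (hX j)
  have hH0 : 0 ≤ H := (hs 0).trans (hH 0)
  by_contra hne
  have hex : ∃ j, n j ≠ n' j := by
    by_contra hcon
    push Not at hcon
    exact hne (funext hcon)
  -- the smallest index where they differ
  obtain ⟨j₀, hj₀, hmin⟩ : ∃ j₀, n j₀ ≠ n' j₀ ∧ ∀ j, j < j₀ → n j = n' j := by
    have hS : (univ.filter fun j => n j ≠ n' j).Nonempty := by
      obtain ⟨j, hj⟩ := hex
      exact ⟨j, by simpa using hj⟩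
    refine ⟨(univ.filter fun j => n j ≠ n' j).min' hS, ?_, ?_⟩
    · have := Finset.min'_mem _ hS
      simpa using this
    · intro j hj
      by_contra hcon
      have := Finset.min'_le (univ.filter fun j => n j ≠ n' j) j (by simpa using hcon)
      exact absurd hj (not_lt.2 this)
  have hnp : j₀ ∉ NP s := fun hc => hj₀ (heq _ hc)
  simp only [NP, mem_filter, mem_univ, true_and, not_or, not_exists, not_and] at hnp
  obtain ⟨hlast, hlater⟩ := hnp
  have hlastmem : Fin.last m ∈ NP s := by simp [NP]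
  have hlasteq := heq _ hlastmem
  -- the test function
  set J : Finset (Fin (m + 1)) := univ.filter fun i => s i ≠ s j₀ with hJ
  have hJcard : J.card ≤ m + 1 := by
    calc J.card ≤ (univ : Finset (Fin (m + 1))).card := Finset.card_filter_le _ _
      _ = m + 1 := by simp
  set F : ℝ → ℝ := fun x => x ^ (k - (m + 1)) * ∏ i ∈ J, (x - s i) with hF
  have b1 := Lam_prod s hs (fun j => Real.log (n j)) h J (k - (m + 1)) (by omega)
  have b2 := Lam_prod s hs (fun j => Real.log (n' j)) h' J (k - (m + 1)) (by omega)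
  have hFz : ∀ j, s j ≠ s j₀ → F (s j) = 0 := by
    intro j hj
    simp only [hF]
    rw [Finset.prod_eq_zero (i := j) (by simp [hJ, hj]) (by simp), mul_zero]
  set c : ℝ := F (s j₀) with hc
  have hprod : ∏ i ∈ J, (1 + s i) ≤ (1 + H) ^ (m + 1) := by
    calc ∏ i ∈ J, (1 + s i) ≤ ∏ _i ∈ J, (1 + H) := by
          apply Finset.prod_le_prod
          · intro i _
            linarith [hs i]
          · intro i _
            linarith [hH i]
      _ = (1 + H) ^ J.card := by rw [Finset.prod_const]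
      _ ≤ (1 + H) ^ (m + 1) := pow_le_pow_right₀ (by linarith) hJcard
  -- the size of c
  have hcabs : X ^ (k - (m + 1)) ≤ |c| := by
    have h1 : |c| = s j₀ ^ (k - (m + 1)) * ∏ i ∈ J, |s j₀ - s i| := by
      rw [hc, hF]
      simp only [abs_mul, Finset.abs_prod, abs_pow, abs_of_nonneg (hs j₀)]
    have h2 : (1 : ℝ) ≤ ∏ i ∈ J, |s j₀ - s i| := by
      have h3 : ∏ _i ∈ J, (1 : ℝ) ≤ ∏ i ∈ J, |s j₀ - s i| := by
        apply Finset.prod_le_prod
        · intro i _
          norm_num
        · intro i hi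
          simp only [hJ, mem_filter, mem_univ, true_and] at hi
          exact hsep _ _ (Ne.symm hi)
      simpa using h3
    have h4 : X ^ (k - (m + 1)) ≤ s j₀ ^ (k - (m + 1)) := pow_le_pow_left₀ hX0 (hX j₀) _
    rw [h1]
    calc X ^ (k - (m + 1)) ≤ s j₀ ^ (k - (m + 1)) := h4
      _ = s j₀ ^ (k - (m + 1)) * 1 := (mul_one _).symm
      _ ≤ _ := mul_le_mul_of_nonneg_left h2 (pow_nonneg (hs j₀) _)
  -- the difference of the two values
  have hdiff : Lam s (fun j => Real.log (n j)) F - Lam s (fun j => Real.log (n' j)) F =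
      c * (Real.log (n j₀) - Real.log (n' j₀)) := by
    unfold Lam
    rw [← Finset.sum_sub_distrib]
    rw [Finset.sum_eq_single j₀]
    · have hlt : j₀ < j₀ + 1 := Fin.lt_add_one_iff.2 (lt_of_le_of_ne (Fin.le_last _) hlast)
      rw [hFz (j₀ + 1) (hlater _ hlt)]
      ring
    · intro j _ hj
      rcases lt_or_gt_of_ne hj with hlt | hgt
      · have e := hmin j hlt
        simp only [e, sub_self]
      · by_cases hjl : j = Fin.last m
        · simp only [hjl, hlasteq, sub_self]
        · have hlt : j < j + 1 := Fin.lt_add_one_iff.2 (lt_of_le_of_ne (Fin.le_last _) hjl)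
          rw [hFz (j + 1) (hlater _ (hgt.trans hlt)), hFz j (hlater _ hgt)]
          ring
    · intro hcon
      exact absurd (Finset.mem_univ _) hcon
  have hN : 1 ≤ N := (hn j₀).1.trans (hn j₀).2
  have hN0 : (0 : ℝ) < N := by exact_mod_cast hN
  have hgap := log_gap (hn j₀).1 (hn' j₀).1 (hn j₀).2 (hn' j₀).2 hj₀
  have h1 : |c * (Real.log (n j₀) - Real.log (n' j₀))| ≤ 2 * (ρ * (1 + H) ^ (m + 1)) := by
    rw [← hdiff]
    have hb : ρ * ∏ i ∈ J, (1 + s i) ≤ ρ * (1 + H) ^ (m + 1) := mul_le_mul_of_nonneg_left hprod hρ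
    calc |Lam s (fun j => Real.log (n j)) F - Lam s (fun j => Real.log (n' j)) F| ≤
        |Lam s (fun j => Real.log (n j)) F| + |Lam s (fun j => Real.log (n' j)) F| := abs_sub _ _
      _ ≤ 2 * (ρ * (1 + H) ^ (m + 1)) := by linarith [b1, b2]
  rw [abs_mul] at h1
  have h2 : |c| * (1 / N) ≤ 2 * (ρ * (1 + H) ^ (m + 1)) :=
    (mul_le_mul_of_nonneg_left hgap (abs_nonneg c)).trans h1
  have h3 : |c| ≤ 2 * N * (ρ * (1 + H) ^ (m + 1)) := by
    rw [mul_one_div, div_le_iff₀ hN0] at h2
    linarith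
  linarith

/-- The number of solutions for one closed walk. -/
theorem card_sol {m : ℕ} (s : Fin (m + 1) → ℝ) {N k : ℕ} {ρ H X : ℝ} (hρ : 0 ≤ ρ) (hk : m + 1 ≤ k)
    (hX0 : 0 ≤ X) (hX : ∀ j, X ≤ s j) (hH : ∀ j, s j ≤ H)
    (hsep : ∀ i j, s i ≠ s j → 1 ≤ |s i - s j|)
    (hbig : 2 * N * (ρ * (1 + H) ^ (m + 1)) < X ^ (k - (m + 1)))
    (B : Finset (Fin (m + 1) → ℕ)) (hB : ∀ n ∈ B, ∀ j, 1 ≤ n j ∧ n j ≤ N)
    (h : ∀ n ∈ B, ∀ a ≤ k, |Lam s (fun j => Real.log (n j)) (fun x => x ^ a)| ≤ ρ) :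
    B.card ≤ N ^ (NP s).card := by
  classical
  have h1 : B.card ≤ (Fintype.piFinset (fun _ : NP s => Icc 1 N)).card := by
    apply Finset.card_le_card_of_injOn (fun n => fun j : NP s => n j)
    · intro n hn
      rw [Finset.mem_coe, Fintype.mem_piFinset]
      intro j
      rw [Finset.mem_Icc]
      exact hB n hn j
    · intro n hn n' hn' he
      apply unique s hρ hk hX0 hX hH hsep hbig n n' (hB n hn) (hB n' hn') (h n hn) (h n' hn')
      intro j hj
      exact congrFun he ⟨j, hj⟩
  rw [Fintype.card_piFinset] at h1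
  simpa using h1

theorem NP_cons {m : ℕ} {α : Type} [DecidableEq α] (x : α) (s : Fin (m + 1) → α) :
    (NP (Fin.cons x s : Fin (m + 2) → α)).card = (if ∃ i, s i = x then 1 else 0) + (NP s).card := by
  unfold NP
  rw [Fin.card_filter_univ_succ]
  have h0 : (((0 : Fin (m + 2)) = Fin.last (m + 1)) ∨ ∃ i, (0 : Fin (m + 2)) < i ∧
      (Fin.cons x s : Fin (m + 2) → α) i = (Fin.cons x s : Fin (m + 2) → α) 0) ↔ ∃ i, s i = x := by
    constructor
    · rintro (h | ⟨i, hi, h⟩)
      · exact absurd h (by simp [Fin.ext_iff])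
      · obtain ⟨i', rfl⟩ := Fin.exists_succ_eq.2 hi.ne'
        exact ⟨i', by simpa using h⟩
    · rintro ⟨i, hi⟩
      exact Or.inr ⟨i.succ, Fin.succ_pos i, by simpa using hi⟩
  have h1 : (univ.filter fun j : Fin (m + 1) => j.succ = Fin.last (m + 1) ∨ ∃ i, j.succ < i ∧
      (Fin.cons x s : Fin (m + 2) → α) i = (Fin.cons x s : Fin (m + 2) → α) j.succ).card =
      (univ.filter fun j : Fin (m + 1) => j = Fin.last m ∨ ∃ i, j < i ∧ s i = s j).card := by
    congr 1
    ext j
    simp only [mem_filter, mem_univ, true_and, Fin.cons_succ]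
    constructor
    · rintro (h | ⟨i, hi, h⟩)
      · left
        rw [← Fin.succ_last] at h
        exact Fin.succ_injective _ h
      · right
        have hi0 : i ≠ 0 := by
          rintro rfl
          exact absurd hi (Fin.not_lt_zero _)
        obtain ⟨i', rfl⟩ := Fin.exists_succ_eq.2 hi0
        exact ⟨i', Fin.succ_lt_succ_iff.1 hi, by simpa using h⟩
    · rintro (h | ⟨i, hi, h⟩)
      · left
        rw [h, Fin.succ_last]
      · right
        exact ⟨i.succ, Fin.succ_lt_succ_iff.2 hi, by simpa using h⟩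
  rw [h1]
  by_cases h2 : ∃ i, s i = x
  · rw [if_pos (h0.2 h2), if_pos h2]
    omega
  · rw [if_neg (fun h3 => h2 (h0.1 h3)), if_neg h2]
    omega

/-- The sum over the closed walks. -/
theorem sum_NP {α : Type} [Fintype α] [DecidableEq α] (N : ℕ) (hN : 1 ≤ N) (m : ℕ) :
    ∑ s : Fin (m + 1) → α, N ^ (NP s).card ≤
      Fintype.card α * N * (Fintype.card α + (m + 1) * N) ^ m := by
  induction m with
  | zero =>
    have h1 : ∀ s : Fin 1 → α, (NP s).card = 1 := by
      intro s
      have : NP s = univ := by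
        ext j
        simp only [NP, mem_filter, mem_univ, true_and, iff_true]
        left
        exact Subsingleton.elim (α := Fin 1) _ _
      rw [this]
      simp
    simp only [h1, pow_one, Finset.sum_const, smul_eq_mul, pow_zero, mul_one, zero_add]
    have h2 : (univ : Finset (Fin 1 → α)).card = Fintype.card α := by
      rw [Finset.card_univ, Fintype.card_fun]
      simp
    rw [h2]
  | succ m ih =>
    rw [← (Fin.consEquiv (fun _ : Fin (m + 2) => α)).sum_comp, Fintype.sum_prod_type, Finset.sum_comm]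
    have h1 : ∀ s : Fin (m + 1) → α, ∑ x : α, N ^ (NP (Fin.consEquiv (fun _ : Fin (m + 2) => α) (x, s))).card ≤
        N ^ (NP s).card * (Fintype.card α + (m + 1) * N) := by
      intro s
      have h2 : ∀ x : α, N ^ (NP (Fin.consEquiv (fun _ : Fin (m + 2) => α) (x, s))).card ≤
          N ^ (NP s).card * (1 + if ∃ i, s i = x then N else 0) := by
        intro x
        have h3 : NP (Fin.consEquiv (fun _ : Fin (m + 2) => α) (x, s)) = NP (Fin.cons x s : Fin (m + 2) → α) := rfl
        rw [h3, NP_cons, pow_add, mul_comm]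
        apply Nat.mul_le_mul_left
        split_ifs
        · simp
        · simp
      calc ∑ x : α, N ^ (NP (Fin.consEquiv (fun _ : Fin (m + 2) => α) (x, s))).card
          ≤ ∑ x : α, N ^ (NP s).card * (1 + if ∃ i, s i = x then N else 0) := Finset.sum_le_sum fun x _ => h2 x
        _ = N ^ (NP s).card * (Fintype.card α + (univ.filter fun x => ∃ i, s i = x).card * N) := by
            rw [← Finset.mul_sum, Finset.sum_add_distrib, ← Finset.sum_filter, Finset.sum_const, Finset.sum_const]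
            simp
        _ ≤ N ^ (NP s).card * (Fintype.card α + (m + 1) * N) := by
            apply Nat.mul_le_mul_left
            apply Nat.add_le_add_left
            apply Nat.mul_le_mul_right
            have h4 : (univ.filter fun x => ∃ i, s i = x) = univ.image s := by
              ext x
              simp
            rw [h4]
            calc (univ.image s).card ≤ (univ : Finset (Fin (m + 1))).card := Finset.card_image_le
              _ = m + 1 := by simp
    calc ∑ s : Fin (m + 1) → α, ∑ x : α, N ^ (NP (Fin.consEquiv (fun _ : Fin (m + 2) => α) (x, s))).card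
        ≤ ∑ s : Fin (m + 1) → α, N ^ (NP s).card * (Fintype.card α + (m + 1) * N) :=
          Finset.sum_le_sum fun s _ => h1 s
      _ = (∑ s : Fin (m + 1) → α, N ^ (NP s).card) * (Fintype.card α + (m + 1) * N) := by
          rw [Finset.sum_mul]
      _ ≤ (Fintype.card α * N * (Fintype.card α + (m + 1) * N) ^ m) * (Fintype.card α + (m + 1) * N) :=
          Nat.mul_le_mul_right _ ih
      _ = Fintype.card α * N * (Fintype.card α + (m + 1) * N) ^ (m + 1) := by ring
      _ ≤ Fintype.card α * N * (Fintype.card α + (m + 1 + 1) * N) ^ (m + 1) := by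
          apply Nat.mul_le_mul_left
          apply Nat.pow_le_pow_left
          nlinarith

end Pool.Agent.V7H80.LV
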