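import Mathlib

set_option autoImplicit false

/-!
Traces of powers: the formula by closed walks, and `(‖A a‖²)^q ≤ (‖a‖²)^q tr (A Aᴴ)^q` for `q = 2^r`.
-/

namespace Pool.Agent.V7H80.LV

open Finset Matrix

variable {α : Type} [Fintype α] [DecidableEq α]

theorem pow_walk (G : Matrix α α ℂ) (m : ℕ) : ∀ x y : α,
    (G ^ (m + 1)) x y = ∑ s : Fin m → α, ∏ j : Fin (m + 1),
      G ((Fin.cons x s : Fin (m + 1) → α) j)
        ((Fin.snoc (α := fun _ => α) (Fin.cons x s : Fin (m + 1) → α) y : Fin (m + 2) → α) j.succ) := by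
  induction m with
  | zero =>
    intro x y
    rw [Fintype.sum_unique, show (G ^ (0 + 1)) = G from pow_one G]
    simp [Fin.snoc]
  | succ m ih =>
    intro x y
    rw [pow_succ' G (m + 1), Matrix.mul_apply]
    rw [← (Fin.consEquiv (fun _ : Fin (m + 1) => α)).sum_comp, Fintype.sum_prod_type]
    refine Finset.sum_congr rfl fun z _ => ?_
    rw [ih z y, Finset.mul_sum]
    refine Finset.sum_congr rfl fun s _ => ?_
    have h1 : (Fin.consEquiv (fun _ : Fin (m + 1) => α)) (z, s) = (Fin.cons z s : Fin (m + 1) → α) := rfl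
    rw [h1, Fin.prod_univ_succ (n := m + 1)]
    have h2 : (Fin.snoc (α := fun _ => α) (Fin.cons x (Fin.cons z s : Fin (m + 1) → α) : Fin (m + 2) → α) y :
        Fin (m + 3) → α) =
        (Fin.cons x (Fin.snoc (α := fun _ => α) (Fin.cons z s : Fin (m + 1) → α) y : Fin (m + 2) → α) :
          Fin (m + 3) → α) := by
      rw [Fin.cons_snoc_eq_snoc_cons]
    rw [h2]
    simp only [Fin.cons_succ, Fin.cons_zero]
    congr 1

theorem trace_walk (G : Matrix α α ℂ) (m : ℕ) :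
    (G ^ (m + 1)).trace = ∑ s : Fin (m + 1) → α, ∏ j : Fin (m + 1), G (s j) (s (j + 1)) := by
  rw [Matrix.trace, ← (Fin.consEquiv (fun _ : Fin (m + 1) => α)).sum_comp, Fintype.sum_prod_type]
  refine Finset.sum_congr rfl fun x _ => ?_
  rw [Matrix.diag_apply, pow_walk]
  refine Finset.sum_congr rfl fun s _ => ?_
  refine Finset.prod_congr rfl fun j _ => ?_
  have h1 : (Fin.consEquiv (fun _ : Fin (m + 1) => α)) (x, s) = (Fin.cons x s : Fin (m + 1) → α) := rfl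
  rw [h1]
  congr 1
  rcases Fin.eq_castSucc_or_eq_last j.succ with ⟨j', hj'⟩ | hj
  · rw [hj', Fin.snoc_castSucc]
    congr 1
    have hv := congrArg Fin.val hj'
    simp only [Fin.val_succ, Fin.val_castSucc] at hv
    apply Fin.ext
    rw [Fin.val_add_one]
    split_ifs with hl
    · have := j'.isLt
      rw [hl, Fin.val_last] at hv
      omega
    · exact hv.symm
  · rw [hj, Fin.snoc_last]
    have hl : j = Fin.last m := by
      rw [← Fin.succ_last] at hj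
      exact Fin.succ_injective _ hj
    rw [hl, Fin.last_add_one, Fin.cons_zero]

/-- The square of the Euclidean norm. -/
noncomputable def nsq {β : Type} [Fintype β] (x : β → ℂ) : ℝ := ∑ i, ‖x i‖ ^ 2

theorem nsq_nonneg {β : Type} [Fintype β] (x : β → ℂ) : 0 ≤ nsq x :=
  Finset.sum_nonneg fun _ _ => by positivity

theorem cs {β : Type} [Fintype β] (x y : β → ℂ) : ‖x ⬝ᵥ y‖ ^ 2 ≤ nsq x * nsq y := by
  have h1 : ‖x ⬝ᵥ y‖ ≤ ∑ i, ‖x i‖ * ‖y i‖ := by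
    unfold dotProduct
    refine (norm_sum_le _ _).trans (le_of_eq ?_)
    refine Finset.sum_congr rfl fun i _ => ?_
    rw [norm_mul]
  calc ‖x ⬝ᵥ y‖ ^ 2 ≤ (∑ i, ‖x i‖ * ‖y i‖) ^ 2 := by
        apply pow_le_pow_left₀ (norm_nonneg _) h1
    _ ≤ nsq x * nsq y := Finset.sum_mul_sq_le_sq_mul_sq _ _ _

theorem nsq_star {β : Type} [Fintype β] (x : β → ℂ) : nsq (star x) = nsq x := by
  unfold nsq
  refine Finset.sum_congr rfl fun i _ => ?_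
  rw [Pi.star_apply, norm_star]

theorem nsq_eq {β : Type} [Fintype β] (x : β → ℂ) : star x ⬝ᵥ x = (nsq x : ℂ) := by
  unfold nsq dotProduct
  push_cast
  refine Finset.sum_congr rfl fun i _ => ?_
  rw [Pi.star_apply, Complex.star_def, Complex.conj_mul']

/-- `‖B x‖² = ⟨x, Bᴴ B x⟩` -/
theorem nsq_mulVec {β γ : Type} [Fintype β] [Fintype γ] (B : Matrix β γ ℂ) (x : γ → ℂ) :
    (nsq (B *ᵥ x) : ℂ) = star x ⬝ᵥ ((Bᴴ * B) *ᵥ x) := by
  rw [← nsq_eq, Matrix.star_mulVec, ← Matrix.dotProduct_mulVec, Matrix.mulVec_mulVec]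

theorem nsq_mulVec_le (B : Matrix α α ℂ) (x : α → ℂ) :
    nsq (B *ᵥ x) ≤ (∑ i, ∑ j, ‖B i j‖ ^ 2) * nsq x := by
  rw [Finset.sum_mul]
  unfold nsq
  refine Finset.sum_le_sum fun i _ => ?_
  exact cs (B i) x

theorem trace_sq {B : Matrix α α ℂ} (hB : B.IsHermitian) :
    ((B * B).trace).re = ∑ i, ∑ j, ‖B i j‖ ^ 2 := by
  have h1 : (B * B).trace = ((∑ i, ∑ j, ‖B i j‖ ^ 2 : ℝ) : ℂ) := by
    rw [Matrix.trace]
    push_cast
    refine Finset.sum_congr rfl fun i _ => ?_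
    rw [Matrix.diag_apply, Matrix.mul_apply]
    refine Finset.sum_congr rfl fun j _ => ?_
    rw [← hB.apply j i, Complex.star_def, Complex.mul_conj']
  rw [h1, Complex.ofReal_re]

/-- One step. -/
theorem step {B : Matrix α α ℂ} (hB : B.IsHermitian) (x : α → ℂ) :
    ‖star x ⬝ᵥ (B *ᵥ x)‖ ^ 2 ≤ nsq x * ‖star x ⬝ᵥ ((B * B) *ᵥ x)‖ := by
  have h1 := cs (star x) (B *ᵥ x)
  rw [nsq_star] at h1
  have h2 := nsq_mulVec B x
  rw [hB.eq] at h2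
  rw [← h2, Complex.norm_real, Real.norm_of_nonneg (nsq_nonneg _)]
  exact h1

theorem powers {G : Matrix α α ℂ} (hG : G.IsHermitian) (x : α → ℂ) (r : ℕ) :
    ‖star x ⬝ᵥ (G *ᵥ x)‖ ^ 2 ^ r ≤ nsq x ^ (2 ^ r - 1) * ‖star x ⬝ᵥ ((G ^ 2 ^ r) *ᵥ x)‖ := by
  induction r with
  | zero => simp
  | succ r ih =>
    have h1 := step (hG.pow (2 ^ r)) x
    rw [← pow_add, ← two_mul, ← pow_succ'] at h1
    have hp : 1 ≤ 2 ^ r := Nat.one_le_two_pow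
    calc ‖star x ⬝ᵥ (G *ᵥ x)‖ ^ 2 ^ (r + 1) = (‖star x ⬝ᵥ (G *ᵥ x)‖ ^ 2 ^ r) ^ 2 := by
          rw [← pow_mul, pow_succ]
      _ ≤ (nsq x ^ (2 ^ r - 1) * ‖star x ⬝ᵥ ((G ^ 2 ^ r) *ᵥ x)‖) ^ 2 :=
          pow_le_pow_left₀ (by positivity) ih 2
      _ = (nsq x ^ (2 ^ r - 1)) ^ 2 * ‖star x ⬝ᵥ ((G ^ 2 ^ r) *ᵥ x)‖ ^ 2 := mul_pow _ _ _
      _ ≤ (nsq x ^ (2 ^ r - 1)) ^ 2 * (nsq x * ‖star x ⬝ᵥ ((G ^ 2 ^ (r + 1)) *ᵥ x)‖) :=
          mul_le_mul_of_nonneg_left h1 (by positivity)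
      _ = nsq x ^ (2 ^ (r + 1) - 1) * ‖star x ⬝ᵥ ((G ^ 2 ^ (r + 1)) *ᵥ x)‖ := by
          rw [← mul_assoc, ← pow_mul, ← pow_succ]
          congr 2
          rw [pow_succ 2 r]
          omega

/-- The trace of `G ^ (2 ^ (r + 1))` is real and at least zero. -/
theorem trace_eq {G : Matrix α α ℂ} (hG : G.IsHermitian) (r : ℕ) :
    ((G ^ 2 ^ (r + 1)).trace).re = ∑ i, ∑ j, ‖(G ^ 2 ^ r) i j‖ ^ 2 := by
  rw [pow_succ 2 r, mul_two, pow_add, trace_sq (hG.pow _)]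

theorem trace_nonneg {G : Matrix α α ℂ} (hG : G.IsHermitian) (r : ℕ) : 0 ≤ ((G ^ 2 ^ (r + 1)).trace).re := by
  rw [trace_eq hG]
  positivity

theorem powers_trace {G : Matrix α α ℂ} (hG : G.IsHermitian) (x : α → ℂ) (r : ℕ) :
    ‖star x ⬝ᵥ (G *ᵥ x)‖ ^ 2 ^ (r + 1) ≤ nsq x ^ 2 ^ (r + 1) * ((G ^ 2 ^ (r + 1)).trace).re := by
  have h1 := powers hG x (r + 1)
  have h2 := nsq_mulVec (G ^ 2 ^ r) x
  rw [(hG.pow (2 ^ r)).eq, ← pow_add, ← two_mul, ← pow_succ'] at h2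
  rw [← h2, Complex.norm_real, Real.norm_of_nonneg (nsq_nonneg _)] at h1
  have h3 := nsq_mulVec_le (G ^ 2 ^ r) x
  rw [← trace_eq hG] at h3
  have hp : 1 ≤ 2 ^ (r + 1) := Nat.one_le_two_pow
  calc ‖star x ⬝ᵥ (G *ᵥ x)‖ ^ 2 ^ (r + 1) ≤ nsq x ^ (2 ^ (r + 1) - 1) * nsq ((G ^ 2 ^ r) *ᵥ x) := h1
    _ ≤ nsq x ^ (2 ^ (r + 1) - 1) * (((G ^ 2 ^ (r + 1)).trace).re * nsq x) :=
        mul_le_mul_of_nonneg_left h3 (pow_nonneg (nsq_nonneg _) _)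
    _ = (nsq x ^ (2 ^ (r + 1) - 1) * nsq x) * ((G ^ 2 ^ (r + 1)).trace).re := by ring
    _ = nsq x ^ 2 ^ (r + 1) * ((G ^ 2 ^ (r + 1)).trace).re := by
        rw [← pow_succ, Nat.sub_add_cancel hp]

/-- `(‖A a‖²)^q ≤ (‖a‖²)^q tr (A Aᴴ)^q` -/
theorem main_ineq {β : Type} [Fintype β] (A : Matrix α β ℂ) (a : β → ℂ) (r : ℕ) :
    nsq (A *ᵥ a) ^ 2 ^ (r + 1) ≤ nsq a ^ 2 ^ (r + 1) * (((A * Aᴴ) ^ 2 ^ (r + 1)).trace).re := by
  set x : α → ℂ := A *ᵥ a with hx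
  set G : Matrix α α ℂ := A * Aᴴ with hG
  have hGh : G.IsHermitian := Matrix.isHermitian_mul_conjTranspose_self A
  have h1 := powers_trace hGh x r
  -- `‖x‖⁴ ≤ ‖a‖² ⟨x, G x⟩`
  have h2 : nsq x ^ 2 ≤ nsq a * ‖star x ⬝ᵥ (G *ᵥ x)‖ := by
    have e1 : (nsq x : ℂ) = star (Aᴴ *ᵥ x) ⬝ᵥ a := by
      rw [← nsq_eq]
      conv_rhs => rw [Matrix.star_mulVec, Matrix.conjTranspose_conjTranspose, ← Matrix.dotProduct_mulVec]
    have e2 : ((nsq (Aᴴ *ᵥ x) : ℝ) : ℂ) = star x ⬝ᵥ (G *ᵥ x) := by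
      rw [nsq_mulVec, Matrix.conjTranspose_conjTranspose]
    have h3 := cs (star (Aᴴ *ᵥ x)) a
    rw [← e1, nsq_star, Complex.norm_real, Real.norm_of_nonneg (nsq_nonneg _)] at h3
    rw [← e2, Complex.norm_real, Real.norm_of_nonneg (nsq_nonneg _), mul_comm]
    exact h3
  rcases eq_or_lt_of_le (nsq_nonneg x) with h0 | h0
  · rw [← h0, zero_pow (by positivity)]
    exact mul_nonneg (pow_nonneg (nsq_nonneg _) _) (trace_nonneg hGh r)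
  · have h3 : (nsq x ^ 2) ^ 2 ^ (r + 1) ≤ (nsq a * ‖star x ⬝ᵥ (G *ᵥ x)‖) ^ 2 ^ (r + 1) :=
      pow_le_pow_left₀ (by positivity) h2 _
    rw [mul_pow] at h3
    have h4 : (nsq x ^ 2) ^ 2 ^ (r + 1) = nsq x ^ 2 ^ (r + 1) * nsq x ^ 2 ^ (r + 1) := by
      rw [← pow_mul, ← pow_add]
      congr 1
      ring
    rw [h4] at h3
    have h5 : nsq x ^ 2 ^ (r + 1) * nsq x ^ 2 ^ (r + 1) ≤
        nsq x ^ 2 ^ (r + 1) * (nsq a ^ 2 ^ (r + 1) * ((G ^ 2 ^ (r + 1)).trace).re) := by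
      calc nsq x ^ 2 ^ (r + 1) * nsq x ^ 2 ^ (r + 1)
          ≤ nsq a ^ 2 ^ (r + 1) * ‖star x ⬝ᵥ (G *ᵥ x)‖ ^ 2 ^ (r + 1) := h3
        _ ≤ nsq a ^ 2 ^ (r + 1) * (nsq x ^ 2 ^ (r + 1) * ((G ^ 2 ^ (r + 1)).trace).re) :=
            mul_le_mul_of_nonneg_left h1 (pow_nonneg (nsq_nonneg _) _)
        _ = _ := by ring
    exact le_of_mul_le_mul_left h5 (by positivity)

end Pool.Agent.V7H80.LV
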