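import Pool.Agent.V7H80.LV.Cnt
import Pool.Agent.V7H80.LV.Tr

set_option autoImplicit false

/-!
The expectation of the trace for a random polynomial.
-/

namespace Pool.Agent.V7H80.LV

open Finset Matrix MeasureTheory

/-- The point `g(s) + ∑ θ_i s^(i+1)`. -/
noncomputable def pt {k : ℕ} (g : ℝ → ℝ) (θ : Fin k → ℝ) (x : ℝ) : ℝ :=
  g x + ∑ i, θ i * x ^ ((i : ℕ) + 1)

/-- The matrix `n^(-i t(s))`, `s ∈ S`, `1 ≤ n ≤ N`. -/
noncomputable def Amat (N : ℕ) (S : Finset ℝ) (t : ℝ → ℝ) : Matrix S (Icc 1 N) ℂ :=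
  fun s n => Complex.exp (-((t s * Real.log (n : ℕ) : ℝ) : ℂ) * Complex.I)

theorem G_apply (N : ℕ) (S : Finset ℝ) (t : ℝ → ℝ) (s s' : S) :
    (Amat N S t * (Amat N S t)ᴴ) s s' =
      ∑ n : Icc 1 N, Complex.exp (-(((t s - t s') * Real.log (n : ℕ) : ℝ) : ℂ) * Complex.I) := by
  rw [Matrix.mul_apply]
  refine Finset.sum_congr rfl fun n _ => ?_
  rw [Matrix.conjTranspose_apply]
  unfold Amat
  rw [Complex.star_def, ← Complex.exp_conj, ← Complex.exp_add]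
  congr 1
  simp only [map_mul, map_neg, Complex.conj_ofReal, Complex.conj_I]
  push_cast
  ring

theorem trace_formula (N : ℕ) (S : Finset ℝ) (t : ℝ → ℝ) (m : ℕ) :
    ((Amat N S t * (Amat N S t)ᴴ) ^ (m + 1)).trace =
      ∑ s : Fin (m + 1) → S, ∑ n : Fin (m + 1) → Icc 1 N,
        Complex.exp (-((Lam (fun j => (s j : ℝ)) (fun j => Real.log (n j : ℕ)) t : ℝ) : ℂ) * Complex.I) := by
  rw [trace_walk]
  refine Finset.sum_congr rfl fun s _ => ?_
  simp_rw [G_apply]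
  rw [Finset.prod_univ_sum, Fintype.piFinset_univ]
  refine Finset.sum_congr rfl fun n _ => ?_
  rw [← Complex.exp_sum]
  congr 1
  rw [← Finset.sum_mul, Finset.sum_neg_distrib]
  unfold Lam
  push_cast
  rfl

theorem Lam_pt {k m : ℕ} (g : ℝ → ℝ) (θ : Fin k → ℝ) (s : Fin (m + 1) → ℝ) (L : Fin (m + 1) → ℝ) :
    Lam s L (pt g θ) = Lam s L g + ∑ i : Fin k, θ i * Lam s L (fun x => x ^ ((i : ℕ) + 1)) := by
  unfold Lam pt
  simp_rw [Finset.mul_sum]
  rw [Finset.sum_comm, ← Finset.sum_add_distrib]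
  refine Finset.sum_congr rfl fun j _ => ?_
  have h1 : ∑ i : Fin k, θ i * ((s j ^ ((i : ℕ) + 1) - s (j + 1) ^ ((i : ℕ) + 1)) * L j) =
      (∑ i : Fin k, θ i * s j ^ ((i : ℕ) + 1) - ∑ i : Fin k, θ i * s (j + 1) ^ ((i : ℕ) + 1)) * L j := by
    rw [← Finset.sum_sub_distrib, Finset.sum_mul]
    refine Finset.sum_congr rfl fun i _ => ?_
    ring
  rw [h1]
  ring

theorem gauss_fun {k : ℕ} (c₀ : ℝ) (X : Fin k → ℝ) (θ : Fin k → ℝ) :
    Complex.exp (-(Real.pi : ℂ) * ∑ i, (θ i : ℂ) ^ 2) *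
      Complex.exp (-((c₀ + ∑ i, θ i * X i : ℝ) : ℂ) * Complex.I) =
    Complex.exp (-(c₀ : ℂ) * Complex.I) *
      Complex.exp (-(Real.pi : ℂ) * ∑ i, (θ i : ℂ) ^ 2 + ∑ i, (-(X i : ℂ) * Complex.I) * θ i) := by
  have h1 : ∑ i, (-(X i : ℂ) * Complex.I) * θ i = -(∑ i, (θ i : ℂ) * X i) * Complex.I := by
    rw [neg_mul, Finset.sum_mul, ← Finset.sum_neg_distrib]
    refine Finset.sum_congr rfl fun i _ => ?_
    ring
  rw [← Complex.exp_add, ← Complex.exp_add, h1]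
  congr 1
  push_cast
  ring

theorem gauss_int {k : ℕ} (c₀ : ℝ) (X : Fin k → ℝ) :
    Integrable (fun θ : Fin k → ℝ => Complex.exp (-(Real.pi : ℂ) * ∑ i, (θ i : ℂ) ^ 2) *
      Complex.exp (-((c₀ + ∑ i, θ i * X i : ℝ) : ℂ) * Complex.I)) := by
  have hpi : 0 < ((Real.pi : ℂ)).re := by
    rw [Complex.ofReal_re]
    exact Real.pi_pos
  have h := (GaussianFourier.integrable_cexp_neg_mul_sum_add hpi (fun i => -(X i : ℂ) * Complex.I)).const_mul
    (Complex.exp (-(c₀ : ℂ) * Complex.I))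
  refine h.congr (Filter.Eventually.of_forall fun θ => ?_)
  exact (gauss_fun c₀ X θ).symm

theorem gauss_norm {k : ℕ} (c₀ : ℝ) (X : Fin k → ℝ) :
    ‖∫ θ : Fin k → ℝ, Complex.exp (-(Real.pi : ℂ) * ∑ i, (θ i : ℂ) ^ 2) *
      Complex.exp (-((c₀ + ∑ i, θ i * X i : ℝ) : ℂ) * Complex.I)‖ ≤
      Real.exp (-(∑ i, X i ^ 2) / (4 * Real.pi)) := by
  have hpi : 0 < ((Real.pi : ℂ)).re := by
    rw [Complex.ofReal_re]
    exact Real.pi_pos
  have hpi0 : (Real.pi : ℂ) ≠ 0 := by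
    exact_mod_cast Real.pi_ne_zero
  have h1 := GaussianFourier.integral_cexp_neg_mul_sum_add hpi (fun i => -(X i : ℂ) * Complex.I)
  simp_rw [gauss_fun c₀ X]
  rw [integral_const_mul, h1, div_self hpi0, Complex.one_cpow, one_mul, norm_mul]
  have h2 : ‖Complex.exp (-(c₀ : ℂ) * Complex.I)‖ = 1 := by
    rw [← Complex.ofReal_neg, Complex.norm_exp_ofReal_mul_I]
  have h3 : (∑ i, (-(X i : ℂ) * Complex.I) ^ 2) / (4 * (Real.pi : ℂ)) =
      ((-(∑ i, X i ^ 2) / (4 * Real.pi) : ℝ) : ℂ) := by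
    push_cast
    congr 1
    rw [← Finset.sum_neg_distrib]
    refine Finset.sum_congr rfl fun i _ => ?_
    rw [mul_pow, Complex.I_sq]
    ring
  rw [h2, one_mul, h3, ← Complex.ofReal_exp, Complex.norm_real, Real.norm_of_nonneg (Real.exp_pos _).le]

/-- The weight. -/
noncomputable def wt {k : ℕ} (θ : Fin k → ℝ) : ℝ := Real.exp (-Real.pi * ∑ i, θ i ^ 2)

theorem wt_pos {k : ℕ} (θ : Fin k → ℝ) : 0 < wt θ := Real.exp_pos _

/-- The trace. -/
noncomputable def Tr (k N : ℕ) (S : Finset ℝ) (g : ℝ → ℝ) (q : ℕ) (θ : Fin k → ℝ) : ℝ :=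
  (((Amat N S (pt g θ) * (Amat N S (pt g θ))ᴴ) ^ q).trace).re

/-- The sum which bounds the expectation. -/
noncomputable def Bd (k N : ℕ) (S : Finset ℝ) (m : ℕ) : ℝ :=
  ∑ s : Fin (m + 1) → S, ∑ n : Fin (m + 1) → Icc 1 N,
    Real.exp (-(∑ i : Fin k, Lam (fun j => (s j : ℝ)) (fun j => Real.log (n j : ℕ))
      (fun x => x ^ ((i : ℕ) + 1)) ^ 2) / (4 * Real.pi))

theorem expect (k N : ℕ) (S : Finset ℝ) (g : ℝ → ℝ) (m : ℕ) :
    Integrable (fun θ : Fin k → ℝ => wt θ * Tr k N S g (m + 1) θ) ∧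
      ∫ θ : Fin k → ℝ, wt θ * Tr k N S g (m + 1) θ ≤ Bd k N S m := by
  set f : (Fin (m + 1) → S) → (Fin (m + 1) → Icc 1 N) → (Fin k → ℝ) → ℂ := fun s n θ =>
    Complex.exp (-(Real.pi : ℂ) * ∑ i, (θ i : ℂ) ^ 2) *
      Complex.exp (-((Lam (fun j => (s j : ℝ)) (fun j => Real.log (n j : ℕ)) g +
        ∑ i : Fin k, θ i * Lam (fun j => (s j : ℝ)) (fun j => Real.log (n j : ℕ))
          (fun x => x ^ ((i : ℕ) + 1)) : ℝ) : ℂ) * Complex.I) with hf
  have hint : ∀ s n, Integrable (f s n) := fun s n => gauss_int _ _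
  set F : (Fin k → ℝ) → ℂ := fun θ => ∑ s, ∑ n, f s n θ with hF
  have hFint : Integrable F :=
    integrable_finsetSum _ fun s _ => integrable_finsetSum _ fun n _ => hint s n
  have hFre : ∀ θ, wt θ * Tr k N S g (m + 1) θ = (F θ).re := by
    intro θ
    have h1 : F θ = ((wt θ : ℝ) : ℂ) *
        ((Amat N S (pt g θ) * (Amat N S (pt g θ))ᴴ) ^ (m + 1)).trace := by
      rw [trace_formula, Finset.mul_sum]
      simp only [hF]
      refine Finset.sum_congr rfl fun s _ => ?_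
      rw [Finset.mul_sum]
      refine Finset.sum_congr rfl fun n _ => ?_
      simp only [hf]
      rw [← Lam_pt]
      congr 1
      unfold wt
      push_cast
      rfl
    rw [h1, Complex.re_ofReal_mul]
    rfl
  have h2 : (fun θ : Fin k → ℝ => wt θ * Tr k N S g (m + 1) θ) = fun θ => RCLike.re (F θ) := by
    funext θ
    rw [hFre]
    rfl
  rw [h2]
  refine ⟨hFint.re, ?_⟩
  rw [integral_re hFint]
  refine (RCLike.re_le_norm _).trans ?_
  rw [hF, integral_finsetSum _ fun s _ => integrable_finsetSum _ fun n _ => hint s n]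
  refine (norm_sum_le _ _).trans ?_
  unfold Bd
  refine Finset.sum_le_sum fun s _ => ?_
  rw [integral_finsetSum _ fun n _ => hint s n]
  refine (norm_sum_le _ _).trans ?_
  refine Finset.sum_le_sum fun n _ => ?_
  exact gauss_norm _ _

end Pool.Agent.V7H80.LV
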