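import Pool.Agent.V7H80.LV.Bd
import Pool.Agent.V7H80.LV.Ae

set_option autoImplicit false

/-!
From the traces to the large sieve inequality.
-/

namespace Pool.Agent.V7H80.LV

open Finset Matrix MeasureTheory

/-- `D(it) = ∑_{n ≤ N} a_n n^{-it}` -/
noncomputable def D (a : ℕ → ℂ) (N : ℕ) (t : ℝ) : ℂ :=
  ∑ n ∈ Icc 1 N, a n * (n : ℂ) ^ (-(t : ℂ) * Complex.I)

theorem D_eq (a : ℕ → ℂ) (N : ℕ) (S : Finset ℝ) (t : ℝ → ℝ) (x : S) :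
    D a N (t x) = (Amat N S t *ᵥ (fun n : Icc 1 N => a n)) x := by
  unfold D Matrix.mulVec dotProduct Amat
  rw [← Finset.sum_coe_sort (Icc 1 N) (fun n => a n * (n : ℂ) ^ (-(t x : ℂ) * Complex.I))]
  refine Finset.sum_congr rfl fun n _ => ?_
  have hn : 1 ≤ (n : ℕ) := (Finset.mem_Icc.1 n.2).1
  have hn0 : ((n : ℕ) : ℂ) ≠ 0 := by
    exact_mod_cast (by omega : (n : ℕ) ≠ 0)
  rw [Complex.cpow_def_of_ne_zero hn0, ← Complex.natCast_log, mul_comm]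
  congr 2
  push_cast
  ring

theorem nsq_D (a : ℕ → ℂ) (N : ℕ) (S : Finset ℝ) (t : ℝ → ℝ) :
    nsq (Amat N S t *ᵥ (fun n : Icc 1 N => a n)) = ∑ x ∈ S, ‖D a N (t x)‖ ^ 2 := by
  unfold nsq
  rw [← Finset.sum_coe_sort S (fun x => ‖D a N (t x)‖ ^ 2)]
  refine Finset.sum_congr rfl fun x _ => ?_
  rw [D_eq]

theorem nsq_a (a : ℕ → ℂ) (N : ℕ) : nsq (fun n : Icc 1 N => a n) = ∑ n ∈ Icc 1 N, ‖a n‖ ^ 2 := by
  unfold nsq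
  exact Finset.sum_coe_sort (Icc 1 N) (fun n => ‖a n‖ ^ 2)

/-- The Cauchy-Schwarz inequality. -/
theorem trivial_bound (a : ℕ → ℂ) (N : ℕ) (S : Finset ℝ) (t : ℝ → ℝ) :
    ∑ x ∈ S, ‖D a N (t x)‖ ^ 2 ≤ S.card * (N * ∑ n ∈ Icc 1 N, ‖a n‖ ^ 2) := by
  rw [← nsmul_eq_mul]
  refine Finset.sum_le_card_nsmul _ _ _ fun x hx => ?_
  rw [D_eq a N S t ⟨x, hx⟩]
  have h1 := cs (Amat N S t ⟨x, hx⟩) (fun n : Icc 1 N => a n)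
  rw [nsq_a] at h1
  have h2 : nsq (Amat N S t ⟨x, hx⟩) = N := by
    unfold nsq Amat
    have h3 : ∀ n : Icc 1 N, ‖Complex.exp (-((t x * Real.log (n : ℕ) : ℝ) : ℂ) * Complex.I)‖ ^ 2 = 1 := by
      intro n
      rw [← Complex.ofReal_neg, Complex.norm_exp_ofReal_mul_I, one_pow]
    simp only [h3, Finset.sum_const, nsmul_eq_mul, mul_one]
    simp
  rw [h2] at h1
  exact h1

theorem large_sieve_of_trace (a : ℕ → ℂ) (N : ℕ) (S : Finset ℝ) (t : ℝ → ℝ) (r : ℕ) :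
    (∑ x ∈ S, ‖D a N (t x)‖ ^ 2) ^ 2 ^ (r + 1) ≤
      (∑ n ∈ Icc 1 N, ‖a n‖ ^ 2) ^ 2 ^ (r + 1) *
        (((Amat N S t * (Amat N S t)ᴴ) ^ 2 ^ (r + 1)).trace).re := by
  have h := main_ineq (Amat N S t) (fun n : Icc 1 N => a n) r
  rw [nsq_D, nsq_a] at h
  exact h

theorem tr_nonneg (N : ℕ) (S : Finset ℝ) (t : ℝ → ℝ) (r : ℕ) :
    0 ≤ (((Amat N S t * (Amat N S t)ᴴ) ^ 2 ^ (r + 1)).trace).re :=
  trace_nonneg (Matrix.isHermitian_mul_conjTranspose_self _) r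

/-- The last step. -/
theorem finish {ε A : ℝ} (r : ℕ) (hq : 3 + 2 * A ≤ ε * 2 ^ (r + 1)) {C : ℝ} (hC : 0 ≤ C) {N l : ℕ} (hN : 1 ≤ N)
    (hA : 0 ≤ A) (hl : (l : ℝ) ≤ (N : ℝ) ^ A) (a : ℕ → ℂ) (S : Finset ℝ) (t : ℝ → ℝ)
    (hT : (((Amat N S t * (Amat N S t)ᴴ) ^ 2 ^ (r + 1)).trace).re ≤
      C * ((N : ℝ) ^ 3 * ((l : ℝ) + 1) ^ 2 * ((S.card : ℝ) + N) ^ 2 ^ (r + 1))) :
    ∑ x ∈ S, ‖D a N (t x)‖ ^ 2 ≤
      max 1 (4 * C) * (N : ℝ) ^ ε * (N + S.card) * ∑ n ∈ Icc 1 N, ‖a n‖ ^ 2 := by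
  have hN1 : (1 : ℝ) ≤ N := by exact_mod_cast hN
  have hN0 : (0 : ℝ) < N := by linarith
  set q : ℕ := 2 ^ (r + 1) with hqdef
  have hq1 : 1 ≤ q := Nat.one_le_two_pow
  have hsa : 0 ≤ ∑ n ∈ Icc 1 N, ‖a n‖ ^ 2 := Finset.sum_nonneg fun _ _ => sq_nonneg _
  have hM : (1 : ℝ) ≤ max 1 (4 * C) := le_max_left _ _
  have hNA : (1 : ℝ) ≤ (N : ℝ) ^ A := Real.one_le_rpow hN1 hA
  have h1 : C * ((N : ℝ) ^ 3 * ((l : ℝ) + 1) ^ 2) ≤ (max 1 (4 * C) * (N : ℝ) ^ ε) ^ q := by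
    have h2 : ((l : ℝ) + 1) ^ 2 ≤ 4 * ((N : ℝ) ^ A) ^ 2 := by
      have : (l : ℝ) + 1 ≤ 2 * (N : ℝ) ^ A := by linarith
      calc ((l : ℝ) + 1) ^ 2 ≤ (2 * (N : ℝ) ^ A) ^ 2 := pow_le_pow_left₀ (by positivity) this 2
        _ = 4 * ((N : ℝ) ^ A) ^ 2 := by ring
    have h3 : (N : ℝ) ^ 3 * ((N : ℝ) ^ A) ^ 2 ≤ ((N : ℝ) ^ ε) ^ q := by
      rw [← Real.rpow_natCast (N : ℝ) 3, ← Real.rpow_natCast ((N : ℝ) ^ A) 2, ← Real.rpow_mul hN0.le,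
        ← Real.rpow_add hN0, ← Real.rpow_natCast ((N : ℝ) ^ ε) q, ← Real.rpow_mul hN0.le]
      apply Real.rpow_le_rpow_of_exponent_le hN1
      rw [hqdef]
      push_cast
      linarith
    have h4 : 4 * C ≤ (max 1 (4 * C)) ^ q := by
      calc 4 * C ≤ max 1 (4 * C) := le_max_right _ _
        _ ≤ (max 1 (4 * C)) ^ q := le_self_pow₀ hM (by omega)
    calc C * ((N : ℝ) ^ 3 * ((l : ℝ) + 1) ^ 2) ≤ C * ((N : ℝ) ^ 3 * (4 * ((N : ℝ) ^ A) ^ 2)) := by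
          apply mul_le_mul_of_nonneg_left _ hC
          exact mul_le_mul_of_nonneg_left h2 (by positivity)
      _ = 4 * C * ((N : ℝ) ^ 3 * ((N : ℝ) ^ A) ^ 2) := by ring
      _ ≤ (max 1 (4 * C)) ^ q * ((N : ℝ) ^ ε) ^ q :=
          mul_le_mul h4 h3 (by positivity) (by positivity)
      _ = (max 1 (4 * C) * (N : ℝ) ^ ε) ^ q := by rw [mul_pow]
  have h5 : (∑ x ∈ S, ‖D a N (t x)‖ ^ 2) ^ q ≤
      (max 1 (4 * C) * (N : ℝ) ^ ε * (N + S.card) * ∑ n ∈ Icc 1 N, ‖a n‖ ^ 2) ^ q := by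
    calc (∑ x ∈ S, ‖D a N (t x)‖ ^ 2) ^ q ≤ (∑ n ∈ Icc 1 N, ‖a n‖ ^ 2) ^ q *
          (((Amat N S t * (Amat N S t)ᴴ) ^ q).trace).re := large_sieve_of_trace a N S t r
      _ ≤ (∑ n ∈ Icc 1 N, ‖a n‖ ^ 2) ^ q *
          (C * ((N : ℝ) ^ 3 * ((l : ℝ) + 1) ^ 2 * ((S.card : ℝ) + N) ^ q)) :=
          mul_le_mul_of_nonneg_left hT (by positivity)
      _ = (C * ((N : ℝ) ^ 3 * ((l : ℝ) + 1) ^ 2)) * (((S.card : ℝ) + N) ^ q * (∑ n ∈ Icc 1 N, ‖a n‖ ^ 2) ^ q) := by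
          ring
      _ ≤ (max 1 (4 * C) * (N : ℝ) ^ ε) ^ q * (((S.card : ℝ) + N) ^ q * (∑ n ∈ Icc 1 N, ‖a n‖ ^ 2) ^ q) :=
          mul_le_mul_of_nonneg_right h1 (by positivity)
      _ = (max 1 (4 * C) * (N : ℝ) ^ ε * (N + S.card) * ∑ n ∈ Icc 1 N, ‖a n‖ ^ 2) ^ q := by
          rw [mul_pow, mul_pow, mul_pow, add_comm (S.card : ℝ) N, mul_pow]
          ring
  exact le_of_pow_le_pow_left₀ (by omega) (by positivity) h5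

theorem summ : Summable (fun p : ℕ × ℕ => 1 / (p.1 : ℝ) ^ 2 * (1 / ((p.2 : ℝ) + 1) ^ 2)) := by
  have h1 : Summable (fun n : ℕ => 1 / (n : ℝ) ^ 2) := Real.summable_one_div_nat_pow.2 (by norm_num)
  have h2 : Summable (fun n : ℕ => 1 / ((n : ℝ) + 1) ^ 2) := by
    have := (summable_nat_add_iff (f := fun n : ℕ => 1 / (n : ℝ) ^ 2) 1).2 h1
    simpa using this
  exact h1.mul_of_nonneg h2 (fun n => by positivity) (fun n => by positivity)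

theorem exists_r (x ε : ℝ) (hε : 0 < ε) : ∃ r : ℕ, x ≤ ε * 2 ^ (r + 1) := by
  obtain ⟨n, hn⟩ := exists_nat_gt (x / ε)
  refine ⟨n, ?_⟩
  rw [div_lt_iff₀ hε] at hn
  have h1 : (n : ℝ) < 2 ^ n := by exact_mod_cast Nat.lt_two_pow_self
  have h2 : (2 : ℝ) ^ n ≤ 2 ^ (n + 1) := pow_le_pow_right₀ (by norm_num) (by omega)
  nlinarith

/-- Large values from the large sieve inequality. -/
theorem large_values {N : ℕ} {K : ℝ} (a : ℕ → ℂ) (ha : ∀ n, ‖a n‖ ≤ 1) (S : Finset ℝ) (t : ℝ → ℝ)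
    (hK : 0 ≤ K) (h : ∑ x ∈ S, ‖D a N (t x)‖ ^ 2 ≤ K * ∑ n ∈ Icc 1 N, ‖a n‖ ^ 2) {V : ℝ} (hV : 0 < V)
    (W : Finset ℝ) (hW : W ⊆ S) (hWV : ∀ x ∈ W, V ≤ ‖D a N (t x)‖) :
    (W.card : ℝ) ≤ K * N / V ^ 2 := by
  rw [le_div_iff₀ (by positivity)]
  have h1 : ∑ n ∈ Icc 1 N, ‖a n‖ ^ 2 ≤ N := by
    calc ∑ n ∈ Icc 1 N, ‖a n‖ ^ 2 ≤ ∑ _n ∈ Icc 1 N, (1 : ℝ) := by
          refine Finset.sum_le_sum fun n _ => ?_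
          exact pow_le_one₀ (norm_nonneg _) (ha n)
      _ = N := by simp
  calc (W.card : ℝ) * V ^ 2 = ∑ _x ∈ W, V ^ 2 := by rw [Finset.sum_const, nsmul_eq_mul]
    _ ≤ ∑ x ∈ W, ‖D a N (t x)‖ ^ 2 := Finset.sum_le_sum fun x hx => pow_le_pow_left₀ hV.le (hWV x hx) 2
    _ ≤ ∑ x ∈ S, ‖D a N (t x)‖ ^ 2 := Finset.sum_le_sum_of_subset_of_nonneg hW fun _ _ _ => sq_nonneg _
    _ ≤ K * ∑ n ∈ Icc 1 N, ‖a n‖ ^ 2 := h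
    _ ≤ K * N := mul_le_mul_of_nonneg_left h1 hK

end Pool.Agent.V7H80.LV
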