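import Mathlib

set_option autoImplicit false

/-!
Fractional parts of random polynomials at distinct integers are independent.
-/

namespace Pool.Agent.V7H80.LV

open MeasureTheory

theorem circle_univ : (volume : Measure UnitAddCircle) Set.univ = 1 := by
  have h := AddCircle.measure_univ 1
  rw [ENNReal.ofReal_one] at h
  exact h

instance circleProb : IsProbabilityMeasure (volume : Measure UnitAddCircle) := ⟨circle_univ⟩

theorem pi_univ (ι : Type) [Fintype ι] : (volume : Measure (ι → UnitAddCircle)) Set.univ = 1 := by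
  rw [volume_pi, Measure.pi_univ]
  simp [circle_univ]

/-- the value at `v` -/
noncomputable def ev {k : ℕ} (z : Fin k → UnitAddCircle) (v : ℕ) : UnitAddCircle :=
  ∑ i : Fin k, (v ^ (i : ℕ)) • z i

/-- the values at the points of `W` -/
noncomputable def evH (k : ℕ) (W : Finset ℕ) : (Fin k → UnitAddCircle) →+ (W → UnitAddCircle) where
  toFun z v := ev z (v : ℕ)
  map_zero' := by
    funext v
    simp [ev]
  map_add' z z' := by
    funext v
    simp [ev, smul_add, Finset.sum_add_distrib]

theorem ev_cont {k : ℕ} (v : ℕ) : Continuous (fun z : Fin k → UnitAddCircle => ev z v) := by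
  unfold ev
  exact continuous_finsetSum _ fun i _ => (continuous_nsmul (v ^ (i : ℕ))).comp (continuous_apply i)

theorem evH_cont (k : ℕ) (W : Finset ℕ) : Continuous (evH k W) :=
  continuous_pi fun v => ev_cont (v : ℕ)

theorem coe_sum' {ι : Type} (s : Finset ι) (f : ι → ℝ) :
    ((∑ i ∈ s, f i : ℝ) : UnitAddCircle) = ∑ i ∈ s, (f i : UnitAddCircle) :=
  map_sum (QuotientAddGroup.mk' (AddSubgroup.zmultiples (1 : ℝ))) f s

theorem ev_coe {k : ℕ} (θ : Fin k → ℝ) (v : ℕ) :
    ev (fun i => (θ i : UnitAddCircle)) v = ((∑ i : Fin k, θ i * (v : ℝ) ^ (i : ℕ) : ℝ) : UnitAddCircle) := by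
  unfold ev
  rw [coe_sum']
  refine Finset.sum_congr rfl fun i _ => ?_
  rw [← AddCircle.coe_nsmul]
  congr 1
  rw [nsmul_eq_mul, mul_comm]
  push_cast
  rfl

theorem evH_surj {k : ℕ} (hk : 0 < k) (W : Finset ℕ) (hW : W.card ≤ k) : Function.Surjective (evH k W) := by
  classical
  intro u
  have h1 : ∀ v : W, ∃ r : ℝ, (r : UnitAddCircle) = u v := fun v => QuotientAddGroup.mk_surjective (u v)
  choose r hr using h1
  set P : Polynomial ℝ := Lagrange.interpolate (Finset.univ : Finset W) (fun w => ((w : ℕ) : ℝ)) r with hP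
  have hinj : Set.InjOn (fun w : W => ((w : ℕ) : ℝ)) (Finset.univ : Finset W) := by
    intro a _ b _ h
    exact Subtype.ext (Nat.cast_injective h)
  have hdeg : P.natDegree < k := by
    have h2 := Lagrange.degree_interpolate_lt r hinj
    rw [← hP] at h2
    by_cases h0 : P = 0
    · rw [h0, Polynomial.natDegree_zero]
      exact hk
    · rw [Polynomial.degree_eq_natDegree h0] at h2
      have h3 : P.natDegree < (Finset.univ : Finset W).card := by exact_mod_cast h2
      rw [Finset.card_univ, Fintype.card_coe] at h3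
      omega
  refine ⟨fun i => ((P.coeff i : ℝ) : UnitAddCircle), ?_⟩
  funext v
  have h3 : evH k W (fun i => ((P.coeff i : ℝ) : UnitAddCircle)) v =
      ev (fun i : Fin k => ((P.coeff i : ℝ) : UnitAddCircle)) (v : ℕ) := rfl
  rw [h3, ev_coe, ← hr v]
  congr 1
  rw [← Finset.sum_range (fun i => P.coeff i * ((v : ℕ) : ℝ) ^ i), ← Polynomial.eval_eq_sum_range' hdeg]
  exact Lagrange.eval_interpolate_at_node r hinj (Finset.mem_univ v)

theorem evH_mp {k : ℕ} (hk : 0 < k) (W : Finset ℕ) (hW : W.card ≤ k) :
    MeasurePreserving (evH k W) (volume : Measure (Fin k → UnitAddCircle)) (volume : Measure (W → UnitAddCircle)) :=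
  AddMonoidHom.measurePreserving (evH_cont k W) (evH_surj hk W hW) (by rw [pi_univ, pi_univ])

/-- Independence. -/
theorem indep {k : ℕ} (hk : 0 < k) (W : Finset ℕ) (hW : W.card ≤ k) (φ : ℕ → UnitAddCircle → ℂ)
    (hφ : ∀ v, Measurable (φ v)) :
    ∫ z : Fin k → UnitAddCircle, ∏ v ∈ W, φ v (ev z v) = ∏ v ∈ W, ∫ u, φ v u := by
  have h1 : ∀ z : Fin k → UnitAddCircle, ∏ v ∈ W, φ v (ev z v) = ∏ v : W, φ v (evH k W z v) := by
    intro z
    rw [← Finset.prod_coe_sort W (fun v => φ v (ev z v))]
    rfl
  simp_rw [h1]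
  have hm : Measurable (fun u : W → UnitAddCircle => ∏ v : W, φ v (u v)) :=
    Finset.measurable_prod _ fun v _ => (hφ v).comp (measurable_pi_apply v)
  have h2 : ∫ z : Fin k → UnitAddCircle, ∏ v : W, φ v (evH k W z v) =
      ∫ u : W → UnitAddCircle, ∏ v : W, φ v (u v) := by
    rw [← (evH_mp hk W hW).map_eq, integral_map (evH_mp hk W hW).measurable.aemeasurable]
    rw [(evH_mp hk W hW).map_eq]
    exact hm.aestronglyMeasurable
  rw [h2, integral_fintype_prod_volume_eq_prod (fun (v : W) (u : UnitAddCircle) => φ v u),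
    Finset.prod_coe_sort W (fun v => ∫ u, φ v u)]

/-- the representative in `[0, 1)` -/
noncomputable def frac (u : UnitAddCircle) : ℝ := (AddCircle.equivIco 1 0 u : ℝ)

theorem frac_meas : Measurable frac :=
  measurable_subtype_coe.comp (AddCircle.measurableEquivIco 1 0).measurable

theorem frac_coe (x : ℝ) : frac (x : UnitAddCircle) = Int.fract x := by
  have h := AddCircle.coe_equivIco_mk_apply (p := (1 : ℝ)) x
  rw [div_one, mul_one] at h
  exact h

/-- The mean of `e(-(g + T {u}) y)`. -/
theorem mean_bound (g T y : ℝ) :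
    ‖∫ u : UnitAddCircle, Complex.exp (-(((g + T * frac u) * y : ℝ) : ℂ) * Complex.I)‖ ≤
      min 1 (3 / (1 + |T * y|)) := by
  apply le_min
  · have h1 : ‖∫ u : UnitAddCircle, Complex.exp (-(((g + T * frac u) * y : ℝ) : ℂ) * Complex.I)‖ ≤
        1 * (volume : Measure UnitAddCircle).real Set.univ := by
      apply norm_integral_le_of_norm_le_const
      filter_upwards with u
      rw [← Complex.ofReal_neg, Complex.norm_exp_ofReal_mul_I]
    simpa [Measure.real, circle_univ] using h1
  · rcases le_or_gt |T * y| 2 with hs | hs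
    · have h1 : ‖∫ u : UnitAddCircle, Complex.exp (-(((g + T * frac u) * y : ℝ) : ℂ) * Complex.I)‖ ≤
          1 * (volume : Measure UnitAddCircle).real Set.univ := by
        apply norm_integral_le_of_norm_le_const
        filter_upwards with u
        rw [← Complex.ofReal_neg, Complex.norm_exp_ofReal_mul_I]
      have h2 : 1 * (volume : Measure UnitAddCircle).real Set.univ = 1 := by
        simp [Measure.real, circle_univ]
      rw [h2] at h1
      refine h1.trans ?_
      rw [le_div_iff₀ (by positivity)]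
      linarith
    · have hc : -((T * y : ℝ) : ℂ) * Complex.I ≠ 0 := by
        have : T * y ≠ 0 := by
          intro h
          rw [h, abs_zero] at hs
          linarith
        exact mul_ne_zero (neg_ne_zero.2 (by exact_mod_cast this)) Complex.I_ne_zero
      have h1 : ∫ u : UnitAddCircle, Complex.exp (-(((g + T * frac u) * y : ℝ) : ℂ) * Complex.I) =
          ∫ x in (0 : ℝ)..1, Complex.exp (-((g * y : ℝ) : ℂ) * Complex.I) *
            Complex.exp ((-((T * y : ℝ) : ℂ) * Complex.I) * x) := by
        rw [← AddCircle.integral_preimage 1 0, intervalIntegral.integral_of_le zero_le_one,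
          integral_Ioc_eq_integral_Ioo, integral_Ioc_eq_integral_Ioo, zero_add]
        apply setIntegral_congr_fun measurableSet_Ioo
        intro x hx
        simp only
        rw [frac_coe, Int.fract_eq_self.2 ⟨hx.1.le, hx.2⟩, ← Complex.exp_add]
        congr 1
        push_cast
        ring
      rw [h1, intervalIntegral.integral_const_mul, integral_exp_mul_complex hc, norm_mul, norm_div]
      have h2 : ‖Complex.exp (-((g * y : ℝ) : ℂ) * Complex.I)‖ = 1 := by
        rw [← Complex.ofReal_neg, Complex.norm_exp_ofReal_mul_I]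
      have h3 : ‖-((T * y : ℝ) : ℂ) * Complex.I‖ = |T * y| := by
        rw [norm_mul, Complex.norm_I, mul_one, norm_neg, Complex.norm_real, Real.norm_eq_abs]
      have h4 : ‖Complex.exp (-((T * y : ℝ) : ℂ) * Complex.I * ((1 : ℝ) : ℂ)) -
          Complex.exp (-((T * y : ℝ) : ℂ) * Complex.I * ((0 : ℝ) : ℂ))‖ ≤ 2 := by
        refine (norm_sub_le _ _).trans ?_
        have e1 : ‖Complex.exp (-((T * y : ℝ) : ℂ) * Complex.I * ((1 : ℝ) : ℂ))‖ = 1 := by
          rw [Complex.ofReal_one, mul_one, ← Complex.ofReal_neg, Complex.norm_exp_ofReal_mul_I]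
        have e2 : ‖Complex.exp (-((T * y : ℝ) : ℂ) * Complex.I * ((0 : ℝ) : ℂ))‖ = 1 := by
          rw [Complex.ofReal_zero, mul_zero, Complex.exp_zero, norm_one]
        rw [e1, e2]
        norm_num
      rw [h2, h3, one_mul]
      have hs0 : 0 < |T * y| := by linarith
      refine (div_le_div_of_nonneg_right h4 hs0.le).trans ?_
      rw [div_le_div_iff₀ hs0 (by positivity)]
      linarith

/-- From the circles to the real numbers. -/
theorem ae_lift {k : ℕ} {P : (Fin k → UnitAddCircle) → Prop} (h : ∀ᵐ z, P z) :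
    ∀ᵐ θ : Fin k → ℝ, P (fun i => (θ i : UnitAddCircle)) := by
  have hbox : ∀ a : Fin k → ℤ, ∀ᵐ θ ∂((volume : Measure (Fin k → ℝ)).restrict
      (Set.univ.pi fun i => Set.Ioc (a i : ℝ) (a i + 1))), P (fun i => (θ i : UnitAddCircle)) := by
    intro a
    have hmp : MeasurePreserving (fun (θ : Fin k → ℝ) (i : Fin k) => (θ i : UnitAddCircle))
        (Measure.pi fun i => (volume : Measure ℝ).restrict (Set.Ioc (a i : ℝ) (a i + 1)))
        (Measure.pi fun _ : Fin k => (volume : Measure UnitAddCircle)) :=
      measurePreserving_pi _ _ fun i => AddCircle.measurePreserving_mk 1 (a i : ℝ)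
    rw [volume_pi, Measure.restrict_pi_pi]
    exact hmp.quasiMeasurePreserving.ae h
  have hun : (⋃ a : Fin k → ℤ, Set.univ.pi fun i => Set.Ioc (a i : ℝ) (a i + 1)) = Set.univ := by
    rw [Set.eq_univ_iff_forall]
    intro θ
    rw [Set.mem_iUnion]
    refine ⟨fun i => ⌈θ i⌉ - 1, ?_⟩
    intro i _
    refine ⟨?_, ?_⟩
    · push_cast
      linarith [Int.ceil_lt_add_one (θ i)]
    · push_cast
      linarith [Int.le_ceil (θ i)]
  have h2 := (ae_restrict_iUnion_iff (μ := (volume : Measure (Fin k → ℝ)))
    (fun a : Fin k → ℤ => Set.univ.pi fun i => Set.Ioc (a i : ℝ) (a i + 1))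
    (fun θ => P (fun i => (θ i : UnitAddCircle)))).2 hbox
  rw [hun, Measure.restrict_univ] at h2
  exact h2

end Pool.Agent.V7H80.LV
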