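import Pool.Agent.V7H80.LV.Tri
import Pool.Agent.V7H80.LV.Tor
import Pool.Agent.V7H80.LV.Ls

set_option autoImplicit false

/-!
The large sieve inequality at `g(x) + T(x) {f(x)}` for almost all polynomials `f`.
-/

namespace Pool.Agent.V7H80.LV

open Finset Matrix MeasureTheory

/-! ### The sum along the logarithms -/

theorem sum_le_harm (N : ℕ) (s : Finset ℕ) (φ : ℕ → ℕ) (hφ : ∀ n ∈ s, φ n < N)
    (hinj : ∀ a ∈ s, ∀ b ∈ s, φ a = φ b → a = b) :
    ∑ n ∈ s, 1 / (1 + (φ n : ℝ)) ≤ 1 + Real.log N := by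
  have h1 : ∑ n ∈ s, 1 / (1 + (φ n : ℝ)) = ∑ j ∈ s.image φ, 1 / (1 + (j : ℝ)) := by
    rw [Finset.sum_image hinj]
  have h2 : ∑ j ∈ s.image φ, 1 / (1 + (j : ℝ)) ≤ ∑ j ∈ range N, 1 / (1 + (j : ℝ)) := by
    apply Finset.sum_le_sum_of_subset_of_nonneg
    · intro j hj
      rw [Finset.mem_image] at hj
      obtain ⟨n, hn, rfl⟩ := hj
      exact Finset.mem_range.2 (hφ n hn)
    · intro j _ _
      positivity
  have h3 : ∑ j ∈ range N, 1 / (1 + (j : ℝ)) = (harmonic N : ℝ) := by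
    unfold harmonic
    push_cast
    refine Finset.sum_congr rfl fun j _ => ?_
    rw [one_div, add_comm]
  rw [h1]
  refine h2.trans ?_
  rw [h3]
  exact harmonic_le_one_add_log N

theorem log_dist {N n : ℕ} (hn : 1 ≤ n) (hnN : n ≤ N) {α : ℝ} (hα : 0 < α) :
    |(n : ℝ) - min α N| ≤ N * |Real.log n - Real.log α| := by
  have hn0 : (0 : ℝ) < n := by exact_mod_cast hn
  have hnN' : (n : ℝ) ≤ N := by exact_mod_cast hnN
  have hN0 : (0 : ℝ) < N := by linarith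
  rcases le_or_gt (n : ℝ) (min α N) with h | h
  · have hαn : (n : ℝ) ≤ α := h.trans (min_le_left _ _)
    have hm0 : 0 < min α (N : ℝ) := lt_min hα hN0
    have h1 : Real.log (min α N) ≤ Real.log α := Real.log_le_log hm0 (min_le_left _ _)
    have h2 := Real.one_sub_inv_le_log_of_pos (div_pos hm0 hn0)
    rw [Real.log_div hm0.ne' hn0.ne', inv_div] at h2
    rw [abs_sub_comm, abs_of_nonneg (sub_nonneg.2 h), abs_sub_comm,
      abs_of_nonneg (sub_nonneg.2 (Real.log_le_log hn0 hαn))]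
    have h3 : min α (N : ℝ) * (1 - n / min α N) = min α N - n := by
      field_simp
    have h4 : 0 ≤ 1 - n / min α (N : ℝ) := by
      rw [sub_nonneg, div_le_one hm0]
      exact h
    calc min α (N : ℝ) - n = min α (N : ℝ) * (1 - n / min α N) := h3.symm
      _ ≤ N * (1 - n / min α N) := mul_le_mul_of_nonneg_right (min_le_right _ _) h4
      _ ≤ N * (Real.log α - Real.log n) := by
          apply mul_le_mul_of_nonneg_left _ hN0.le
          linarith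
  · have hlt : min α (N : ℝ) < N := lt_of_lt_of_le h hnN'
    have hmα : min α (N : ℝ) = α := by
      rcases min_choice α (N : ℝ) with h5 | h5
      · exact h5
      · rw [h5] at hlt
        exact absurd hlt (lt_irrefl _)
    rw [hmα] at h ⊢
    have h2 := Real.one_sub_inv_le_log_of_pos (div_pos hn0 hα)
    rw [Real.log_div hn0.ne' hα.ne', inv_div] at h2
    rw [abs_of_nonneg (sub_nonneg.2 h.le), abs_of_nonneg (sub_nonneg.2 (Real.log_le_log hα h.le))]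
    have h3 : (n : ℝ) * (1 - α / n) = n - α := by
      field_simp
    have h4 : 0 ≤ 1 - α / n := by
      rw [sub_nonneg, div_le_one hn0]
      exact h.le
    calc (n : ℝ) - α = (n : ℝ) * (1 - α / n) := h3.symm
      _ ≤ N * (1 - α / n) := mul_le_mul_of_nonneg_right hnN' h4
      _ ≤ N * (Real.log n - Real.log α) := mul_le_mul_of_nonneg_left h2 hN0.le

theorem kap_sum (N : ℕ) (T H c : ℝ) (hH : 0 < H) (hT : H ≤ T) :
    ∑ n : Icc 1 N, min 1 (3 / (1 + |T * (Real.log (n : ℕ) + c)|)) ≤ 6 * (1 + Real.log N) * (1 + N / H) := by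
  have hN0 : (0 : ℝ) ≤ N := Nat.cast_nonneg _
  set α : ℝ := Real.exp (-c) with hα
  have hα0 : 0 < α := Real.exp_pos _
  have hlog : Real.log α = -c := Real.log_exp _
  set β : ℝ := min α N with hβ
  have hβ0 : 0 ≤ β := le_min hα0.le hN0
  set a : ℕ := ⌊β⌋₊ with ha
  have haβ : (a : ℝ) ≤ β := Nat.floor_le hβ0
  have haβ' : β < a + 1 := Nat.lt_floor_add_one β
  have haN : a ≤ N := by
    have h1 : (a : ℝ) ≤ N := haβ.trans (min_le_right _ _)
    exact_mod_cast h1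
  rw [Finset.sum_coe_sort (Icc 1 N) (fun n => min 1 (3 / (1 + |T * (Real.log (n : ℕ) + c)|)))]
  have h1 : ∀ n ∈ Icc 1 N, min 1 (3 / (1 + |T * (Real.log (n : ℕ) + c)|)) ≤
      (3 * (1 + N / H)) * (1 / (1 + |(n : ℝ) - β|)) := by
    intro n hn
    rw [Finset.mem_Icc] at hn
    refine (min_le_right _ _).trans ?_
    have hn0 : (0 : ℝ) < N := by
      have : 1 ≤ N := hn.1.trans hn.2
      exact_mod_cast this
    have h2 := log_dist hn.1 hn.2 hα0
    rw [hlog, sub_neg_eq_add] at h2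
    have h3 : H * |Real.log n + c| ≤ |T * (Real.log n + c)| := by
      rw [abs_mul, abs_of_nonneg (hH.le.trans hT)]
      exact mul_le_mul_of_nonneg_right hT (abs_nonneg _)
    have h4 : |(n : ℝ) - β| ≤ N / H * |T * (Real.log n + c)| := by
      calc |(n : ℝ) - β| ≤ N * |Real.log n + c| := h2
        _ = N / H * (H * |Real.log n + c|) := by
            field_simp
        _ ≤ N / H * |T * (Real.log n + c)| := mul_le_mul_of_nonneg_left h3 (by positivity)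
    rw [mul_one_div, div_le_div_iff₀ (by positivity) (by positivity)]
    have h5 : 0 ≤ N / H := by positivity
    have h6 : 0 ≤ |T * (Real.log n + c)| := abs_nonneg _
    nlinarith
  refine (Finset.sum_le_sum h1).trans ?_
  rw [← Finset.mul_sum, ← Finset.sum_filter_add_sum_filter_not (Icc 1 N) (fun n => n ≤ a)]
  have h2 : ∑ n ∈ (Icc 1 N).filter (fun n => n ≤ a), 1 / (1 + |(n : ℝ) - β|) ≤ 1 + Real.log N := by
    refine le_trans (Finset.sum_le_sum fun n hn => ?_)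
      (sum_le_harm N ((Icc 1 N).filter (fun n => n ≤ a)) (fun n => a - n) ?_ ?_)
    · rw [Finset.mem_filter, Finset.mem_Icc] at hn
      have h3 : (n : ℝ) ≤ a := by exact_mod_cast hn.2
      apply one_div_le_one_div_of_le (by positivity)
      rw [Nat.cast_sub hn.2, abs_of_nonpos (by linarith)]
      linarith
    · intro n hn
      rw [Finset.mem_filter, Finset.mem_Icc] at hn
      omega
    · intro x hx y hy hxy
      rw [Finset.mem_filter, Finset.mem_Icc] at hx hy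
      omega
  have h3 : ∑ n ∈ (Icc 1 N).filter (fun n => ¬ n ≤ a), 1 / (1 + |(n : ℝ) - β|) ≤ 1 + Real.log N := by
    refine le_trans (Finset.sum_le_sum fun n hn => ?_)
      (sum_le_harm N ((Icc 1 N).filter (fun n => ¬ n ≤ a)) (fun n => n - (a + 1)) ?_ ?_)
    · rw [Finset.mem_filter, Finset.mem_Icc] at hn
      have h5 : a + 1 ≤ n := by omega
      have h4 : (a : ℝ) + 1 ≤ n := by exact_mod_cast h5
      apply one_div_le_one_div_of_le (by positivity)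
      rw [Nat.cast_sub h5, abs_of_nonneg (by linarith)]
      push_cast
      linarith
    · intro n hn
      rw [Finset.mem_filter, Finset.mem_Icc] at hn
      omega
    · intro x hx y hy hxy
      rw [Finset.mem_filter, Finset.mem_Icc] at hx hy
      omega
  calc (3 * (1 + N / H)) * (∑ n ∈ (Icc 1 N).filter (fun n => n ≤ a), 1 / (1 + |(n : ℝ) - β|) +
        ∑ n ∈ (Icc 1 N).filter (fun n => ¬ n ≤ a), 1 / (1 + |(n : ℝ) - β|)) ≤
      (3 * (1 + N / H)) * ((1 + Real.log N) + (1 + Real.log N)) := by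
        apply mul_le_mul_of_nonneg_left (add_le_add h2 h3) (by positivity)
    _ = 6 * (1 + Real.log N) * (1 + N / H) := by ring

/-! ### Matrices with a general index set -/

/-- The matrix `n^(-i t(x))`, `x ∈ ι`, `1 ≤ n ≤ N`. -/
noncomputable def AmatG {ι : Type} (N : ℕ) (t : ι → ℝ) : Matrix ι (Icc 1 N) ℂ :=
  fun s n => Complex.exp (-((t s * Real.log (n : ℕ) : ℝ) : ℂ) * Complex.I)

theorem D_eqG {ι : Type} (a : ℕ → ℂ) (N : ℕ) (t : ι → ℝ) (x : ι) :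
    D a N (t x) = (AmatG N t *ᵥ (fun n : Icc 1 N => a n)) x := by
  unfold D Matrix.mulVec dotProduct AmatG
  rw [← Finset.sum_coe_sort (Icc 1 N) (fun n => a n * (n : ℂ) ^ (-(t x : ℂ) * Complex.I))]
  refine Finset.sum_congr rfl fun n _ => ?_
  have hn : 1 ≤ (n : ℕ) := (Finset.mem_Icc.1 n.2).1
  have hn0 : ((n : ℕ) : ℂ) ≠ 0 := by
    exact_mod_cast (by omega : (n : ℕ) ≠ 0)
  rw [Complex.cpow_def_of_ne_zero hn0, ← Complex.natCast_log, mul_comm]
  congr 2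
  push_cast
  ring

variable {ι : Type} [Fintype ι] [DecidableEq ι]

theorem G_applyG (N : ℕ) (t : ι → ℝ) (s s' : ι) :
    (AmatG N t * (AmatG N t)ᴴ) s s' =
      ∑ n : Icc 1 N, Complex.exp (-(((t s - t s') * Real.log (n : ℕ) : ℝ) : ℂ) * Complex.I) := by
  rw [Matrix.mul_apply]
  refine Finset.sum_congr rfl fun n _ => ?_
  rw [Matrix.conjTranspose_apply]
  unfold AmatG
  rw [Complex.star_def, ← Complex.exp_conj, ← Complex.exp_add]
  congr 1
  simp only [map_mul, map_neg, Complex.conj_ofReal, Complex.conj_I]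
  push_cast
  ring

theorem trace_formulaG (N : ℕ) (t : ι → ℝ) (m : ℕ) :
    ((AmatG N t * (AmatG N t)ᴴ) ^ (m + 1)).trace =
      ∑ s : Fin (m + 1) → ι, ∑ n : Fin (m + 1) → Icc 1 N,
        Complex.exp (-((∑ j, (t (s j) - t (s (j + 1))) * Real.log (n j : ℕ) : ℝ) : ℂ) * Complex.I) := by
  rw [trace_walk]
  refine Finset.sum_congr rfl fun s _ => ?_
  simp_rw [G_applyG]
  rw [Finset.prod_univ_sum, Fintype.piFinset_univ]
  refine Finset.sum_congr rfl fun n _ => ?_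
  rw [← Complex.exp_sum]
  congr 1
  rw [← Finset.sum_mul, Finset.sum_neg_distrib]
  push_cast
  rfl

/-- The last step, general index set. -/
theorem finishG {ε A : ℝ} (r : ℕ) (hq : 4 + 2 * A ≤ ε * 2 ^ (r + 1)) {C B : ℝ} (hC : 0 ≤ C) (hB : 0 ≤ B)
    {N l : ℕ} (hN : 1 ≤ N) (hA : 0 ≤ A) (hl : (l : ℝ) ≤ (N : ℝ) ^ A) (a : ℕ → ℂ) (t : ι → ℝ)
    (hT : (((AmatG N t * (AmatG N t)ᴴ) ^ 2 ^ (r + 1)).trace).re ≤
      C * ((N : ℝ) ^ 4 * ((l : ℝ) + 1) ^ 2 * B ^ 2 ^ (r + 1))) :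
    ∑ x : ι, ‖D a N (t x)‖ ^ 2 ≤ max 1 (4 * C) * (N : ℝ) ^ ε * B * ∑ n ∈ Icc 1 N, ‖a n‖ ^ 2 := by
  have hN1 : (1 : ℝ) ≤ N := by exact_mod_cast hN
  have hN0 : (0 : ℝ) < N := by linarith
  set q : ℕ := 2 ^ (r + 1) with hqdef
  have hq1 : 1 ≤ q := Nat.one_le_two_pow
  have hsa : 0 ≤ ∑ n ∈ Icc 1 N, ‖a n‖ ^ 2 := Finset.sum_nonneg fun _ _ => sq_nonneg _
  have hM : (1 : ℝ) ≤ max 1 (4 * C) := le_max_left _ _
  have hNA : (1 : ℝ) ≤ (N : ℝ) ^ A := Real.one_le_rpow hN1 hA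
  have hls : (∑ x : ι, ‖D a N (t x)‖ ^ 2) ^ q ≤ (∑ n ∈ Icc 1 N, ‖a n‖ ^ 2) ^ q *
      (((AmatG N t * (AmatG N t)ᴴ) ^ q).trace).re := by
    have h := main_ineq (AmatG N t) (fun n : Icc 1 N => a n) r
    rw [nsq_a] at h
    have h2 : nsq (AmatG N t *ᵥ (fun n : Icc 1 N => a n)) = ∑ x : ι, ‖D a N (t x)‖ ^ 2 := by
      unfold nsq
      refine Finset.sum_congr rfl fun x _ => ?_
      rw [D_eqG]
    rw [h2] at h
    exact h
  have h1 : C * ((N : ℝ) ^ 4 * ((l : ℝ) + 1) ^ 2) ≤ (max 1 (4 * C) * (N : ℝ) ^ ε) ^ q := by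
    have h2 : ((l : ℝ) + 1) ^ 2 ≤ 4 * ((N : ℝ) ^ A) ^ 2 := by
      have : (l : ℝ) + 1 ≤ 2 * (N : ℝ) ^ A := by linarith
      calc ((l : ℝ) + 1) ^ 2 ≤ (2 * (N : ℝ) ^ A) ^ 2 := pow_le_pow_left₀ (by positivity) this 2
        _ = 4 * ((N : ℝ) ^ A) ^ 2 := by ring
    have h3 : (N : ℝ) ^ 4 * ((N : ℝ) ^ A) ^ 2 ≤ ((N : ℝ) ^ ε) ^ q := by
      rw [← Real.rpow_natCast (N : ℝ) 4, ← Real.rpow_natCast ((N : ℝ) ^ A) 2, ← Real.rpow_mul hN0.le,
        ← Real.rpow_add hN0, ← Real.rpow_natCast ((N : ℝ) ^ ε) q, ← Real.rpow_mul hN0.le]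
      apply Real.rpow_le_rpow_of_exponent_le hN1
      rw [hqdef]
      push_cast
      linarith
    have h4 : 4 * C ≤ (max 1 (4 * C)) ^ q := by
      calc 4 * C ≤ max 1 (4 * C) := le_max_right _ _
        _ ≤ (max 1 (4 * C)) ^ q := le_self_pow₀ hM (by omega)
    calc C * ((N : ℝ) ^ 4 * ((l : ℝ) + 1) ^ 2) ≤ C * ((N : ℝ) ^ 4 * (4 * ((N : ℝ) ^ A) ^ 2)) := by
          apply mul_le_mul_of_nonneg_left _ hC
          exact mul_le_mul_of_nonneg_left h2 (by positivity)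
      _ = 4 * C * ((N : ℝ) ^ 4 * ((N : ℝ) ^ A) ^ 2) := by ring
      _ ≤ (max 1 (4 * C)) ^ q * ((N : ℝ) ^ ε) ^ q :=
          mul_le_mul h4 h3 (by positivity) (by positivity)
      _ = (max 1 (4 * C) * (N : ℝ) ^ ε) ^ q := by rw [mul_pow]
  have h5 : (∑ x : ι, ‖D a N (t x)‖ ^ 2) ^ q ≤
      (max 1 (4 * C) * (N : ℝ) ^ ε * B * ∑ n ∈ Icc 1 N, ‖a n‖ ^ 2) ^ q := by
    calc (∑ x : ι, ‖D a N (t x)‖ ^ 2) ^ q ≤ (∑ n ∈ Icc 1 N, ‖a n‖ ^ 2) ^ q *
          (((AmatG N t * (AmatG N t)ᴴ) ^ q).trace).re := hls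
      _ ≤ (∑ n ∈ Icc 1 N, ‖a n‖ ^ 2) ^ q * (C * ((N : ℝ) ^ 4 * ((l : ℝ) + 1) ^ 2 * B ^ q)) :=
          mul_le_mul_of_nonneg_left hT (by positivity)
      _ = (C * ((N : ℝ) ^ 4 * ((l : ℝ) + 1) ^ 2)) * (B ^ q * (∑ n ∈ Icc 1 N, ‖a n‖ ^ 2) ^ q) := by
          ring
      _ ≤ (max 1 (4 * C) * (N : ℝ) ^ ε) ^ q * (B ^ q * (∑ n ∈ Icc 1 N, ‖a n‖ ^ 2) ^ q) :=
          mul_le_mul_of_nonneg_right h1 (by positivity)
      _ = (max 1 (4 * C) * (N : ℝ) ^ ε * B * ∑ n ∈ Icc 1 N, ‖a n‖ ^ 2) ^ q := by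
          rw [mul_pow, mul_pow, mul_pow]
          ring
  exact le_of_pow_le_pow_left₀ (by omega) (by positivity) h5

/-- The Cauchy-Schwarz inequality. -/
theorem trivial_boundG (a : ℕ → ℂ) (N : ℕ) (t : ι → ℝ) :
    ∑ x : ι, ‖D a N (t x)‖ ^ 2 ≤ Fintype.card ι * (N * ∑ n ∈ Icc 1 N, ‖a n‖ ^ 2) := by
  rw [← nsmul_eq_mul]
  refine Finset.sum_le_card_nsmul _ _ _ fun x _ => ?_
  rw [D_eqG a N t x]
  have h1 := cs (AmatG N t x) (fun n : Icc 1 N => a n)
  rw [nsq_a] at h1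
  have h2 : nsq (AmatG N t x) = N := by
    unfold nsq AmatG
    have h3 : ∀ n : Icc 1 N, ‖Complex.exp (-((t x * Real.log (n : ℕ) : ℝ) : ℂ) * Complex.I)‖ ^ 2 = 1 := by
      intro n
      rw [← Complex.ofReal_neg, Complex.norm_exp_ofReal_mul_I, one_pow]
    simp only [h3, Finset.sum_const, nsmul_eq_mul, mul_one]
    simp
  rw [h2] at h1
  exact h1

end Pool.Agent.V7H80.LV
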