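import Pool.Agent.V7H80.LV.Frac

set_option autoImplicit false

/-!
The expectation of the trace for `g(x) + T(x) {f(x)}`, and the large sieve inequality.
-/

namespace Pool.Agent.V7H80.LV

open Finset Matrix MeasureTheory

instance piProb (k : ℕ) : IsProbabilityMeasure (volume : Measure (Fin k → UnitAddCircle)) := ⟨pi_univ _⟩

/-- The point. -/
noncomputable def tau {k : ℕ} (g T : ℕ → ℝ) (z : Fin k → UnitAddCircle) (v : ℕ) : ℝ :=
  g v + T v * frac (ev z v)

theorem tau_meas {k : ℕ} (g T : ℕ → ℝ) (v : ℕ) :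
    Measurable (fun z : Fin k → UnitAddCircle => tau g T z v) := by
  unfold tau
  exact ((frac_meas.comp (ev_cont v).measurable).const_mul _).const_add _

theorem regroup {m : ℕ} (s : Fin (m + 1) → ℕ) (τ : ℕ → ℝ) (L : Fin (m + 1) → ℝ) :
    ∑ j, (τ (s j) - τ (s (j + 1))) * L j = ∑ v ∈ univ.image s, τ v * Yv s v L := by
  have h1 : ∑ j, τ (s (j + 1)) * L j = ∑ j, τ (s j) * L (j - 1) := by
    rw [← Equiv.sum_comp (Equiv.addRight (1 : Fin (m + 1))) (fun j => τ (s j) * L (j - 1))]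
    refine Finset.sum_congr rfl fun j _ => ?_
    simp only [Equiv.coe_addRight, add_sub_cancel_right]
  have h2 : ∑ j, (τ (s j) - τ (s (j + 1))) * L j = ∑ j, τ (s j) * (L j - L (j - 1)) := by
    have h3 : ∀ j, (τ (s j) - τ (s (j + 1))) * L j = τ (s j) * L j - τ (s (j + 1)) * L j := fun j => by ring
    have h4 : ∀ j, τ (s j) * (L j - L (j - 1)) = τ (s j) * L j - τ (s j) * L (j - 1) := fun j => by ring
    simp_rw [h3, h4]
    rw [Finset.sum_sub_distrib, Finset.sum_sub_distrib, h1]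
  rw [h2, ← Finset.sum_fiberwise_of_maps_to (s := univ) (t := univ.image s) (g := s)
    (fun j _ => Finset.mem_image_of_mem _ (Finset.mem_univ j))]
  refine Finset.sum_congr rfl fun v _ => ?_
  unfold Yv
  rw [Finset.mul_sum]
  refine Finset.sum_congr rfl fun j hj => ?_
  rw [(Finset.mem_filter.1 hj).2]

/-- The expectation for one closed walk and one `n`. -/
theorem mean_walk {k m : ℕ} (hk : m + 1 ≤ k) (g T : ℕ → ℝ) (s : Fin (m + 1) → ℕ) (L : Fin (m + 1) → ℝ) :
    ‖∫ z : Fin k → UnitAddCircle, Complex.exp (-((∑ j, (tau g T z (s j) - tau g T z (s (j + 1))) * L j : ℝ) : ℂ) *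
      Complex.I)‖ ≤ ∏ v ∈ univ.image s, min 1 (3 / (1 + |T v * Yv s v L|)) := by
  set φ : ℕ → UnitAddCircle → ℂ := fun v u =>
    Complex.exp (-(((g v + T v * frac u) * Yv s v L : ℝ) : ℂ) * Complex.I) with hφ
  have h1 : ∀ z : Fin k → UnitAddCircle, Complex.exp (-((∑ j, (tau g T z (s j) - tau g T z (s (j + 1))) * L j : ℝ) : ℂ) *
      Complex.I) = ∏ v ∈ univ.image s, φ v (ev z v) := by
    intro z
    rw [regroup, hφ]
    simp only
    rw [← Complex.exp_sum]
    congr 1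
    rw [← Finset.sum_mul, Finset.sum_neg_distrib]
    unfold tau
    push_cast
    rfl
  have hm : ∀ v, Measurable (φ v) := by
    intro v
    simp only [hφ]
    have h2 : Measurable (fun u : UnitAddCircle => (g v + T v * frac u) * Yv s v L) :=
      ((frac_meas.const_mul _).const_add _).mul_const _
    exact Complex.measurable_exp.comp (((Complex.measurable_ofReal.comp h2).neg).mul_const _)
  have hW : (univ.image s).card ≤ k := by
    refine le_trans Finset.card_image_le ?_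
    simpa using hk
  simp_rw [h1]
  rw [indep (by omega) _ hW φ hm, norm_prod]
  apply Finset.prod_le_prod
  · intro v _
    exact norm_nonneg _
  · intro v _
    exact mean_bound (g v) (T v) (Yv s v L)

/-- The trace. -/
noncomputable def TrG (k N : ℕ) (S : Finset ℕ) (g T : ℕ → ℝ) (q : ℕ) (z : Fin k → UnitAddCircle) : ℝ :=
  (((AmatG N (fun x : S => tau g T z x) * (AmatG N (fun x : S => tau g T z x))ᴴ) ^ q).trace).re

theorem expectG {k N m : ℕ} (hN : 1 ≤ N) (hk : m + 1 ≤ k) (S : Finset ℕ) (g T : ℕ → ℝ) {H : ℝ} (hH : 0 < H)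
    (hT : ∀ x, H ≤ T x) :
    Integrable (TrG k N S g T (m + 1)) ∧
      ∫ z, TrG k N S g T (m + 1) z ≤
        (6 * (1 + Real.log N)) ^ (m + 1) * (((m : ℝ) + 1) ^ m * (N * ((N : ℝ) + S.card * (1 + N / H)) ^ (m + 1))) := by
  classical
  have hN1 : (1 : ℝ) ≤ N := by exact_mod_cast hN
  have hlog : 0 ≤ Real.log N := Real.log_nonneg hN1
  set f : (Fin (m + 1) → S) → (Fin (m + 1) → Icc 1 N) → (Fin k → UnitAddCircle) → ℂ := fun s n z =>
    Complex.exp (-((∑ j, (tau g T z (s j) - tau g T z (s (j + 1))) * Real.log (n j : ℕ) : ℝ) : ℂ) *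
      Complex.I) with hf
  have hint : ∀ s n, Integrable (f s n) := by
    intro s n
    have hm : Measurable (f s n) := by
      simp only [hf]
      have h2 : Measurable (fun z : Fin k → UnitAddCircle =>
          ∑ j, (tau g T z (s j) - tau g T z (s (j + 1))) * Real.log (n j : ℕ)) :=
        Finset.measurable_sum _ fun j _ => ((tau_meas g T _).sub (tau_meas g T _)).mul_const _
      exact Complex.measurable_exp.comp (((Complex.measurable_ofReal.comp h2).neg).mul_const _)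
    refine (integrable_const (1 : ℝ)).mono' hm.aestronglyMeasurable (Filter.Eventually.of_forall fun z => ?_)
    simp only [hf]
    rw [← Complex.ofReal_neg, Complex.norm_exp_ofReal_mul_I]
  set F : (Fin k → UnitAddCircle) → ℂ := fun z => ∑ s, ∑ n, f s n z with hF
  have hFint : Integrable F :=
    integrable_finsetSum _ fun s _ => integrable_finsetSum _ fun n _ => hint s n
  have h2 : TrG k N S g T (m + 1) = fun z => RCLike.re (F z) := by
    funext z
    unfold TrG
    rw [trace_formulaG]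
    rfl
  rw [h2]
  refine ⟨hFint.re, ?_⟩
  rw [integral_re hFint]
  refine (RCLike.re_le_norm _).trans ?_
  rw [hF, integral_finsetSum _ fun s _ => integrable_finsetSum _ fun n _ => hint s n]
  refine (norm_sum_le _ _).trans ?_
  set μ : ℝ := 1 + N / H with hμ
  have hμ1 : 1 ≤ μ := by
    have : 0 ≤ N / H := by positivity
    linarith
  set M : ℝ := 6 * (1 + Real.log N) * μ with hM
  have hM1 : 1 ≤ M := by
    rw [hM]
    nlinarith
  -- one closed walk
  have h3 : ∀ s : Fin (m + 1) → S, ‖∫ z, ∑ n, f s n z‖ ≤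
      (N : ℝ) ^ (NP s).card * M ^ (m + 1 - (NP s).card) := by
    intro s
    rw [integral_finsetSum _ fun n _ => hint s n]
    refine (norm_sum_le _ _).trans ?_
    refine (Finset.sum_le_sum fun n _ => mean_walk hk g T (fun j => (s j : ℕ)) (fun j => Real.log (n j : ℕ))).trans ?_
    have h4 := walk_sum (fun j => (s j : ℕ)) N hM1
      (fun v y => min 1 (3 / (1 + |T v * y|))) (fun v y => le_min zero_le_one (by positivity))
      (fun v y => min_le_left _ _) (fun v c => kap_sum N (T v) H c hH (hT v))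
    have h5 : NP (fun j => (s j : ℕ)) = NP s := by
      unfold NP
      ext j
      simp only [mem_filter, mem_univ, true_and, Subtype.coe_inj]
    rw [h5] at h4
    exact h4
  refine (Finset.sum_le_sum fun s _ => h3 s).trans ?_
  refine (sum_NPw (α := S) N hN hM1 m).trans ?_
  rw [Fintype.card_coe]
  have hR0 : (0 : ℝ) ≤ S.card := Nat.cast_nonneg _
  have hl1 : (1 : ℝ) ≤ 6 * (1 + Real.log N) := by linarith
  have hRM : (S.card : ℝ) * M + N ≤ (6 * (1 + Real.log N)) * (N + S.card * μ) := by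
    rw [hM]
    nlinarith
  have hR : (S.card : ℝ) ≤ S.card * M + N := by nlinarith
  have h7 : (S.card : ℝ) * M + (m + 1) * N ≤ (m + 1) * (S.card * M + N) := by
    have : 0 ≤ (m : ℝ) * (S.card * M) := by positivity
    linarith
  calc (S.card : ℝ) * N * (S.card * M + (m + 1) * N) ^ m ≤
        ((S.card * M + N) * N) * ((m + 1) * (S.card * M + N)) ^ m :=
        mul_le_mul (mul_le_mul_of_nonneg_right hR (by positivity))
          (pow_le_pow_left₀ (by positivity) h7 m) (by positivity) (by positivity)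
    _ = ((m : ℝ) + 1) ^ m * (N * (S.card * M + N) ^ (m + 1)) := by
        rw [mul_pow, pow_succ (S.card * M + N) m]
        ring
    _ ≤ ((m : ℝ) + 1) ^ m * (N * ((6 * (1 + Real.log N)) * (N + S.card * μ)) ^ (m + 1)) := by
        apply mul_le_mul_of_nonneg_left _ (by positivity)
        apply mul_le_mul_of_nonneg_left _ (by positivity)
        exact pow_le_pow_left₀ (by positivity) hRM _
    _ = (6 * (1 + Real.log N)) ^ (m + 1) * (((m : ℝ) + 1) ^ m * (N * ((N : ℝ) + S.card * μ) ^ (m + 1))) := by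
        rw [mul_pow (6 * (1 + Real.log N))]
        ring

theorem log_pow (q N : ℕ) (hq : 1 ≤ q) (hN : 1 ≤ N) :
    (6 * (1 + Real.log N)) ^ q ≤ (6 * (1 + q)) ^ q * (N : ℝ) := by
  have hN1 : (1 : ℝ) ≤ N := by exact_mod_cast hN
  have hN0 : (0 : ℝ) < N := by linarith
  have hq0 : (0 : ℝ) < q := by exact_mod_cast hq
  have h1 : Real.log N ≤ q * (N : ℝ) ^ (1 / (q : ℝ)) := by
    have := Real.log_le_rpow_div hN0.le (one_div_pos.2 hq0)
    rwa [div_div_eq_mul_div, div_one, mul_comm] at this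
  have h2 : (1 : ℝ) ≤ (N : ℝ) ^ (1 / (q : ℝ)) := Real.one_le_rpow hN1 (by positivity)
  have hlog : 0 ≤ Real.log N := Real.log_nonneg hN1
  have h3 : 6 * (1 + Real.log N) ≤ (6 * (1 + q)) * (N : ℝ) ^ (1 / (q : ℝ)) := by nlinarith
  calc (6 * (1 + Real.log N)) ^ q ≤ ((6 * (1 + q)) * (N : ℝ) ^ (1 / (q : ℝ))) ^ q :=
        pow_le_pow_left₀ (by positivity) h3 q
    _ = (6 * (1 + q)) ^ q * (N : ℝ) := by
        rw [mul_pow, ← Real.rpow_natCast ((N : ℝ) ^ (1 / (q : ℝ))) q, ← Real.rpow_mul hN0.le,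
          one_div, inv_mul_cancel₀ hq0.ne', Real.rpow_one]

/-- For every `ε`, `A` and all large degrees: the large sieve inequality, general form. -/
theorem core (ε A : ℝ) (hε : 0 < ε) (hA : 0 < A) :
    ∃ k₀ : ℕ, ∀ (Ω : Type) [MeasurableSpace Ω] (P : Measure Ω) (k : ℕ → ℕ), (∃ N₁, ∀ N ≥ N₁, k₀ ≤ k N) →
      ∀ (Z : ∀ N, Ω → (Fin (k N) → UnitAddCircle)), (∀ N, MeasurePreserving (Z N) P volume) →
      ∀ (S : ℕ → ℕ → Finset ℕ) (g T : ℕ → ℕ → ℕ → ℝ) (H : ℕ → ℕ → ℝ),
      (∀ N l : ℕ, 0 < H N l) → (∀ N l x : ℕ, H N l ≤ T N l x) →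
      ∀ᵐ ω ∂P, ∃ C : ℝ, 0 ≤ C ∧ ∀ N l : ℕ, 1 ≤ N → (l : ℝ) ≤ (N : ℝ) ^ A → ∀ a : ℕ → ℂ,
        ∑ x ∈ S N l, ‖D a N (tau (g N l) (T N l) (Z N ω) x)‖ ^ 2 ≤
          C * (N : ℝ) ^ ε * (N + (S N l).card * (1 + N / H N l)) * ∑ n ∈ Icc 1 N, ‖a n‖ ^ 2 := by
  obtain ⟨r, hr⟩ := exists_r (4 + 2 * A) ε hε
  set q : ℕ := 2 ^ (r + 1) with hq
  have hq1 : 1 ≤ q := Nat.one_le_two_pow
  obtain ⟨m, hm⟩ : ∃ m, q = m + 1 := ⟨q - 1, by omega⟩
  refine ⟨q, ?_⟩
  intro Ω _ P k hk Z hZ S g T H hH hT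
  obtain ⟨N₁, hN₁⟩ := hk
  set B : ℕ → ℕ → ℝ := fun N l => N + (S N l).card * (1 + N / H N l) with hB
  have hB0 : ∀ N l, 0 ≤ B N l := by
    intro N l
    have := hH N l
    simp only [hB]
    positivity
  set F : ℕ × ℕ → Ω → ℝ := fun p ω =>
    if 1 ≤ p.1 ∧ q ≤ k p.1 then TrG (k p.1) p.1 (S p.1 p.2) (g p.1 p.2) (T p.1 p.2) q (Z p.1 ω) *
      (1 / ((p.1 : ℝ) ^ 4 * ((p.2 : ℝ) + 1) ^ 2 * (B p.1 p.2) ^ q)) else 0 with hF
  have hTr : ∀ (k N : ℕ) (S : Finset ℕ) (g T : ℕ → ℝ) (z : Fin k → UnitAddCircle), 0 ≤ TrG k N S g T q z := by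
    intro k N S g T z
    unfold TrG
    rw [hq]
    exact trace_nonneg (Matrix.isHermitian_mul_conjTranspose_self _) r
  have hF0 : ∀ p z, 0 ≤ F p z := by
    intro p z
    simp only [hF]
    split_ifs
    · have := hB0 p.1 p.2
      exact mul_nonneg (hTr _ _ _ _ _ _) (by positivity)
    · exact le_rfl
  have hEx : ∀ p : ℕ × ℕ, 1 ≤ p.1 → q ≤ k p.1 →
      Integrable (fun ω => TrG (k p.1) p.1 (S p.1 p.2) (g p.1 p.2) (T p.1 p.2) q (Z p.1 ω)) P ∧
      ∫ ω, TrG (k p.1) p.1 (S p.1 p.2) (g p.1 p.2) (T p.1 p.2) q (Z p.1 ω) ∂P ≤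
        (6 * (1 + Real.log p.1)) ^ q * (((m : ℝ) + 1) ^ m * (p.1 * (B p.1 p.2) ^ q)) := by
    intro p hp hkp
    have h1 := expectG (k := k p.1) hp (by omega) (S p.1 p.2) (g p.1 p.2) (T p.1 p.2) (hH p.1 p.2) (hT p.1 p.2)
      (m := m)
    rw [← hm] at h1
    refine ⟨((hZ p.1).integrable_comp h1.1.aestronglyMeasurable).2 h1.1, ?_⟩
    have h2 : ∫ ω, TrG (k p.1) p.1 (S p.1 p.2) (g p.1 p.2) (T p.1 p.2) q (Z p.1 ω) ∂P =
        ∫ z, TrG (k p.1) p.1 (S p.1 p.2) (g p.1 p.2) (T p.1 p.2) q z := by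
      rw [← (hZ p.1).map_eq, integral_map (hZ p.1).measurable.aemeasurable]
      rw [(hZ p.1).map_eq]
      exact h1.1.aestronglyMeasurable
    rw [h2]
    exact h1.2
  have hint : ∀ p, Integrable (fun ω => (1 : ℝ) * F p ω) P := by
    intro p
    simp only [hF, one_mul]
    by_cases hp : 1 ≤ p.1 ∧ q ≤ k p.1
    · simp only [if_pos hp]
      exact (hEx p hp.1 hp.2).1.mul_const _
    · simp only [if_neg hp]
      exact integrable_zero _ _ _
  set K : ℝ := (6 * (1 + (q : ℝ))) ^ q * ((m : ℝ) + 1) ^ m with hK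
  have hK0 : 0 ≤ K := by positivity
  have hFb : ∀ p, ∫ ω, (1 : ℝ) * F p ω ∂P ≤ K * (1 / (p.1 : ℝ) ^ 2 * (1 / ((p.2 : ℝ) + 1) ^ 2)) := by
    intro p
    simp only [hF, one_mul]
    by_cases hp : 1 ≤ p.1 ∧ q ≤ k p.1
    · simp only [if_pos hp]
      rw [integral_mul_const]
      have hN0 : (0 : ℝ) < p.1 := by exact_mod_cast hp.1
      have hHp := hH p.1 p.2
      have hBp : 0 < B p.1 p.2 := by
        simp only [hB]
        positivity
      have h1 : ∫ ω, TrG (k p.1) p.1 (S p.1 p.2) (g p.1 p.2) (T p.1 p.2) q (Z p.1 ω) ∂P ≤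
          K * ((p.1 : ℝ) ^ 2 * (B p.1 p.2) ^ q) := by
        refine (hEx p hp.1 hp.2).2.trans ?_
        have h3 := log_pow q p.1 hq1 hp.1
        calc (6 * (1 + Real.log p.1)) ^ q * (((m : ℝ) + 1) ^ m * (p.1 * (B p.1 p.2) ^ q)) ≤
              ((6 * (1 + (q : ℝ))) ^ q * (p.1 : ℝ)) * (((m : ℝ) + 1) ^ m * (p.1 * (B p.1 p.2) ^ q)) :=
              mul_le_mul_of_nonneg_right h3 (by positivity)
          _ = K * ((p.1 : ℝ) ^ 2 * (B p.1 p.2) ^ q) := by
              rw [hK]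
              ring
      refine (mul_le_mul_of_nonneg_right h1 (by positivity)).trans (le_of_eq ?_)
      have h2 := hBp.ne'
      field_simp
    · simp only [if_neg hp, integral_zero]
      positivity
  have hae := ae_bound P (fun _ => 1) (fun _ => one_pos) F hF0 hint _ (summ.mul_left K) hFb
  filter_upwards [hae] with ω hω
  obtain ⟨C, hC, hCF⟩ := hω
  refine ⟨max (max 1 (4 * C)) N₁, le_trans zero_le_one ((le_max_left _ _).trans (le_max_left _ _)), ?_⟩
  intro N l hN hl a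
  have hN1 : (1 : ℝ) ≤ N := by exact_mod_cast hN
  have hNε : (1 : ℝ) ≤ (N : ℝ) ^ ε := Real.one_le_rpow hN1 hε.le
  have hsa : 0 ≤ ∑ n ∈ Icc 1 N, ‖a n‖ ^ 2 := Finset.sum_nonneg fun _ _ => sq_nonneg _
  change _ ≤ max (max 1 (4 * C)) (N₁ : ℝ) * (N : ℝ) ^ ε * B N l * ∑ n ∈ Icc 1 N, ‖a n‖ ^ 2
  by_cases hkN : q ≤ k N
  · have h1 := hCF (N, l)
    have hHp := hH N l
    have hBp : 0 < B N l := by
      simp only [hB]
      positivity
    simp only [hF] at h1
    rw [if_pos ⟨hN, hkN⟩, mul_one_div, div_le_iff₀ (by positivity)] at h1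
    have h2 := finishG (ε := ε) (A := A) r hr hC (hB0 N l) hN hA.le hl a
      (fun x : S N l => tau (g N l) (T N l) (Z N ω) x) h1
    rw [Finset.sum_coe_sort (S N l) (fun x => ‖D a N (tau (g N l) (T N l) (Z N ω) x)‖ ^ 2)] at h2
    refine h2.trans ?_
    apply mul_le_mul_of_nonneg_right _ hsa
    apply mul_le_mul_of_nonneg_right _ (hB0 N l)
    exact mul_le_mul_of_nonneg_right (le_max_left _ _) (by positivity)
  · have h1 := trivial_boundG a N (fun x : S N l => tau (g N l) (T N l) (Z N ω) x)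
    rw [Finset.sum_coe_sort (S N l) (fun x => ‖D a N (tau (g N l) (T N l) (Z N ω) x)‖ ^ 2),
      Fintype.card_coe] at h1
    have h2 : (N : ℝ) ≤ N₁ := by
      have : N ≤ N₁ := by
        by_contra hcon
        exact hkN (hN₁ N (by omega))
      exact_mod_cast this
    have h3 : ((S N l).card : ℝ) ≤ B N l := by
      have hHp := hH N l
      have h4 : 0 ≤ ((S N l).card : ℝ) * (N / H N l) := by positivity
      simp only [hB]
      rw [mul_add, mul_one]
      linarith
    refine h1.trans ?_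
    rw [← mul_assoc]
    apply mul_le_mul_of_nonneg_right _ hsa
    calc ((S N l).card : ℝ) * N ≤ B N l * N₁ := mul_le_mul h3 h2 (by positivity) (hB0 N l)
      _ = N₁ * 1 * B N l := by ring
      _ ≤ max (max 1 (4 * C)) (N₁ : ℝ) * (N : ℝ) ^ ε * B N l := by
          apply mul_le_mul_of_nonneg_right _ (hB0 N l)
          exact mul_le_mul (le_max_right _ _) hNε (by positivity)
            (le_trans zero_le_one ((le_max_left _ _).trans (le_max_left _ _)))

end Pool.Agent.V7H80.LV
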