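import Pool.Agent.V7H80.LV.Tor

set_option autoImplicit false

/-!
Integral linear forms in independent uniform variables: linearly independent forms are independent.
-/

namespace Pool.Agent.V7H80.LV

open MeasureTheory

/-- The value of the linear form with coefficients `c v`. -/
noncomputable def lf {k : ℕ} (c : ℕ → ℕ → ℤ) (z : Fin k → UnitAddCircle) (v : ℕ) : UnitAddCircle :=
  ∑ i : Fin k, c v i • z i

/-- the values of the forms in `W` -/
noncomputable def lfH (k : ℕ) (c : ℕ → ℕ → ℤ) (W : Finset ℕ) : (Fin k → UnitAddCircle) →+ (W → UnitAddCircle) where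
  toFun z v := lf c z (v : ℕ)
  map_zero' := by
    funext v
    simp [lf]
  map_add' z z' := by
    funext v
    simp [lf, smul_add, Finset.sum_add_distrib]

theorem lf_cont {k : ℕ} (c : ℕ → ℕ → ℤ) (v : ℕ) : Continuous (fun z : Fin k → UnitAddCircle => lf c z v) := by
  unfold lf
  exact continuous_finsetSum _ fun i _ => (continuous_zsmul (c v i)).comp (continuous_apply i)

theorem lf_coe {k : ℕ} (c : ℕ → ℕ → ℤ) (θ : Fin k → ℝ) (v : ℕ) :
    lf c (fun i => (θ i : UnitAddCircle)) v = ((∑ i : Fin k, (c v i : ℝ) * θ i : ℝ) : UnitAddCircle) := by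
  unfold lf
  rw [coe_sum']
  refine Finset.sum_congr rfl fun i _ => ?_
  rw [← AddCircle.coe_zsmul]
  congr 1
  rw [zsmul_eq_mul]

theorem lfH_surj {k : ℕ} (c : ℕ → ℕ → ℤ) (W : Finset ℕ)
    (hW : LinearIndependent ℝ (fun (v : W) (i : Fin k) => (c v i : ℝ))) : Function.Surjective (lfH k c W) := by
  classical
  intro u
  have h1 : ∀ v : W, ∃ r : ℝ, (r : UnitAddCircle) = u v := fun v => QuotientAddGroup.mk_surjective (u v)
  choose r hr using h1
  -- solve the linear equations
  obtain ⟨θ, hθ⟩ : ∃ θ : Fin k → ℝ, ∀ v : W, ∑ i : Fin k, (c v i : ℝ) * θ i = r v := by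
    set M : Matrix W (Fin k) ℝ := fun v i => (c v i : ℝ) with hM
    have hr1 : M.rank = Fintype.card W := LinearIndependent.rank_matrix hW
    have hr2 : LinearMap.range M.mulVecLin = ⊤ := by
      apply Submodule.eq_top_of_finrank_eq
      rw [Module.finrank_fintype_fun_eq_card]
      exact hr1
    have hr3 : r ∈ LinearMap.range M.mulVecLin := by
      rw [hr2]
      trivial
    obtain ⟨θ, hθ⟩ := hr3
    exact ⟨θ, fun v => congrFun hθ v⟩
  refine ⟨fun i => ((θ i : ℝ) : UnitAddCircle), ?_⟩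
  funext v
  have h3 : lfH k c W (fun i => ((θ i : ℝ) : UnitAddCircle)) v =
      lf c (fun i : Fin k => ((θ i : ℝ) : UnitAddCircle)) (v : ℕ) := rfl
  rw [h3, lf_coe, ← hr v, hθ v]

theorem lfH_mp {k : ℕ} (c : ℕ → ℕ → ℤ) (W : Finset ℕ)
    (hW : LinearIndependent ℝ (fun (v : W) (i : Fin k) => (c v i : ℝ))) :
    MeasurePreserving (lfH k c W) (volume : Measure (Fin k → UnitAddCircle)) (volume : Measure (W → UnitAddCircle)) :=
  AddMonoidHom.measurePreserving (continuous_pi fun v => lf_cont c (v : ℕ)) (lfH_surj c W hW)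
    (by rw [pi_univ, pi_univ])

/-- `q`-wise independence and uniformity of the `U v`, `v ∈ S`. -/
def QInd {Ω : Type} [MeasurableSpace Ω] (P : Measure Ω) (U : Ω → ℕ → UnitAddCircle) (S : Finset ℕ) (q : ℕ) : Prop :=
  (∀ v ∈ S, Measurable (fun ω => U ω v)) ∧ ∀ W ⊆ S, W.card ≤ q → ∀ φ : ℕ → UnitAddCircle → ℂ,
    (∀ v, Measurable (φ v)) → ∫ ω, ∏ v ∈ W, φ v (U ω v) ∂P = ∏ v ∈ W, ∫ u, φ v u

/-- Integral linear forms, any `q` of which are linearly independent. -/
theorem qind_lf {Ω : Type} [MeasurableSpace Ω] (P : Measure Ω) {k : ℕ} (Z : Ω → Fin k → UnitAddCircle)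
    (hZ : MeasurePreserving Z P volume) (c : ℕ → ℕ → ℤ) (S : Finset ℕ) (q : ℕ)
    (hS : ∀ W ⊆ S, W.card ≤ q → LinearIndependent ℝ (fun (v : W) (i : Fin k) => (c v i : ℝ))) :
    QInd P (fun ω v => lf c (Z ω) v) S q := by
  refine ⟨fun v _ => (lf_cont c v).measurable.comp hZ.measurable, ?_⟩
  intro W hW hWq φ hφ
  have hmp := lfH_mp c W (hS W hW hWq)
  have h1 : ∀ z : Fin k → UnitAddCircle, ∏ v ∈ W, φ v (lf c z v) = ∏ v : W, φ v (lfH k c W z v) := by
    intro z
    rw [← Finset.prod_coe_sort W (fun v => φ v (lf c z v))]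
    rfl
  have hm : Measurable (fun u : W → UnitAddCircle => ∏ v : W, φ v (u v)) :=
    Finset.measurable_prod _ fun v _ => (hφ v).comp (measurable_pi_apply v)
  have h0 : ∫ ω, ∏ v ∈ W, φ v (lf c (Z ω) v) ∂P = ∫ u : W → UnitAddCircle, ∏ v : W, φ v (u v) := by
    have hcomp := hmp.comp hZ
    simp_rw [h1]
    rw [← hcomp.map_eq, integral_map hcomp.measurable.aemeasurable]
    · rfl
    · rw [hcomp.map_eq]
      exact hm.aestronglyMeasurable
  rw [h0, integral_fintype_prod_volume_eq_prod (fun (v : W) (u : UnitAddCircle) => φ v u),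
    Finset.prod_coe_sort W (fun v => ∫ u, φ v u)]

end Pool.Agent.V7H80.LV
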