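import Pool.Agent.V7H80.LV.FracB
import Pool.Agent.V7H80.LV.Lin

set_option autoImplicit false

/-!
The same for `q`-wise independent uniform variables.
-/

namespace Pool.Agent.V7H80.LV

open Finset Matrix MeasureTheory

/-- The point. -/
noncomputable def tauU (g T : ℕ → ℝ) (u : ℕ → UnitAddCircle) (v : ℕ) : ℝ := g v + T v * frac (u v)

theorem tauU_meas {Ω : Type} [MeasurableSpace Ω] (g T : ℕ → ℝ) (U : Ω → ℕ → UnitAddCircle) (v : ℕ)
    (hv : Measurable (fun ω => U ω v)) : Measurable (fun ω => tauU g T (U ω) v) := by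
  unfold tauU
  exact ((frac_meas.comp hv).const_mul _).const_add _

/-- The expectation for one closed walk and one `n`. -/
theorem mean_walkU {Ω : Type} [MeasurableSpace Ω] (P : Measure Ω) {m q : ℕ} (hq : m + 1 ≤ q)
    (U : Ω → ℕ → UnitAddCircle) (S : Finset ℕ) (hU : QInd P U S q) (g T : ℕ → ℝ) (s : Fin (m + 1) → ℕ)
    (hs : ∀ j, s j ∈ S) (L : Fin (m + 1) → ℝ) :
    ‖∫ ω, Complex.exp (-((∑ j, (tauU g T (U ω) (s j) - tauU g T (U ω) (s (j + 1))) * L j : ℝ) : ℂ) *
      Complex.I) ∂P‖ ≤ ∏ v ∈ univ.image s, min 1 (3 / (1 + |T v * Yv s v L|)) := by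
  set φ : ℕ → UnitAddCircle → ℂ := fun v u =>
    Complex.exp (-(((g v + T v * frac u) * Yv s v L : ℝ) : ℂ) * Complex.I) with hφ
  have h1 : ∀ ω, Complex.exp (-((∑ j, (tauU g T (U ω) (s j) - tauU g T (U ω) (s (j + 1))) * L j : ℝ) : ℂ) *
      Complex.I) = ∏ v ∈ univ.image s, φ v (U ω v) := by
    intro ω
    rw [regroup, hφ]
    simp only
    rw [← Complex.exp_sum]
    congr 1
    rw [← Finset.sum_mul, Finset.sum_neg_distrib]
    unfold tauU
    push_cast
    rfl
  have hm : ∀ v, Measurable (φ v) := by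
    intro v
    simp only [hφ]
    have h2 : Measurable (fun u : UnitAddCircle => (g v + T v * frac u) * Yv s v L) :=
      ((frac_meas.const_mul _).const_add _).mul_const _
    exact Complex.measurable_exp.comp (((Complex.measurable_ofReal.comp h2).neg).mul_const _)
  have hW : (univ.image s).card ≤ q := by
    refine le_trans Finset.card_image_le ?_
    simpa using hq
  have hWS : univ.image s ⊆ S := by
    intro v hv
    rw [Finset.mem_image] at hv
    obtain ⟨j, -, rfl⟩ := hv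
    exact hs j
  simp_rw [h1]
  rw [hU.2 _ hWS hW φ hm, norm_prod]
  apply Finset.prod_le_prod
  · intro v _
    exact norm_nonneg _
  · intro v _
    exact mean_bound (g v) (T v) (Yv s v L)

/-- The trace. -/
noncomputable def TrU (N : ℕ) (S : Finset ℕ) (g T : ℕ → ℝ) (q : ℕ) (u : ℕ → UnitAddCircle) : ℝ :=
  (((AmatG N (fun x : S => tauU g T u x) * (AmatG N (fun x : S => tauU g T u x))ᴴ) ^ q).trace).re

theorem expectU {Ω : Type} [MeasurableSpace Ω] (P : Measure Ω) [IsProbabilityMeasure P] {N m q : ℕ} (hN : 1 ≤ N)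
    (hq : m + 1 ≤ q) (U : Ω → ℕ → UnitAddCircle) (S : Finset ℕ) (hU : QInd P U S q) (g T : ℕ → ℝ) {H : ℝ}
    (hH : 0 < H) (hT : ∀ x, H ≤ T x) :
    Integrable (fun ω => TrU N S g T (m + 1) (U ω)) P ∧
      ∫ ω, TrU N S g T (m + 1) (U ω) ∂P ≤
        (6 * (1 + Real.log N)) ^ (m + 1) * (((m : ℝ) + 1) ^ m * (N * ((N : ℝ) + S.card * (1 + N / H)) ^ (m + 1))) := by
  classical
  have hN1 : (1 : ℝ) ≤ N := by exact_mod_cast hN
  have hlog : 0 ≤ Real.log N := Real.log_nonneg hN1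
  set f : (Fin (m + 1) → S) → (Fin (m + 1) → Icc 1 N) → Ω → ℂ := fun s n ω =>
    Complex.exp (-((∑ j, (tauU g T (U ω) (s j) - tauU g T (U ω) (s (j + 1))) * Real.log (n j : ℕ) : ℝ) : ℂ) *
      Complex.I) with hf
  have hint : ∀ s n, Integrable (f s n) P := by
    intro s n
    have hm : Measurable (f s n) := by
      simp only [hf]
      have h2 : Measurable (fun ω : Ω =>
          ∑ j, (tauU g T (U ω) (s j) - tauU g T (U ω) (s (j + 1))) * Real.log (n j : ℕ)) :=
        Finset.measurable_sum _ fun j _ => ((tauU_meas g T U _ (hU.1 _ (s j).2)).sub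
          (tauU_meas g T U _ (hU.1 _ (s (j + 1)).2))).mul_const _
      exact Complex.measurable_exp.comp (((Complex.measurable_ofReal.comp h2).neg).mul_const _)
    refine (integrable_const (1 : ℝ)).mono' hm.aestronglyMeasurable (Filter.Eventually.of_forall fun z => ?_)
    simp only [hf]
    rw [← Complex.ofReal_neg, Complex.norm_exp_ofReal_mul_I]
  set F : Ω → ℂ := fun z => ∑ s, ∑ n, f s n z with hF
  have hFint : Integrable F P :=
    integrable_finsetSum _ fun s _ => integrable_finsetSum _ fun n _ => hint s n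
  have h2 : (fun ω => TrU N S g T (m + 1) (U ω)) = fun ω => RCLike.re (F ω) := by
    funext ω
    unfold TrU
    rw [trace_formulaG]
    rfl
  rw [h2]
  refine ⟨hFint.re, ?_⟩
  rw [integral_re hFint]
  refine (RCLike.re_le_norm _).trans ?_
  rw [hF, integral_finsetSum _ fun s _ => integrable_finsetSum _ fun n _ => hint s n]
  refine (norm_sum_le _ _).trans ?_
  set μ : ℝ := 1 + N / H with hμ
  have hμ1 : 1 ≤ μ := by
    have : 0 ≤ N / H := by positivity
    linarith
  set M : ℝ := 6 * (1 + Real.log N) * μ with hM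
  have hM1 : 1 ≤ M := by
    rw [hM]
    nlinarith
  -- one closed walk
  have h3 : ∀ s : Fin (m + 1) → S, ‖∫ ω, ∑ n, f s n ω ∂P‖ ≤
      (N : ℝ) ^ (NP s).card * M ^ (m + 1 - (NP s).card) := by
    intro s
    rw [integral_finsetSum _ fun n _ => hint s n]
    refine (norm_sum_le _ _).trans ?_
    refine (Finset.sum_le_sum fun n _ => mean_walkU P hq U S hU g T (fun j => (s j : ℕ))
      (fun j => (s j).2) (fun j => Real.log (n j : ℕ))).trans ?_
    have h4 := walk_sum (fun j => (s j : ℕ)) N hM1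
      (fun v y => min 1 (3 / (1 + |T v * y|))) (fun v y => le_min zero_le_one (by positivity))
      (fun v y => min_le_left _ _) (fun v c => kap_sum N (T v) H c hH (hT v))
    have h5 : NP (fun j => (s j : ℕ)) = NP s := by
      unfold NP
      ext j
      simp only [mem_filter, mem_univ, true_and, Subtype.coe_inj]
    rw [h5] at h4
    exact h4
  refine (Finset.sum_le_sum fun s _ => h3 s).trans ?_
  refine (sum_NPw (α := S) N hN hM1 m).trans ?_
  rw [Fintype.card_coe]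
  have hR0 : (0 : ℝ) ≤ S.card := Nat.cast_nonneg _
  have hl1 : (1 : ℝ) ≤ 6 * (1 + Real.log N) := by linarith
  have hRM : (S.card : ℝ) * M + N ≤ (6 * (1 + Real.log N)) * (N + S.card * μ) := by
    rw [hM]
    nlinarith
  have hR : (S.card : ℝ) ≤ S.card * M + N := by nlinarith
  have h7 : (S.card : ℝ) * M + (m + 1) * N ≤ (m + 1) * (S.card * M + N) := by
    have : 0 ≤ (m : ℝ) * (S.card * M) := by positivity
    linarith
  calc (S.card : ℝ) * N * (S.card * M + (m + 1) * N) ^ m ≤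
        ((S.card * M + N) * N) * ((m + 1) * (S.card * M + N)) ^ m :=
        mul_le_mul (mul_le_mul_of_nonneg_right hR (by positivity))
          (pow_le_pow_left₀ (by positivity) h7 m) (by positivity) (by positivity)
    _ = ((m : ℝ) + 1) ^ m * (N * (S.card * M + N) ^ (m + 1)) := by
        rw [mul_pow, pow_succ (S.card * M + N) m]
        ring
    _ ≤ ((m : ℝ) + 1) ^ m * (N * ((6 * (1 + Real.log N)) * (N + S.card * μ)) ^ (m + 1)) := by
        apply mul_le_mul_of_nonneg_left _ (by positivity)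
        apply mul_le_mul_of_nonneg_left _ (by positivity)
        exact pow_le_pow_left₀ (by positivity) hRM _
    _ = (6 * (1 + Real.log N)) ^ (m + 1) * (((m : ℝ) + 1) ^ m * (N * ((N : ℝ) + S.card * μ) ^ (m + 1))) := by
        rw [mul_pow (6 * (1 + Real.log N))]
        ring

theorem exists_r' (x ε : ℝ) (hε : 0 < ε) (hx : 0 < x) :
    ∃ r : ℕ, x ≤ ε * 2 ^ (r + 1) ∧ ((2 ^ (r + 1) : ℕ) : ℝ) ≤ 2 + 2 * x / ε := by
  classical
  have hex := exists_r x ε hε
  refine ⟨Nat.find hex, Nat.find_spec hex, ?_⟩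
  have h0 : 0 ≤ 2 * x / ε := by positivity
  rcases Nat.eq_zero_or_pos (Nat.find hex) with h | h
  · rw [h]
    norm_num
    linarith
  · have h1 := Nat.find_min hex (m := Nat.find hex - 1) (by omega)
    rw [Nat.sub_add_cancel h, not_le] at h1
    have h2 : (2 : ℝ) ^ (Nat.find hex) ≤ x / ε := by
      rw [le_div_iff₀ hε]
      linarith
    push_cast
    rw [pow_succ]
    have h3 : 2 * x / ε = 2 * (x / ε) := by ring
    linarith

/-- For every `ε`, `A`: the large sieve inequality for `q₀`-wise independent points. -/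
theorem coreU (ε A : ℝ) (hε : 0 < ε) (hA : 0 < A) :
    ∃ q₀ : ℕ, (q₀ : ℝ) ≤ 2 + (8 + 4 * A) / ε ∧ ∀ (Ω : Type) [MeasurableSpace Ω] (P : Measure Ω) [IsProbabilityMeasure P]
      (S : ℕ → ℕ → Finset ℕ) (U : ℕ → ℕ → Ω → ℕ → UnitAddCircle),
      (∃ N₁ : ℕ, ∀ N ≥ N₁, ∀ l : ℕ, (l : ℝ) ≤ (N : ℝ) ^ A → QInd P (U N l) (S N l) q₀) →
      ∀ (g T : ℕ → ℕ → ℕ → ℝ) (H : ℕ → ℕ → ℝ),
      (∀ N l : ℕ, 0 < H N l) → (∀ N l x : ℕ, H N l ≤ T N l x) →
      ∀ᵐ ω ∂P, ∃ C : ℝ, 0 ≤ C ∧ ∀ N l : ℕ, 1 ≤ N → (l : ℝ) ≤ (N : ℝ) ^ A → ∀ a : ℕ → ℂ,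
        ∑ x ∈ S N l, ‖D a N (tauU (g N l) (T N l) (U N l ω) x)‖ ^ 2 ≤
          C * (N : ℝ) ^ ε * (N + (S N l).card * (1 + N / H N l)) * ∑ n ∈ Icc 1 N, ‖a n‖ ^ 2 := by
  classical
  obtain ⟨r, hr, hr2⟩ := exists_r' (4 + 2 * A) ε hε (by linarith)
  set q : ℕ := 2 ^ (r + 1) with hq
  have hq1 : 1 ≤ q := Nat.one_le_two_pow
  obtain ⟨m, hm⟩ : ∃ m, q = m + 1 := ⟨q - 1, by omega⟩
  refine ⟨q, ?_, ?_⟩
  · refine hr2.trans (le_of_eq ?_)
    ring
  intro Ω _ P _ S U hU g T H hH hT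
  obtain ⟨N₁, hN₁⟩ := hU
  set B : ℕ → ℕ → ℝ := fun N l => N + (S N l).card * (1 + N / H N l) with hB
  have hB0 : ∀ N l, 0 ≤ B N l := by
    intro N l
    have := hH N l
    simp only [hB]
    positivity
  set F : ℕ × ℕ → Ω → ℝ := fun p ω =>
    if 1 ≤ p.1 ∧ QInd P (U p.1 p.2) (S p.1 p.2) q then TrU p.1 (S p.1 p.2) (g p.1 p.2) (T p.1 p.2) q (U p.1 p.2 ω) *
      (1 / ((p.1 : ℝ) ^ 4 * ((p.2 : ℝ) + 1) ^ 2 * (B p.1 p.2) ^ q)) else 0 with hF
  have hTr : ∀ (N : ℕ) (S : Finset ℕ) (g T : ℕ → ℝ) (u : ℕ → UnitAddCircle), 0 ≤ TrU N S g T q u := by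
    intro N S g T u
    unfold TrU
    rw [hq]
    exact trace_nonneg (Matrix.isHermitian_mul_conjTranspose_self _) r
  have hF0 : ∀ p z, 0 ≤ F p z := by
    intro p z
    simp only [hF]
    split_ifs
    · have := hB0 p.1 p.2
      exact mul_nonneg (hTr _ _ _ _ _) (by positivity)
    · exact le_rfl
  have hEx : ∀ p : ℕ × ℕ, 1 ≤ p.1 → QInd P (U p.1 p.2) (S p.1 p.2) q →
      Integrable (fun ω => TrU p.1 (S p.1 p.2) (g p.1 p.2) (T p.1 p.2) q (U p.1 p.2 ω)) P ∧
      ∫ ω, TrU p.1 (S p.1 p.2) (g p.1 p.2) (T p.1 p.2) q (U p.1 p.2 ω) ∂P ≤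
        (6 * (1 + Real.log p.1)) ^ q * (((m : ℝ) + 1) ^ m * (p.1 * (B p.1 p.2) ^ q)) := by
    intro p hp hkp
    have h1 := expectU P hp (show m + 1 ≤ q by omega) (U p.1 p.2) (S p.1 p.2) hkp (g p.1 p.2) (T p.1 p.2)
      (hH p.1 p.2) (hT p.1 p.2)
    rw [← hm] at h1
    exact h1
  have hint : ∀ p, Integrable (fun ω => (1 : ℝ) * F p ω) P := by
    intro p
    simp only [hF, one_mul]
    by_cases hp : 1 ≤ p.1 ∧ QInd P (U p.1 p.2) (S p.1 p.2) q
    · simp only [if_pos hp]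
      exact (hEx p hp.1 hp.2).1.mul_const _
    · simp only [if_neg hp]
      exact integrable_zero _ _ _
  set K : ℝ := (6 * (1 + (q : ℝ))) ^ q * ((m : ℝ) + 1) ^ m with hK
  have hK0 : 0 ≤ K := by positivity
  have hFb : ∀ p, ∫ ω, (1 : ℝ) * F p ω ∂P ≤ K * (1 / (p.1 : ℝ) ^ 2 * (1 / ((p.2 : ℝ) + 1) ^ 2)) := by
    intro p
    simp only [hF, one_mul]
    by_cases hp : 1 ≤ p.1 ∧ QInd P (U p.1 p.2) (S p.1 p.2) q
    · simp only [if_pos hp]
      rw [integral_mul_const]
      have hN0 : (0 : ℝ) < p.1 := by exact_mod_cast hp.1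
      have hHp := hH p.1 p.2
      have hBp : 0 < B p.1 p.2 := by
        simp only [hB]
        positivity
      have h1 : ∫ ω, TrU p.1 (S p.1 p.2) (g p.1 p.2) (T p.1 p.2) q (U p.1 p.2 ω) ∂P ≤
          K * ((p.1 : ℝ) ^ 2 * (B p.1 p.2) ^ q) := by
        refine (hEx p hp.1 hp.2).2.trans ?_
        have h3 := log_pow q p.1 hq1 hp.1
        calc (6 * (1 + Real.log p.1)) ^ q * (((m : ℝ) + 1) ^ m * (p.1 * (B p.1 p.2) ^ q)) ≤
              ((6 * (1 + (q : ℝ))) ^ q * (p.1 : ℝ)) * (((m : ℝ) + 1) ^ m * (p.1 * (B p.1 p.2) ^ q)) :=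
              mul_le_mul_of_nonneg_right h3 (by positivity)
          _ = K * ((p.1 : ℝ) ^ 2 * (B p.1 p.2) ^ q) := by
              rw [hK]
              ring
      refine (mul_le_mul_of_nonneg_right h1 (by positivity)).trans (le_of_eq ?_)
      have h2 := hBp.ne'
      field_simp
    · simp only [if_neg hp, integral_zero]
      positivity
  have hae := ae_bound P (fun _ => 1) (fun _ => one_pos) F hF0 hint _ (summ.mul_left K) hFb
  filter_upwards [hae] with ω hω
  obtain ⟨C, hC, hCF⟩ := hω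
  refine ⟨max (max 1 (4 * C)) N₁, le_trans zero_le_one ((le_max_left _ _).trans (le_max_left _ _)), ?_⟩
  intro N l hN hl a
  have hN1 : (1 : ℝ) ≤ N := by exact_mod_cast hN
  have hNε : (1 : ℝ) ≤ (N : ℝ) ^ ε := Real.one_le_rpow hN1 hε.le
  have hsa : 0 ≤ ∑ n ∈ Icc 1 N, ‖a n‖ ^ 2 := Finset.sum_nonneg fun _ _ => sq_nonneg _
  change _ ≤ max (max 1 (4 * C)) (N₁ : ℝ) * (N : ℝ) ^ ε * B N l * ∑ n ∈ Icc 1 N, ‖a n‖ ^ 2
  by_cases hkN : QInd P (U N l) (S N l) q
  · have h1 := hCF (N, l)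
    have hHp := hH N l
    have hBp : 0 < B N l := by
      simp only [hB]
      positivity
    simp only [hF] at h1
    rw [if_pos ⟨hN, hkN⟩, mul_one_div, div_le_iff₀ (by positivity)] at h1
    have h2 := finishG (ε := ε) (A := A) r hr hC (hB0 N l) hN hA.le hl a
      (fun x : S N l => tauU (g N l) (T N l) (U N l ω) x) h1
    rw [Finset.sum_coe_sort (S N l) (fun x => ‖D a N (tauU (g N l) (T N l) (U N l ω) x)‖ ^ 2)] at h2
    refine h2.trans ?_
    apply mul_le_mul_of_nonneg_right _ hsa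
    apply mul_le_mul_of_nonneg_right _ (hB0 N l)
    exact mul_le_mul_of_nonneg_right (le_max_left _ _) (by positivity)
  · have h1 := trivial_boundG a N (fun x : S N l => tauU (g N l) (T N l) (U N l ω) x)
    rw [Finset.sum_coe_sort (S N l) (fun x => ‖D a N (tauU (g N l) (T N l) (U N l ω) x)‖ ^ 2),
      Fintype.card_coe] at h1
    have h2 : (N : ℝ) ≤ N₁ := by
      have : N ≤ N₁ := by
        by_contra hcon
        exact hkN (hN₁ N (by omega) l hl)
      exact_mod_cast this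
    have h3 : ((S N l).card : ℝ) ≤ B N l := by
      have hHp := hH N l
      have h4 : 0 ≤ ((S N l).card : ℝ) * (N / H N l) := by positivity
      simp only [hB]
      rw [mul_add, mul_one]
      linarith
    refine h1.trans ?_
    rw [← mul_assoc]
    apply mul_le_mul_of_nonneg_right _ hsa
    calc ((S N l).card : ℝ) * N ≤ B N l * N₁ := mul_le_mul h3 h2 (by positivity) (hB0 N l)
      _ = N₁ * 1 * B N l := by ring
      _ ≤ max (max 1 (4 * C)) (N₁ : ℝ) * (N : ℝ) ^ ε * B N l := by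
          apply mul_le_mul_of_nonneg_right _ (hB0 N l)
          exact mul_le_mul (le_max_right _ _) hNε (by positivity)
            (le_trans zero_le_one ((le_max_left _ _).trans (le_max_left _ _)))

end Pool.Agent.V7H80.LV
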