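import Pool.Agent.V7H80.LV.FracC

set_option autoImplicit false

/-!
Real random variables: `q`-wise independent ones, and the fractional parts of random polynomials.
-/

namespace Pool.Agent.V7H80.LV

open Finset Matrix MeasureTheory

theorem circle_mp : MeasurePreserving (fun (x : ℝ) => (x : UnitAddCircle)) (volume.restrict (Set.Icc (0 : ℝ) 1))
    volume := by
  have h4 := AddCircle.measurePreserving_mk 1 0
  rw [zero_add, Measure.restrict_congr_set Ioc_ae_eq_Icc] at h4
  exact h4

/-- `q`-wise independent real variables, uniform in `[0, 1]`. -/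
theorem qind_real {Ω : Type} [MeasurableSpace Ω] (P : Measure Ω) [IsProbabilityMeasure P] (S : Finset ℕ)
    (U : ℕ → Ω → ℝ) (q : ℕ)
    (hU : ∀ x ∈ S, Measurable (U x) ∧ P.map (U x) = volume.restrict (Set.Icc (0 : ℝ) 1))
    (hind : ∀ W ⊆ S, W.card ≤ q → ProbabilityTheory.iIndepFun (fun (x : W) => U x) P) :
    QInd P (fun ω v => ((U v ω : ℝ) : UnitAddCircle)) S q := by
  refine ⟨fun v hv => circle_mp.measurable.comp (hU v hv).1, ?_⟩
  intro W hW hWq φ hφ
  have h1 : MeasurePreserving (fun (ω : Ω) (v : W) => U v ω) P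
      (Measure.pi fun _ : W => volume.restrict (Set.Icc (0 : ℝ) 1)) := by
    refine ⟨measurable_pi_lambda _ fun v => (hU v (hW v.2)).1, ?_⟩
    rw [(ProbabilityTheory.iIndepFun_iff_map_fun_eq_pi_map
      (fun v : W => (hU v (hW v.2)).1.aemeasurable)).1 (hind W hW hWq)]
    congr 1
    funext v
    exact (hU v (hW v.2)).2
  have h5 : MeasurePreserving (fun (x : W → ℝ) (i : W) => (x i : UnitAddCircle))
      (Measure.pi fun _ : W => volume.restrict (Set.Icc (0 : ℝ) 1))
      (Measure.pi fun _ : W => (volume : Measure UnitAddCircle)) :=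
    measurePreserving_pi _ _ fun i => circle_mp
  have hmp := h5.comp h1
  have hm : Measurable (fun u : W → UnitAddCircle => ∏ v : W, φ v (u v)) :=
    Finset.measurable_prod _ fun v _ => (hφ v).comp (measurable_pi_apply v)
  have h2 : ∀ ω, ∏ v ∈ W, φ v ((U v ω : ℝ) : UnitAddCircle) =
      ∏ v : W, φ v (((U v ω : ℝ) : UnitAddCircle)) := by
    intro ω
    exact (Finset.prod_coe_sort W (fun v => φ v ((U v ω : ℝ) : UnitAddCircle))).symm
  have h0 : ∫ ω, ∏ v ∈ W, φ v ((U v ω : ℝ) : UnitAddCircle) ∂P =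
      ∫ u : W → UnitAddCircle, ∏ v : W, φ v (u v) ∂(Measure.pi fun _ : W => (volume : Measure UnitAddCircle)) := by
    simp_rw [h2]
    rw [← hmp.map_eq, integral_map hmp.measurable.aemeasurable]
    · rfl
    · rw [hmp.map_eq]
      exact hm.aestronglyMeasurable
  rw [h0, integral_fintype_prod_eq_prod (fun (v : W) (u : UnitAddCircle) => φ v u),
    Finset.prod_coe_sort W (fun v => ∫ u, φ v u)]

/-- A uniform variable is its fractional part. -/
theorem frac_ae {Ω : Type} [MeasurableSpace Ω] (P : Measure Ω) (U : Ω → ℝ) (hm : Measurable U)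
    (hU : P.map U = volume.restrict (Set.Icc (0 : ℝ) 1)) :
    ∀ᵐ ω ∂P, frac ((U ω : ℝ) : UnitAddCircle) = U ω := by
  have h1 : ∀ᵐ y ∂(P.map U), y ∈ Set.Ico (0 : ℝ) 1 := by
    rw [hU, ← Measure.restrict_congr_set Ico_ae_eq_Icc]
    exact ae_restrict_mem measurableSet_Ico
  filter_upwards [ae_of_ae_map hm.aemeasurable h1] with ω hω
  rw [frac_coe, Int.fract_eq_self.2 ⟨hω.1, hω.2⟩]

/-- Lagrange interpolation: the vectors `(x^i)` of distinct `x` are linearly independent. -/
theorem vander {k : ℕ} (W : Finset ℕ) (hW : W.card ≤ k) :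
    LinearIndependent ℝ (fun (v : W) (i : Fin k) => ((((v : ℕ) : ℤ) ^ (i : ℕ) : ℤ) : ℝ)) := by
  classical
  rw [Fintype.linearIndependent_iff]
  intro c hc v
  have hinj : Set.InjOn (fun w : W => ((w : ℕ) : ℝ)) (Finset.univ : Finset W) := by
    intro a _ b _ h
    exact Subtype.ext (Nat.cast_injective h)
  -- the interpolation polynomial of the indicator function of `v`
  set Q : Polynomial ℝ := Lagrange.interpolate (Finset.univ : Finset W) (fun w => ((w : ℕ) : ℝ))
    (fun w => if w = v then 1 else 0) with hQ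
  have hcard : 0 < W.card := Finset.card_pos.2 ⟨v, v.2⟩
  have hdeg : Q.natDegree < k := by
    have h2 := Lagrange.degree_interpolate_lt (fun w : W => if w = v then (1 : ℝ) else 0) hinj
    rw [← hQ] at h2
    by_cases h0 : Q = 0
    · rw [h0, Polynomial.natDegree_zero]
      omega
    · rw [Polynomial.degree_eq_natDegree h0] at h2
      have h3 : Q.natDegree < (Finset.univ : Finset W).card := by exact_mod_cast h2
      rw [Finset.card_univ, Fintype.card_coe] at h3
      omega
  have h1 : ∑ w : W, c w * Q.eval ((w : ℕ) : ℝ) = 0 := by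
    have h2 : ∀ w : W, Q.eval ((w : ℕ) : ℝ) = ∑ i : Fin k, Q.coeff i * ((w : ℕ) : ℝ) ^ (i : ℕ) := by
      intro w
      rw [Polynomial.eval_eq_sum_range' hdeg,
        Finset.sum_range (fun i => Q.coeff i * ((w : ℕ) : ℝ) ^ i)]
    simp_rw [h2, Finset.mul_sum]
    rw [Finset.sum_comm]
    apply Finset.sum_eq_zero
    intro i _
    have h3 := congrFun hc i
    rw [Finset.sum_apply] at h3
    simp only [Pi.smul_apply, smul_eq_mul, Pi.zero_apply] at h3
    calc ∑ w : W, c w * (Q.coeff i * ((w : ℕ) : ℝ) ^ (i : ℕ)) =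
        Q.coeff i * ∑ w : W, c w * ((((w : ℕ) : ℤ) ^ (i : ℕ) : ℤ) : ℝ) := by
          rw [Finset.mul_sum]
          refine Finset.sum_congr rfl fun w _ => ?_
          push_cast
          ring
      _ = 0 := by rw [h3, mul_zero]
  have h4 : ∀ w : W, Q.eval ((w : ℕ) : ℝ) = if w = v then 1 else 0 := by
    intro w
    exact Lagrange.eval_interpolate_at_node (fun w : W => if w = v then (1 : ℝ) else 0) hinj (Finset.mem_univ w)
  simp_rw [h4] at h1
  simpa using h1

end Pool.Agent.V7H80.LV
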