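import Pool.Agent.V7H80.LV.Cnt

set_option autoImplicit false

/-!
The sum over `n` for one closed walk.
-/

namespace Pool.Agent.V7H80.LV

open Finset

/-- Triangular sums of products. -/
theorem tri {β : Type} [Fintype β] (m : ℕ) : ∀ (φ : Fin m → (Fin m → β) → ℝ) (c : Fin m → ℝ),
    (∀ j n, 0 ≤ φ j n) → (∀ j n n', (∀ i ≤ j, n i = n' i) → φ j n = φ j n') → (∀ j, 0 ≤ c j) →
    (∀ j n, ∑ b, φ j (Function.update n j b) ≤ c j) → ∑ n, ∏ j, φ j n ≤ ∏ j, c j := by
  induction m with
  | zero =>
    intro φ c _ _ _ _
    simp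
  | succ m ih =>
    intro φ c h0 hdep hc hsum
    rw [← (Fin.consEquiv (fun _ : Fin (m + 1) => β)).sum_comp, Fintype.sum_prod_type, Fin.prod_univ_succ c]
    have h1 : ∀ b : β, ∑ n : Fin m → β, ∏ j, φ j ((Fin.consEquiv (fun _ : Fin (m + 1) => β)) (b, n)) ≤
        φ 0 (fun _ => b) * ∏ j : Fin m, c j.succ := by
      intro b
      have h2 : ∀ n : Fin m → β, ∏ j, φ j ((Fin.consEquiv (fun _ : Fin (m + 1) => β)) (b, n)) =
          φ 0 (fun _ => b) * ∏ j : Fin m, φ j.succ (Fin.cons b n : Fin (m + 1) → β) := by
        intro n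
        rw [Fin.prod_univ_succ]
        congr 1
        apply hdep
        intro i hi
        have : i = 0 := le_antisymm hi (Fin.zero_le _)
        rw [this]
        rfl
      simp_rw [h2]
      rw [← Finset.mul_sum]
      apply mul_le_mul_of_nonneg_left _ (h0 _ _)
      refine ih (fun j n => φ j.succ (Fin.cons b n : Fin (m + 1) → β)) (fun j => c j.succ) (fun j n => h0 _ _)
        ?_ (fun j => hc _) ?_
      · intro j n n' h
        apply hdep
        intro i hi
        refine Fin.cases ?_ ?_ i (motive := fun i => i ≤ j.succ →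
          (Fin.cons b n : Fin (m + 1) → β) i = (Fin.cons b n' : Fin (m + 1) → β) i) hi
        · intro _
          rfl
        · intro i' hi'
          rw [Fin.cons_succ, Fin.cons_succ]
          exact h i' (Fin.succ_le_succ_iff.1 hi')
      · intro j n
        have h3 := hsum j.succ (Fin.cons b n : Fin (m + 1) → β)
        simp_rw [← Fin.cons_update] at h3
        exact h3
    refine (Finset.sum_le_sum fun b _ => h1 b).trans ?_
    rw [← Finset.sum_mul]
    apply mul_le_mul_of_nonneg_right _ (Finset.prod_nonneg fun j _ => hc _)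
    rcases isEmpty_or_nonempty β with hβ | hβ
    · rw [Fintype.sum_empty]
      exact hc 0
    · obtain ⟨b₀⟩ := hβ
      have h4 := hsum 0 (fun _ => b₀)
      refine le_trans (le_of_eq ?_) h4
      refine Finset.sum_congr rfl fun b _ => ?_
      apply hdep
      intro i hi
      have : i = 0 := le_antisymm hi (Fin.zero_le _)
      rw [this, Function.update_self]

/-- The exponent of the letter `v`. -/
noncomputable def Yv {m : ℕ} {α : Type} [DecidableEq α] (s : Fin (m + 1) → α) (v : α) (L : Fin (m + 1) → ℝ) : ℝ :=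
  ∑ i ∈ univ.filter (fun i => s i = v), (L i - L (i - 1))

theorem Yv_diff {m : ℕ} {α : Type} [DecidableEq α] (s : Fin (m + 1) → α) (j : Fin (m + 1))
    (hlater : ∀ i, j < i → s i ≠ s j) (L L' : Fin (m + 1) → ℝ)
    (h : ∀ i < j, L i = L' i) (hl : L (Fin.last m) = L' (Fin.last m)) :
    Yv s (s j) L - L j = Yv s (s j) L' - L' j := by
  have hprev : ∀ i, i ≤ j → L (i - 1) = L' (i - 1) := by
    intro i hi
    rcases eq_or_ne i 0 with h0 | h0
    · rw [h0, show (0 : Fin (m + 1)) - 1 = Fin.last m by
        rw [sub_eq_iff_eq_add, Fin.last_add_one]]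
      exact hl
    · have hlt : i - 1 < i := Fin.sub_one_lt_iff.2 (Fin.pos_of_ne_zero h0)
      exact h _ (lt_of_lt_of_le hlt hi)
  have hmem : j ∈ univ.filter (fun i => s i = s j) := by simp
  unfold Yv
  rw [← Finset.add_sum_erase _ _ hmem, ← Finset.add_sum_erase _ _ hmem, hprev j le_rfl]
  have h2 : ∑ i ∈ (univ.filter (fun i => s i = s j)).erase j, (L i - L (i - 1)) =
      ∑ i ∈ (univ.filter (fun i => s i = s j)).erase j, (L' i - L' (i - 1)) := by
    refine Finset.sum_congr rfl fun i hi => ?_
    simp only [mem_erase, mem_filter, mem_univ, true_and] at hi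
    have hij : i < j := by
      rcases lt_or_gt_of_ne hi.1 with h3 | h3
      · exact h3
      · exact absurd hi.2 (hlater i h3)
    rw [h i hij, hprev i hij.le]
  rw [h2]
  ring

theorem Yv_congr {m : ℕ} {α : Type} [DecidableEq α] (s : Fin (m + 1) → α) (j : Fin (m + 1))
    (hlater : ∀ i, j < i → s i ≠ s j) (L L' : Fin (m + 1) → ℝ)
    (h : ∀ i ≤ j, L i = L' i) (hl : L (Fin.last m) = L' (Fin.last m)) :
    Yv s (s j) L = Yv s (s j) L' := by
  have h1 := Yv_diff s j hlater L L' (fun i hi => h i hi.le) hl
  rw [h j le_rfl] at h1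
  linarith

/-- The sum over `n` for one closed walk: `κ` is summable along the logarithms. -/
theorem walk_sum {m : ℕ} {α : Type} [DecidableEq α] (s : Fin (m + 1) → α) (N : ℕ) {M : ℝ} (hM : 1 ≤ M)
    (κ : α → ℝ → ℝ) (h0 : ∀ v y, 0 ≤ κ v y) (h1 : ∀ v y, κ v y ≤ 1)
    (hsum : ∀ v c, ∑ n : Icc 1 N, κ v (Real.log (n : ℕ) + c) ≤ M) :
    ∑ n : Fin (m + 1) → Icc 1 N, ∏ v ∈ univ.image s, κ v (Yv s v (fun j => Real.log (n j : ℕ))) ≤
      (N : ℝ) ^ (NP s).card * M ^ (m + 1 - (NP s).card) := by
  classical
  -- only the pivots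
  have h2 : ∀ n : Fin (m + 1) → Icc 1 N, ∏ v ∈ univ.image s, κ v (Yv s v (fun j => Real.log (n j : ℕ))) ≤
      ∏ j : Fin m, (if j.castSucc ∈ NP s then 1 else
        κ (s j.castSucc) (Yv s (s j.castSucc) (fun j => Real.log (n j : ℕ)))) := by
    intro n
    set f : α → ℝ := fun v => κ v (Yv s v (fun j => Real.log (n j : ℕ))) with hf
    have hinj : ∀ a ∈ univ.filter (fun j : Fin m => j.castSucc ∉ NP s),
        ∀ b ∈ univ.filter (fun j : Fin m => j.castSucc ∉ NP s), s a.castSucc = s b.castSucc → a = b := by
      intro a ha b hb hab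
      simp only [NP, mem_filter, mem_univ, true_and, not_or, not_exists, not_and] at ha hb
      rcases lt_trichotomy a b with h3 | h3 | h3
      · exact absurd hab.symm (ha.2 b.castSucc (Fin.castSucc_lt_castSucc_iff.2 h3))
      · exact h3
      · exact absurd hab (hb.2 a.castSucc (Fin.castSucc_lt_castSucc_iff.2 h3))
    have h3 : ∏ j : Fin m, (if j.castSucc ∈ NP s then 1 else f (s j.castSucc)) =
        ∏ v ∈ (univ.filter (fun j : Fin m => j.castSucc ∉ NP s)).image (fun j => s j.castSucc), f v := by
      rw [Finset.prod_image hinj, Finset.prod_filter]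
      refine Finset.prod_congr rfl fun j _ => ?_
      by_cases h : j.castSucc ∈ NP s
      · rw [if_pos h, if_neg (by simpa using h)]
      · rw [if_neg h, if_pos h]
    change ∏ v ∈ univ.image s, f v ≤ ∏ j : Fin m, (if j.castSucc ∈ NP s then 1 else f (s j.castSucc))
    rw [h3]
    have hsub : (univ.filter (fun j : Fin m => j.castSucc ∉ NP s)).image (fun j => s j.castSucc) ⊆ univ.image s := by
      intro v hv
      rw [Finset.mem_image] at hv ⊢
      obtain ⟨j, -, rfl⟩ := hv
      exact ⟨j.castSucc, Finset.mem_univ _, rfl⟩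
    rw [← Finset.prod_sdiff hsub]
    have h4 : ∏ v ∈ univ.image s \ (univ.filter (fun j : Fin m => j.castSucc ∉ NP s)).image
        (fun j => s j.castSucc), f v ≤ 1 := Finset.prod_le_one (fun v _ => h0 _ _) (fun v _ => h1 _ _)
    have h5 : 0 ≤ ∏ v ∈ (univ.filter (fun j : Fin m => j.castSucc ∉ NP s)).image (fun j => s j.castSucc), f v :=
      Finset.prod_nonneg fun v _ => h0 _ _
    nlinarith
  refine (Finset.sum_le_sum fun n _ => h2 n).trans ?_
  rw [← (Fin.snocEquiv (fun _ : Fin (m + 1) => Icc 1 N)).sum_comp, Fintype.sum_prod_type]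
  have hNP : (NP s).card = (univ.filter (fun j : Fin m => j.castSucc ∈ NP s)).card + 1 := by
    have h3 : (NP s).card = (univ.filter fun j => j ∈ NP s).card := by
      congr 1
      ext j
      simp
    rw [h3, Finset.card_filter, Finset.card_filter, Fin.sum_univ_castSucc]
    congr 1
    rw [if_pos (by simp [NP])]
  have h3 : ∀ b : Icc 1 N, ∑ n : Fin m → Icc 1 N, ∏ j : Fin m, (if j.castSucc ∈ NP s then (1 : ℝ) else
        κ (s j.castSucc) (Yv s (s j.castSucc) (fun j =>
          Real.log ((Fin.snocEquiv (fun _ : Fin (m + 1) => Icc 1 N) (b, n)) j : ℕ)))) ≤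
      ∏ j : Fin m, (if j.castSucc ∈ NP s then (N : ℝ) else M) := by
    intro b
    refine tri m (fun j n => if j.castSucc ∈ NP s then (1 : ℝ) else
        κ (s j.castSucc) (Yv s (s j.castSucc) (fun j =>
          Real.log ((Fin.snocEquiv (fun _ : Fin (m + 1) => Icc 1 N) (b, n)) j : ℕ))))
      (fun j => if j.castSucc ∈ NP s then (N : ℝ) else M) ?_ ?_ ?_ ?_
    · intro j n
      split_ifs
      · exact zero_le_one
      · exact h0 _ _
    · intro j n n' h
      split_ifs with hj
      · rfl
      · simp only [NP, mem_filter, mem_univ, true_and, not_or, not_exists, not_and] at hj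
        congr 1
        apply Yv_congr s j.castSucc hj.2
        · intro i hi
          have hil : i ≠ Fin.last m := by
            rintro rfl
            exact absurd (lt_of_le_of_lt hi (Fin.castSucc_lt_last j)) (lt_irrefl _)
          obtain ⟨i', rfl⟩ := Fin.exists_castSucc_eq.2 hil
          simp only [Fin.snocEquiv_apply, Fin.snoc_castSucc]
          rw [h i' (Fin.castSucc_le_castSucc_iff.1 hi)]
        · simp only [Fin.snocEquiv_apply, Fin.snoc_last]
    · intro j
      split_ifs
      · positivity
      · linarith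
    · intro j n
      split_ifs with hj
      · simp
      · simp only [NP, mem_filter, mem_univ, true_and, not_or, not_exists, not_and] at hj
        set Lb : Icc 1 N → Fin (m + 1) → ℝ := fun b' j' =>
          Real.log ((Fin.snocEquiv (fun _ : Fin (m + 1) => Icc 1 N) (b, Function.update n j b')) j' : ℕ) with hLb
        have hj1 : ∀ b', Lb b' j.castSucc = Real.log (b' : ℕ) := by
          intro b'
          simp only [hLb, Fin.snocEquiv_apply, Fin.snoc_castSucc, Function.update_self]
        have h4 : ∀ b', Yv s (s j.castSucc) (Lb b') =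
            Real.log (b' : ℕ) + (Yv s (s j.castSucc) (Lb b) - Real.log (b : ℕ)) := by
          intro b'
          have h5 := Yv_diff s j.castSucc hj.2 (Lb b') (Lb b) (by
            intro i hi
            have hil : i ≠ Fin.last m := by
              rintro rfl
              exact absurd (hi.trans (Fin.castSucc_lt_last j)) (lt_irrefl _)
            obtain ⟨i', rfl⟩ := Fin.exists_castSucc_eq.2 hil
            have hij : i' ≠ j := by
              rintro rfl
              exact lt_irrefl _ hi
            simp only [hLb, Fin.snocEquiv_apply, Fin.snoc_castSucc, Function.update_of_ne hij]) (by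
            simp only [hLb, Fin.snocEquiv_apply, Fin.snoc_last])
          rw [hj1, hj1] at h5
          linarith
        calc ∑ b', κ (s j.castSucc) (Yv s (s j.castSucc) (Lb b')) =
            ∑ b' : Icc 1 N, κ (s j.castSucc) (Real.log (b' : ℕ) +
              (Yv s (s j.castSucc) (Lb b) - Real.log (b : ℕ))) :=
              Finset.sum_congr rfl fun b' _ => by rw [h4]
          _ ≤ M := hsum _ _
  refine (Finset.sum_le_sum fun b _ => h3 b).trans ?_
  have h6 : ((univ : Finset (Icc 1 N)).card : ℝ) = N := by simp
  have h7 : (univ.filter (fun j : Fin m => j.castSucc ∉ NP s)).card = m + 1 - (NP s).card := by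
    have h8 := Finset.card_filter_add_card_filter_not (s := (univ : Finset (Fin m))) (fun j => j.castSucc ∈ NP s)
    rw [Finset.card_univ, Fintype.card_fin] at h8
    omega
  rw [Finset.sum_const, nsmul_eq_mul, Finset.prod_ite, Finset.prod_const, Finset.prod_const, h6, h7, hNP, pow_succ]
  apply le_of_eq
  ring

theorem NP_card_le {m : ℕ} {α : Type} [DecidableEq α] (s : Fin (m + 1) → α) : (NP s).card ≤ m + 1 := by
  calc (NP s).card ≤ (univ : Finset (Fin (m + 1))).card := Finset.card_le_card (Finset.subset_univ _)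
    _ = m + 1 := by simp

/-- The weighted sum over the closed walks. -/
theorem sum_NPw {α : Type} [Fintype α] [DecidableEq α] (N : ℕ) (hN : 1 ≤ N) {M : ℝ} (hM : 1 ≤ M) (m : ℕ) :
    ∑ s : Fin (m + 1) → α, (N : ℝ) ^ (NP s).card * M ^ (m + 1 - (NP s).card) ≤
      Fintype.card α * N * (Fintype.card α * M + (m + 1) * N) ^ m := by
  have hN1 : (1 : ℝ) ≤ N := by exact_mod_cast hN
  induction m with
  | zero =>
    have h1 : ∀ s : Fin 1 → α, (NP s).card = 1 := by
      intro s
      have : NP s = univ := by
        ext j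
        simp only [NP, mem_filter, mem_univ, true_and, iff_true]
        left
        exact Subsingleton.elim (α := Fin 1) _ _
      rw [this]
      simp
    simp only [h1, pow_one, Finset.sum_const, pow_zero, mul_one, zero_add, Nat.sub_self, nsmul_eq_mul]
    have h2 : (univ : Finset (Fin 1 → α)).card = Fintype.card α := by
      rw [Finset.card_univ, Fintype.card_fun]
      simp
    rw [h2]
  | succ m ih =>
    rw [← (Fin.consEquiv (fun _ : Fin (m + 2) => α)).sum_comp, Fintype.sum_prod_type, Finset.sum_comm]
    have h1 : ∀ s : Fin (m + 1) → α, ∑ x : α,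
        (N : ℝ) ^ (NP (Fin.consEquiv (fun _ : Fin (m + 2) => α) (x, s))).card *
          M ^ (m + 1 + 1 - (NP (Fin.consEquiv (fun _ : Fin (m + 2) => α) (x, s))).card) ≤
        ((N : ℝ) ^ (NP s).card * M ^ (m + 1 - (NP s).card)) * (Fintype.card α * M + (m + 1) * N) := by
      intro s
      have hle := NP_card_le s
      have h2 : ∀ x : α, (N : ℝ) ^ (NP (Fin.consEquiv (fun _ : Fin (m + 2) => α) (x, s))).card *
          M ^ (m + 1 + 1 - (NP (Fin.consEquiv (fun _ : Fin (m + 2) => α) (x, s))).card) ≤
          ((N : ℝ) ^ (NP s).card * M ^ (m + 1 - (NP s).card)) * (M + if ∃ i, s i = x then (N : ℝ) else 0) := by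
        intro x
        have h3 : NP (Fin.consEquiv (fun _ : Fin (m + 2) => α) (x, s)) = NP (Fin.cons x s : Fin (m + 2) → α) := rfl
        rw [h3, NP_cons]
        by_cases hx : ∃ i, s i = x
        · rw [if_pos hx, if_pos hx, show m + 1 + 1 - (1 + (NP s).card) = m + 1 - (NP s).card by omega,
            pow_add, pow_one]
          have h4 : 0 ≤ (N : ℝ) ^ (NP s).card * M ^ (m + 1 - (NP s).card) := by positivity
          calc (N : ℝ) * (N : ℝ) ^ (NP s).card * M ^ (m + 1 - (NP s).card) =
              ((N : ℝ) ^ (NP s).card * M ^ (m + 1 - (NP s).card)) * N := by ring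
            _ ≤ ((N : ℝ) ^ (NP s).card * M ^ (m + 1 - (NP s).card)) * (M + N) := by
                apply mul_le_mul_of_nonneg_left _ h4
                linarith
        · rw [if_neg hx, if_neg hx, show m + 1 + 1 - (0 + (NP s).card) = (m + 1 - (NP s).card) + 1 by omega,
            pow_succ, zero_add, add_zero]
          apply le_of_eq
          ring
      calc ∑ x : α, (N : ℝ) ^ (NP (Fin.consEquiv (fun _ : Fin (m + 2) => α) (x, s))).card *
          M ^ (m + 1 + 1 - (NP (Fin.consEquiv (fun _ : Fin (m + 2) => α) (x, s))).card)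
          ≤ ∑ x : α, ((N : ℝ) ^ (NP s).card * M ^ (m + 1 - (NP s).card)) *
            (M + if ∃ i, s i = x then (N : ℝ) else 0) := Finset.sum_le_sum fun x _ => h2 x
        _ = ((N : ℝ) ^ (NP s).card * M ^ (m + 1 - (NP s).card)) *
            (Fintype.card α * M + (univ.filter fun x => ∃ i, s i = x).card * N) := by
            rw [← Finset.mul_sum, Finset.sum_add_distrib, ← Finset.sum_filter, Finset.sum_const, Finset.sum_const]
            simp
        _ ≤ ((N : ℝ) ^ (NP s).card * M ^ (m + 1 - (NP s).card)) * (Fintype.card α * M + (m + 1) * N) := by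
            apply mul_le_mul_of_nonneg_left _ (by positivity)
            apply add_le_add le_rfl
            apply mul_le_mul_of_nonneg_right _ (by positivity)
            have h4 : (univ.filter fun x => ∃ i, s i = x) = univ.image s := by
              ext x
              simp
            rw [h4]
            have h5 : (univ.image s).card ≤ m + 1 := by
              calc (univ.image s).card ≤ (univ : Finset (Fin (m + 1))).card := Finset.card_image_le
                _ = m + 1 := by simp
            exact_mod_cast h5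
    calc ∑ s : Fin (m + 1) → α, ∑ x : α, (N : ℝ) ^ (NP (Fin.consEquiv (fun _ : Fin (m + 2) => α) (x, s))).card *
          M ^ (m + 1 + 1 - (NP (Fin.consEquiv (fun _ : Fin (m + 2) => α) (x, s))).card)
        ≤ ∑ s : Fin (m + 1) → α, ((N : ℝ) ^ (NP s).card * M ^ (m + 1 - (NP s).card)) *
            (Fintype.card α * M + (m + 1) * N) :=
          Finset.sum_le_sum fun s _ => h1 s
      _ = (∑ s : Fin (m + 1) → α, (N : ℝ) ^ (NP s).card * M ^ (m + 1 - (NP s).card)) *
            (Fintype.card α * M + (m + 1) * N) := by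
          rw [Finset.sum_mul]
      _ ≤ (Fintype.card α * N * (Fintype.card α * M + (m + 1) * N) ^ m) *
            (Fintype.card α * M + (m + 1) * N) :=
          mul_le_mul_of_nonneg_right ih (by positivity)
      _ = Fintype.card α * N * (Fintype.card α * M + (m + 1) * N) ^ (m + 1) := by ring
      _ ≤ Fintype.card α * N * (Fintype.card α * M + (((m + 1 : ℕ) : ℝ) + 1) * N) ^ (m + 1) := by
          apply mul_le_mul_of_nonneg_left _ (by positivity)
          apply pow_le_pow_left₀ (by positivity)
          push_cast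
          nlinarith

end Pool.Agent.V7H80.LV
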